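import Mathlib
import Pool.Agent.T6.H81.BA.Defs2
import Pool.Agent.T6.H5.TW.C

/-!
Systems of multilinear equations in products of projective spaces, all adelic heights: definitions,
and the statements of the modules.
-/

set_option autoImplicit false

namespace Pool.Agent.T6.H81.BG

open Finset Module Matrix Filter Topology
open Pool.Agent.H548.WM (ht bx mem_bx Rep)
open Pool.Agent.H548.BL (lat)
open Pool.Agent.H548.TL (evz)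
open Pool.Agent.T6.H5.TW (fl MultiDeg)
open Pool.Agent.T6.H81.BA (Cell factPrime)

/-- Points with integer coordinates: one vector for each block. -/
abbrev Pt {m : ℕ} (n : Fin m → ℕ) : Type := ∀ v, Fin (n v) → ℤ

open Classical in
/-- The points in a box with a property. -/
noncomputable def Bx {m : ℕ} (n : Fin m → ℕ) (X : Fin m → ℕ) (P : Pt n → Prop) : Finset (Pt n) :=
  (Fintype.piFinset fun v => bx (n v) (X v)).filter P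

/-! ### Lattices -/

/-- Module L3: lattice points in translated cones, with the number of the lattice points in a
smaller ball in the error term. -/
def StmtL3 : Prop := ∀ a n : ℕ, 1 ≤ a → ∃ C : ℝ, 0 ≤ C ∧
  ∀ (E : Type) [NormedAddCommGroup E] [NormedSpace ℝ E] [FiniteDimensional ℝ E]
    (L : Submodule ℤ E) [DiscreteTopology L] [IsZLattice ℝ L], finrank ℝ E = a →
    ∀ (f : Fin n → E →ₗ[ℝ] ℝ) (σ : Fin n → Bool),
    ∃ c : ℝ, 0 ≤ c ∧ ∀ ρ : ℝ, 0 < ρ → {v : E | v ∈ L ∧ ‖v‖ ≤ ρ}.Finite ∧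
      c * ρ ^ a ≤ C * ({v : E | v ∈ L ∧ ‖v‖ ≤ ρ}.ncard : ℝ) ∧
      ∀ (u : E) (Y : ℝ), ρ ≤ Y →
        {v : E | v ∈ L ∧ ‖v + u‖ ≤ Y ∧ ∀ i, (0 ≤ f i (v + u) ↔ σ i = true)}.Finite ∧
        |({v : E | v ∈ L ∧ ‖v + u‖ ≤ Y ∧ ∀ i, (0 ≤ f i (v + u) ↔ σ i = true)}.ncard : ℝ) -
          c * Y ^ a| ≤ C * (Y / ρ) ^ (a - 1) * ({v : E | v ∈ L ∧ ‖v‖ ≤ ρ}.ncard : ℝ)

open Classical in
/-- Module R3: primitive vectors in cells of the lattice `lat w`. -/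
def StmtR3 : Prop := ∀ k N n q : ℕ, k + 2 ≤ N → 1 ≤ q → ∃ C : ℝ, 0 ≤ C ∧
  ∀ w : Fin k → Fin N → ℤ, LinearIndependent ℤ w →
    ∀ (f : Fin n → Fin N → ℤ) (σ : Fin n → Bool) (r : Fin N → ℤ), ∃ c : ℝ, 0 ≤ c ∧
    ∀ ρ Y : ℕ, 1 ≤ ρ → ρ ≤ Y →
      |((((bx N Y).filter fun v => v ∈ lat w ∧ Cell f σ q r v).card : ℕ) : ℝ) -
        c * (Y : ℝ) ^ (N - k)| ≤ C * (1 + Real.log Y) * ((Y : ℝ) / ρ) ^ (N - k - 1) *
          ((((bx N ρ).filter fun v => v ∈ lat w).card : ℕ) : ℝ)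

/-! ### Fibred systems -/

open Classical in
/-- Sets `P T` of points, one for every set `T` of blocks, which are fibred in lattices. -/
structure MS {m : ℕ} (n : Fin m → ℕ) (P : Finset (Fin m) → Pt n → Prop)
    (ι : Finset (Fin m) → Fin m → Type) [∀ T v, Fintype (ι T v)]
    (w : ∀ T v, Pt n → ι T v → Fin (n v) → ℤ) (κ : Finset (Fin m) → Fin m → Fin m → ℕ) : Prop where
  le : ∀ T : Finset (Fin m), ∀ v ∈ T, Fintype.card (ι T v) + ∑ u ∈ T.erase v, κ T v u + 1 ≤ n v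
  card : ∀ T : Finset (Fin m), ∀ v ∈ T, ∀ u ∈ T.erase v,
    Fintype.card (ι (T.erase v) u) + κ T v u = Fintype.card (ι T u)
  upd_P : ∀ T : Finset (Fin m), ∀ v ∈ T, ∀ (x : Pt n) (z : Fin (n v) → ℤ),
    P (T.erase v) (Function.update x v z) ↔ P (T.erase v) x
  upd_w : ∀ T : Finset (Fin m), ∀ v ∈ T, ∀ (x : Pt n) (z : Fin (n v) → ℤ), w T v (Function.update x v z) = w T v x
  fib : ∀ T : Finset (Fin m), ∀ v ∈ T, ∀ x : Pt n, P T x →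
    P (T.erase v) x ∧ LinearIndependent ℤ (w T v x) ∧ x v ∈ lat (w T v x)
  bad : ∀ T : Finset (Fin m), ∀ v ∈ T, ∃ C : ℝ, 0 ≤ C ∧ ∀ x : Pt n, P (T.erase v) x →
    LinearIndependent ℤ (w T v x) → ∀ ρ : ℕ, 1 ≤ ρ →
    ((((bx (n v) ρ).filter fun z => z ∈ lat (w T v x) ∧
      ¬ P T (Function.update x v z)).card : ℕ) : ℝ) ≤
      C * (ρ : ℝ) ^ (n v - Fintype.card (ι T v) - ∑ u ∈ T.erase v, κ T v u - 1)

/-- Module B3: the number of the points in a box. -/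
def StmtB3 : Prop := ∀ (m : ℕ) (n : Fin m → ℕ) (P : Finset (Fin m) → Pt n → Prop)
  (ι : Finset (Fin m) → Fin m → Type) [∀ T v, Fintype (ι T v)]
  (w : ∀ T v, Pt n → ι T v → Fin (n v) → ℤ) (κ : Finset (Fin m) → Fin m → Fin m → ℕ),
  MS n P ι w κ → ∀ (T : Finset (Fin m)) (ε : ℝ), 0 < ε → ∃ C : ℝ, 0 ≤ C ∧
    ∀ X : Fin m → ℕ, (∀ v ∈ T, 1 ≤ X v) → (∀ v ∉ T, X v = 0) →
      ((Bx n X (P T)).card : ℝ) ≤
        C * (∏ v ∈ T, (X v : ℝ) ^ (n v - Fintype.card (ι T v))) * (∏ v ∈ T, (X v : ℝ)) ^ ε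

/-- A set `P` of points which is fibred in lattices, for every block. -/
structure FS {m : ℕ} (n r D : Fin m → ℕ) (P : Pt n → Prop) (Q : Fin m → Pt n → Prop)
    (ι : Fin m → Type) [∀ v, Fintype (ι v)] (w : ∀ v, Pt n → ι v → Fin (n v) → ℤ) : Prop where
  card : ∀ v, Fintype.card (ι v) + r v = n v
  r2 : ∀ v, 2 ≤ r v
  hD : ∀ v, D v + 1 ≤ r v
  upd_Q : ∀ v (x : Pt n) (z : Fin (n v) → ℤ), Q v (Function.update x v z) ↔ Q v x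
  upd_w : ∀ v (x : Pt n) (z : Fin (n v) → ℤ), w v (Function.update x v z) = w v x
  li : ∀ v (x : Pt n), Q v x → LinearIndependent ℤ (w v x)
  fib : ∀ v (x : Pt n), P x → Q v x ∧ x v ∈ lat (w v x)
  box : ∀ ε : ℝ, 0 < ε → ∃ C : ℝ, 0 ≤ C ∧ ∀ X : Fin m → ℕ, (∀ v, 1 ≤ X v) →
    ((Bx n X P).card : ℝ) ≤ C * (∏ v, (X v : ℝ) ^ r v) * (∏ v, (X v : ℝ)) ^ ε
  bad : ∀ v, ∀ ε : ℝ, 0 < ε → ∃ C : ℝ, 0 ≤ C ∧ ∀ X : Fin m → ℕ, (∀ u, 1 ≤ X u) →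
    (∀ u, X u ≤ 2 * X v) → ∀ ρ : ℕ, 1 ≤ ρ → ρ ≤ X v →
    ((Bx n (Function.update X v ρ) fun x => Q v x ∧ x v ∈ lat (w v x) ∧ ¬ P x).card : ℝ) ≤
      C * (∏ u ∈ univ.erase v, (X u : ℝ) ^ r u) * (X v : ℝ) ^ ((D v : ℝ) + ε) *
        (ρ : ℝ) ^ (r v - D v - 1)

/-- Module C3: the number of the points in boxes and cells, counted in the fibres over the other
blocks. -/
def StmtC3 : Prop := ∀ (m : ℕ) (n r D : Fin m → ℕ) (P : Pt n → Prop) (Q : Fin m → Pt n → Prop)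
  (ι : Fin m → Type) [∀ v, Fintype (ι v)] (w : ∀ v, Pt n → ι v → Fin (n v) → ℤ),
  FS n r D P Q ι w →
  ∀ (v : Fin m) (N : ℕ) (f : Fin N → Fin (n v) → ℤ) (σ : Fin N → Bool) (q : ℕ)
    (r0 : Fin (n v) → ℤ), 1 ≤ q →
  ∀ R : ∀ u, (Fin (n u) → ℤ) → Prop, (∀ z, R v z ↔ Cell f σ q r0 z) →
  ∃ (S : (Fin m → ℕ) → ℝ) (C δ : ℝ), 0 < δ ∧ ∀ X : Fin m → ℕ, (∀ u, 1 ≤ X u) →
    (∀ u, X u ≤ 2 * X v) →
    |((Bx n X fun x => P x ∧ ∀ u, R u (x u)).card : ℝ) -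
      S (Function.update X v 0) * (X v : ℝ) ^ r v| ≤
      C * (∏ u, (X u : ℝ) ^ r u) * (X v : ℝ) ^ (-δ)

/-- Module P3: the asymptotic formula for boxes. -/
def StmtP3 : Prop := ∀ (m : ℕ) (r : Fin m → ℕ) (F : (Fin m → ℕ) → ℝ),
  (∀ v : Fin m, ∃ (S : (Fin m → ℕ) → ℝ) (C δ : ℝ), 0 < δ ∧ ∀ X : Fin m → ℕ, (∀ u, 1 ≤ X u) →
    (∀ u, X u ≤ 2 * X v) → |F X - S (Function.update X v 0) * (X v : ℝ) ^ r v| ≤
      C * (∏ u, (X u : ℝ) ^ r u) * (X v : ℝ) ^ (-δ)) →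
  ∃ c C δ : ℝ, 0 < δ ∧ ∀ X : Fin m → ℕ, (∀ u, 1 ≤ X u) →
    |F X - c * ∏ u, (X u : ℝ) ^ r u| ≤ C * (∏ u, (X u : ℝ) ^ r u) * ∑ u, (X u : ℝ) ^ (-δ)

/-- Module H3: from boxes to heights. -/
def StmtH3 : Prop := ∀ (m : ℕ) (r : Fin (m + 1) → ℕ), (∀ v, 1 ≤ r v) → ∀ (α : Type) (Q : Set α)
  (g : Fin (m + 1) → α → ℕ), (∀ t ∈ Q, ∀ v, 1 ≤ g v t) →
  (∀ X : Fin (m + 1) → ℕ, {t | t ∈ Q ∧ ∀ v, g v t ≤ X v}.Finite) → ∀ c C δ : ℝ, 0 < δ →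
  (∀ X : Fin (m + 1) → ℕ, (∀ v, 1 ≤ X v) →
    |({t | t ∈ Q ∧ ∀ v, g v t ≤ X v}.ncard : ℝ) - c * ∏ v, (X v : ℝ) ^ r v| ≤
      C * (∏ v, (X v : ℝ) ^ r v) * ∑ v, (X v : ℝ) ^ (-δ)) →
  Tendsto (fun B : ℝ => ({t | t ∈ Q ∧ ∏ v, (g v t : ℝ) ^ r v ≤ B}.ncard : ℝ) /
    (B * Real.log B ^ m)) atTop (𝓝 (c / m.factorial))

/-- Module W3: the asymptotic formula for heights with a factor which is almost constant on
cells. -/
def StmtW3 : Prop := ∀ (m : ℕ) (α : Type) (Q : Set α) (g Φ : α → ℝ) (m0 m1 : ℝ), 0 < m0 →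
  (∀ t ∈ Q, m0 ≤ Φ t ∧ Φ t ≤ m1) → (∀ t ∈ Q, 1 ≤ g t) → (∀ B : ℝ, {t | t ∈ Q ∧ g t ≤ B}.Finite) →
  (∀ ε : ℝ, 0 < ε → ∃ (I : Type) (_ : Fintype I) (cell : α → I),
    (∀ t ∈ Q, ∀ t' ∈ Q, cell t = cell t' → Φ t' ≤ (1 + ε) * Φ t) ∧
    ∀ i : I, ∃ κ : ℝ, Tendsto (fun B : ℝ => ({t | t ∈ Q ∧ cell t = i ∧ g t ≤ B}.ncard : ℝ) /
      (B * Real.log B ^ m)) atTop (𝓝 κ)) →
  ∃ c : ℝ, Tendsto (fun B : ℝ => ({t | t ∈ Q ∧ g t * Φ t ≤ B}.ncard : ℝ) /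
    (B * Real.log B ^ m)) atTop (𝓝 c)

/-! ### Local factors -/

/-- Closed sets of points with coordinates in `K` which are cones in every block. -/
def Cone {K : Type} [NormedField K] {m : ℕ} {n : Fin m → ℕ} (X : Set (∀ v, Fin (n v) → K)) :
    Prop :=
  IsClosed X ∧ ∀ x ∈ X, ∀ s : Fin m → K, (∀ v, s v ≠ 0) → (fun v => s v • x v) ∈ X

/-- Positive continuous functions on the set of the points of a product of projective spaces over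
`K` (`K` the real or the `p`-adic numbers) which are given by the cone `X`. -/
def LFs {K : Type} [NormedField K] {m : ℕ} {n : Fin m → ℕ} (X : Set (∀ v, Fin (n v) → K))
    (φ : (∀ v, Fin (n v) → K) → ℝ) : Prop :=
  ContinuousOn φ {x | x ∈ X ∧ ∀ v, x v ≠ 0} ∧ (∀ x ∈ X, (∀ v, x v ≠ 0) → 0 < φ x) ∧
  ∀ x ∈ X, (∀ v, x v ≠ 0) → ∀ s : Fin m → K, (∀ v, s v ≠ 0) → φ (fun v => s v • x v) = φ x

/-- The integer point as a point over `K`. -/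
def ic (K : Type) [NormedField K] {m : ℕ} {n : Fin m → ℕ} (x : Pt n) : ∀ v, Fin (n v) → K :=
  fun v i => (x v i : K)

/-- The product of the local factors at an integer point. -/
noncomputable def Phs {m : ℕ} {n : Fin m → ℕ} (ψ : (∀ v, Fin (n v) → ℝ) → ℝ)
    (S : Finset Nat.Primes) (φ : ∀ p : Nat.Primes, (∀ v, Fin (n v) → ℚ_[p]) → ℝ) (x : Pt n) : ℝ :=
  ψ (ic ℝ x) * ∏ p ∈ S, φ p (ic ℚ_[p] x)

/-- Module Z3: the local factors are bounded, and almost constant on small cells. -/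
def StmtZ3 : Prop := ∀ (m : ℕ) (n : Fin m → ℕ) (X0 : Set (∀ v, Fin (n v) → ℝ))
  (X : ∀ p : Nat.Primes, Set (∀ v, Fin (n v) → ℚ_[p])) (ψ : (∀ v, Fin (n v) → ℝ) → ℝ)
  (S : Finset Nat.Primes) (φ : ∀ p : Nat.Primes, (∀ v, Fin (n v) → ℚ_[p]) → ℝ),
  Cone X0 → (∀ p, Cone (X p)) → LFs X0 ψ → (∀ p ∈ S, LFs (X p) (φ p)) →
  (∃ m0 m1 : ℝ, 0 < m0 ∧ ∀ x : Pt n, (∀ v, x v ≠ 0) → ic ℝ x ∈ X0 →
    (∀ p ∈ S, ic ℚ_[p] x ∈ X p) → m0 ≤ Phs ψ S φ x ∧ Phs ψ S φ x ≤ m1) ∧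
  ∀ ε : ℝ, 0 < ε → ∃ (N : ℕ) (f : ∀ v, Fin N → Fin (n v) → ℤ) (q : ℕ), 1 ≤ q ∧
    ∀ x x' : Pt n, (∀ v, univ.gcd (x v) = 1) → (∀ v, univ.gcd (x' v) = 1) →
      ic ℝ x ∈ X0 → (∀ p ∈ S, ic ℚ_[p] x ∈ X p) →
      ic ℝ x' ∈ X0 → (∀ p ∈ S, ic ℚ_[p] x' ∈ X p) →
      (∀ v j, (q : ℤ) ∣ x' v j - x v j) →
      (∀ v i, (0 ≤ f v i ⬝ᵥ x' v ↔ 0 ≤ f v i ⬝ᵥ x v)) →
      Phs ψ S φ x' ≤ (1 + ε) * Phs ψ S φ x

/-! ### Systems of multilinear equations -/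

/-- The point `x` satisfies all equations: a point of the variety `X`. -/
def Zr {R : Type*} [CommRing R] {m K : ℕ} {n : Fin m → ℕ}
    (F : Fin K → MvPolynomial (Σ i, Fin (n i)) ℤ) (x : ∀ i, Fin (n i) → R) : Prop :=
  ∀ e, evz (F e) (fl x) = 0

/-- The coefficients of the equation `e` as a linear form in the coordinates of the block `v`. -/
noncomputable def cf {R : Type*} [CommRing R] {m K : ℕ} {n : Fin m → ℕ}
    (F : Fin K → MvPolynomial (Σ i, Fin (n i)) ℤ) (e : Fin K) (v : Fin m)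
    (x : ∀ i, Fin (n i) → R) : Fin (n v) → R :=
  fun s => evz (F e) (fl (Function.update x v (Pi.single s 1)))

/-- The equations which contain the block `v` and only blocks of `T`. -/
abbrev Eq {m K : ℕ} (d : Fin K → Fin m → ℕ) (T : Finset (Fin m)) (v : Fin m) : Type :=
  {e : Fin K // (∀ i, i ∉ T → d e i = 0) ∧ d e v = 1}

/-- The equations of `T` which contain the blocks `v` and `u`. -/
def ka {m K : ℕ} (d : Fin K → Fin m → ℕ) (T : Finset (Fin m)) (v u : Fin m) : ℕ :=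
  (univ.filter fun e : Fin K => (∀ i, i ∉ T → d e i = 0) ∧ d e v = 1 ∧ d e u = 1).card

/-- The conditions for the blocks of `T`: the vectors are not zero, the equations which contain
only these blocks hold, and for every block their linear forms are linearly independent. -/
def PT {m K : ℕ} {n : Fin m → ℕ} (F : Fin K → MvPolynomial (Σ i, Fin (n i)) ℤ)
    (d : Fin K → Fin m → ℕ) (T : Finset (Fin m)) (x : Pt n) : Prop :=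
  (∀ u ∈ T, x u ≠ 0) ∧ (∀ e, (∀ i, i ∉ T → d e i = 0) → evz (F e) (fl x) = 0) ∧
    ∀ u ∈ T, LinearIndependent ℤ (fun e : Eq d T u => cf F e.1 u x)

open Classical in
/-- The number of the bad vectors of a block. -/
def BadB {m K : ℕ} {n : Fin m → ℕ} (F : Fin K → MvPolynomial (Σ i, Fin (n i)) ℤ)
    (d : Fin K → Fin m → ℕ) : Prop :=
  ∀ T : Finset (Fin m), ∀ v ∈ T, ∃ C : ℝ, 0 ≤ C ∧ ∀ x : Pt n, PT F d (T.erase v) x →
    LinearIndependent ℤ (fun e : Eq d T v => cf F e.1 v x) → ∀ ρ : ℕ, 1 ≤ ρ →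
    ((((bx (n v) ρ).filter fun z => z ∈ lat (fun e : Eq d T v => cf F e.1 v x) ∧
      ¬ PT F d T (Function.update x v z)).card : ℕ) : ℝ) ≤
      C * (ρ : ℝ) ^ (n v - Fintype.card (Eq d T v) - ∑ u ∈ T.erase v, ka d T v u - 1)

/-- Module S3: systems of multilinear equations are fibred in lattices. -/
def StmtS3 : Prop := ∀ (m K : ℕ) (n : Fin m → ℕ) (F : Fin K → MvPolynomial (Σ i, Fin (n i)) ℤ)
  (d : Fin K → Fin m → ℕ), (∀ e v, d e v ≤ 1) → (∀ e, MultiDeg (F e) (d e)) →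
  (∀ v, ∑ e, d e v * ∑ u, d e u + 1 ≤ n v) → BadB F d →
  MS n (PT F d) (Eq d) (fun T v x e => cf F e.1 v x) (ka d)

/-- Module S4: anisotropic systems. -/
def StmtS4 : Prop := ∀ (m K : ℕ) (n : Fin m → ℕ) (F : Fin K → MvPolynomial (Σ i, Fin (n i)) ℤ)
  (d : Fin K → Fin m → ℕ), (∀ e v, d e v ≤ 1) → (∀ e, MultiDeg (F e) (d e)) →
  (∀ v, 1 ≤ n v) →
  (∀ v, ∀ x : Pt n, (∀ u, x u ≠ 0) →
    LinearIndependent ℤ (fun e : {e : Fin K // d e v = 1} => cf F e.1 v x)) → BadB F d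

/-- The matrix of the equation `e` as a bilinear form in the blocks `u` and `v`. -/
noncomputable def mf {m K : ℕ} {n : Fin m → ℕ} (F : Fin K → MvPolynomial (Σ i, Fin (n i)) ℤ)
    (e : Fin K) (u v : Fin m) (x : Pt n) : Matrix (Fin (n u)) (Fin (n v)) ℤ :=
  Matrix.of fun s t =>
    evz (F e) (fl (Function.update (Function.update x u (Pi.single s 1)) v (Pi.single t 1)))

/-- Module S5: systems in which any two equations have at most one common block, with large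
ranks. -/
def StmtS5 : Prop := ∀ (m K : ℕ) (n : Fin m → ℕ) (F : Fin K → MvPolynomial (Σ i, Fin (n i)) ℤ)
  (d : Fin K → Fin m → ℕ), (∀ e v, d e v ≤ 1) → (∀ e, MultiDeg (F e) (d e)) →
  (∀ e e', e ≠ e' → ∀ u v, u ≠ v → d e u = 1 → d e v = 1 → d e' u = 1 → d e' v = 1 → False) →
  (∀ v, ∑ e, d e v * ∑ u, d e u + 1 ≤ n v) →
  (∀ e u v, u ≠ v → d e u = 1 → d e v = 1 → ∀ x : Pt n, (∀ i, x i ≠ 0) →
    ∑ e', d e' u + ∑ e', d e' v * ∑ i, d e' i ≤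
      ((mf F e u v x).map (Int.cast : ℤ → ℚ)).rank) → BadB F d

/-- Module S6: a lower bound. -/
def StmtS6 : Prop := ∀ (m K : ℕ) (n : Fin (m + 1) → ℕ)
  (F : Fin K → MvPolynomial (Σ i, Fin (n i)) ℤ)
  (d : Fin K → Fin (m + 1) → ℕ), (∀ e v, d e v ≤ 1) → (∀ e, MultiDeg (F e) (d e)) →
  (∀ e, ∃ v, d e v = 1) → (∀ v, ∑ e, d e v + 2 ≤ n v) →
  (∃ z : ∀ i, Fin (n i) → ℂ, (∀ v, z v ≠ 0) ∧ Zr F z ∧
    ∀ v, LinearIndependent ℂ (fun e : {e : Fin K // d e v = 1} => cf F e.1 v z)) →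
  ∃ c B₀ : ℝ, 0 < c ∧ ∀ B : ℝ, B₀ ≤ B → c * B * Real.log B ^ m ≤
    ({x : Pt n | (∀ v, Rep (x v)) ∧ Zr F x ∧
      (∀ v, LinearIndependent ℤ (fun e : {e : Fin K // d e v = 1} => cf F e.1 v x)) ∧
      ∏ v, (ht (x v) : ℝ) ^ (n v - ∑ e, d e v) ≤ B}.ncard : ℝ)

/-- Module S7: integer points of systems of multilinear equations. -/
def StmtS7 : Prop := ∀ (m K : ℕ) (n : Fin m → ℕ) (F : Fin K → MvPolynomial (Σ i, Fin (n i)) ℤ)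
  (d : Fin K → Fin m → ℕ), (∀ e v, d e v ≤ 1) → (∀ e, MultiDeg (F e) (d e)) →
  (∀ e, ∃ v, d e v = 1) → (∀ v, ∑ e, d e v + 1 ≤ n v) → ∃ x : Pt n, (∀ v, x v ≠ 0) ∧ Zr F x

/-- Module S8: the variety over the real and the `p`-adic numbers. -/
def StmtS8 : Prop := ∀ (m K : ℕ) (n : Fin m → ℕ) (F : Fin K → MvPolynomial (Σ i, Fin (n i)) ℤ)
  (d : Fin K → Fin m → ℕ), (∀ e, MultiDeg (F e) (d e)) →
  Cone {x : ∀ v, Fin (n v) → ℝ | Zr F x} ∧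
  ∀ p : Nat.Primes, Cone {x : ∀ v, Fin (n v) → ℚ_[p] | Zr F x}

end Pool.Agent.T6.H81.BG
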