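import Mathlib
import Pool.Agent.T6.H81.BG.Defs
import Pool.Agent.R546.GW.Box

/-!
The number of the points in a box, for fibred systems (module B3).
-/

set_option autoImplicit false

namespace Pool.Agent.T6.H81.BG.B3

open Finset Module
open Pool.Agent.H548.WM (ht bx mem_bx card_bx)
open Pool.Agent.H548.BL (lat mem_lat lat_doubling exists_scale)
open Pool.Agent.R546.GW (real_step ht_zero eq_zero_of_ht)

section basic

variable {m : ℕ} {n : Fin m → ℕ} {P : Finset (Fin m) → Pt n → Prop}
  {ι : Finset (Fin m) → Fin m → Type}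
  {w : ∀ T v, Pt n → ι T v → Fin (n v) → ℤ} {κ : Finset (Fin m) → Fin m → Fin m → ℕ}

theorem mem_Bx {X : Fin m → ℕ} {Q : Pt n → Prop} {x : Pt n} :
    x ∈ Bx n X Q ↔ (∀ v, ht (x v) ≤ X v) ∧ Q x := by
  classical
  unfold Bx
  rw [mem_filter, Fintype.mem_piFinset]
  simp only [mem_bx]

open Classical in
/-- The points without the block `v`. -/
noncomputable def oth (P : Finset (Fin m) → Pt n → Prop)
    (w : ∀ T v, Pt n → ι T v → Fin (n v) → ℤ) (T : Finset (Fin m)) (X : Fin m → ℕ)
    (v : Fin m) : Finset (Pt n) :=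
  (Bx n (Function.update X v 0) (P (T.erase v))).filter fun y => LinearIndependent ℤ (w T v y)

theorem mem_oth {T : Finset (Fin m)} {X : Fin m → ℕ} {v : Fin m} {y : Pt n} :
    y ∈ oth P w T X v ↔ ((∀ u, ht (y u) ≤ Function.update X v 0 u) ∧ P (T.erase v) y) ∧
      LinearIndependent ℤ (w T v y) := by
  classical
  unfold oth
  rw [mem_filter, mem_Bx]

variable [∀ T v, Fintype (ι T v)]

open Classical in
/-- Counting over the other blocks. -/
theorem pts_le (hS : MS n P ι w κ) {T : Finset (Fin m)} {v : Fin m} (hv : v ∈ T)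
    (X : Fin m → ℕ) :
    (Bx n X (P T)).card ≤ ∑ y ∈ oth P w T X v,
      ((bx (n v) (X v)).filter (· ∈ lat (w T v y))).card := by
  rw [← Finset.card_sigma]
  apply Finset.card_le_card_of_injOn (fun x => ⟨Function.update x v 0, x v⟩)
  · intro x hx
    have hx' := mem_Bx.1 (Finset.mem_coe.1 hx)
    obtain ⟨h1, h2⟩ := hx'
    obtain ⟨f1, f2, f3⟩ := hS.fib T v hv x h2
    rw [Finset.mem_coe, Finset.mem_sigma]
    refine ⟨?_, ?_⟩
    · rw [mem_oth]
      refine ⟨⟨?_, ?_⟩, ?_⟩
      · intro u
        show ht (Function.update x v 0 u) ≤ Function.update X v 0 u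
        by_cases hu : u = v
        · subst hu
          rw [Function.update_self, Function.update_self, ht_zero]
        · rw [Function.update_of_ne hu, Function.update_of_ne hu]
          exact h1 u
      · exact (hS.upd_P T v hv x 0).2 f1
      · show LinearIndependent ℤ (w T v (Function.update x v 0))
        rw [hS.upd_w T v hv x 0]
        exact f2
    · show x v ∈ (bx (n v) (X v)).filter (· ∈ lat (w T v (Function.update x v 0)))
      rw [hS.upd_w T v hv x 0, mem_filter, mem_bx]
      exact ⟨h1 v, f3⟩
  · intro x _ x' _ h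
    simp only [Sigma.mk.injEq, heq_eq_eq] at h
    obtain ⟨h1, h2⟩ := h
    funext u
    by_cases hu : u = v
    · subst hu
      exact h2
    · have := congrFun h1 u
      rwa [Function.update_of_ne hu, Function.update_of_ne hu] at this

open Classical in
/-- Good and bad vectors of smaller size. -/
theorem sum_le (T : Finset (Fin m)) (v : Fin m)
    (X : Fin m → ℕ) {ρ : ℕ} {K : ℝ}
    (hK : ∀ y : Pt n, P (T.erase v) y → LinearIndependent ℤ (w T v y) →
      ((((bx (n v) ρ).filter fun z => z ∈ lat (w T v y) ∧
        ¬ P T (Function.update y v z)).card : ℕ) : ℝ) ≤ K) (hK0 : 0 ≤ K) :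
    ((∑ y ∈ oth P w T X v, ((bx (n v) ρ).filter (· ∈ lat (w T v y))).card : ℕ) : ℝ) ≤
      ((Bx n (Function.update X v ρ) (P T)).card : ℝ) +
      ((Bx n (Function.update X v 0) (P (T.erase v))).card : ℝ) * K := by
  set good : Pt n → Finset (Fin (n v) → ℤ) := fun y =>
    (bx (n v) ρ).filter fun z => P T (Function.update y v z)
    with hgood
  set bad : Pt n → Finset (Fin (n v) → ℤ) := fun y =>
    (bx (n v) ρ).filter fun z => z ∈ lat (w T v y) ∧ ¬ P T (Function.update y v z) with hbad
  have h1 : ∀ y ∈ oth P w T X v, ((bx (n v) ρ).filter (· ∈ lat (w T v y))).card ≤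
      (good y).card + (bad y).card := by
    intro y _
    have h2 : (bx (n v) ρ).filter (· ∈ lat (w T v y)) ⊆ good y ∪ bad y := by
      intro z hz
      rw [mem_filter] at hz
      rw [mem_union]
      by_cases hz2 : P T (Function.update y v z)
      · left
        rw [hgood, mem_filter]
        exact ⟨hz.1, hz2⟩
      · right
        rw [hbad, mem_filter]
        exact ⟨hz.1, hz.2, hz2⟩
    exact (Finset.card_le_card h2).trans (Finset.card_union_le _ _)
  -- the good ones
  have h3 : ∑ y ∈ oth P w T X v, (good y).card ≤ (Bx n (Function.update X v ρ) (P T)).card := by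
    rw [← Finset.card_sigma]
    apply Finset.card_le_card_of_injOn (fun p => Function.update p.1 v p.2)
    · rintro ⟨y, z⟩ hp
      rw [Finset.mem_coe, Finset.mem_sigma] at hp
      have h4 := hp.1
      have h5 := hp.2
      rw [mem_oth] at h4
      rw [hgood] at h5
      simp only [mem_filter] at h5
      rw [Finset.mem_coe, mem_Bx]
      refine ⟨?_, h5.2⟩
      intro u
      show ht (Function.update y v z u) ≤ Function.update X v ρ u
      by_cases hu : u = v
      · subst hu
        rw [Function.update_self, Function.update_self]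
        exact mem_bx.1 h5.1
      · have h6 := h4.1.1 u
        simp only at h6
        rw [Function.update_of_ne hu] at h6
        rw [Function.update_of_ne hu, Function.update_of_ne hu]
        exact h6
    · rintro ⟨y, z⟩ hp ⟨y', z'⟩ hp' h
      rw [Finset.mem_coe, Finset.mem_sigma] at hp hp'
      simp only at h hp hp'
      have e1 : z = z' := by
        have := congrFun h v
        rwa [Function.update_self, Function.update_self] at this
      have e2 : y = y' := by
        funext u
        by_cases hu : u = v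
        · subst hu
          have b1 := (mem_oth.1 hp.1).1.1 u
          have b2 := (mem_oth.1 hp'.1).1.1 u
          rw [Function.update_self] at b1 b2
          rw [eq_zero_of_ht b1, eq_zero_of_ht b2]
        · have := congrFun h u
          rwa [Function.update_of_ne hu, Function.update_of_ne hu] at this
      subst e1 e2
      rfl
  -- the bad ones
  have h4 : ∀ y ∈ oth P w T X v, ((bad y).card : ℝ) ≤ K := by
    intro y hy
    rw [mem_oth] at hy
    exact hK y hy.1.2 hy.2
  have h7 : (oth P w T X v).card ≤ (Bx n (Function.update X v 0) (P (T.erase v))).card :=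
    Finset.card_filter_le _ _
  have h5 : ((∑ y ∈ oth P w T X v, (bad y).card : ℕ) : ℝ) ≤
      ((Bx n (Function.update X v 0) (P (T.erase v))).card : ℝ) * K := by
    rw [Nat.cast_sum]
    refine (Finset.sum_le_sum h4).trans ?_
    rw [Finset.sum_const, nsmul_eq_mul]
    have h8 : ((oth P w T X v).card : ℝ) ≤
        ((Bx n (Function.update X v 0) (P (T.erase v))).card : ℝ) := by exact_mod_cast h7
    gcongr
  have h6 : ((∑ y ∈ oth P w T X v, ((bx (n v) ρ).filter (· ∈ lat (w T v y))).card : ℕ) : ℝ) ≤
      ((∑ y ∈ oth P w T X v, ((good y).card + (bad y).card) : ℕ) : ℝ) := by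
    exact_mod_cast Finset.sum_le_sum h1
  rw [Finset.sum_add_distrib, Nat.cast_add] at h6
  have h9 : ((∑ y ∈ oth P w T X v, (good y).card : ℕ) : ℝ) ≤
      ((Bx n (Function.update X v ρ) (P T)).card : ℝ) := by exact_mod_cast h3
  linarith

open Classical in
/-- The descent. -/
theorem step (hS : MS n P ι w κ) {T : Finset (Fin m)} {v : Fin m} (hv : v ∈ T)
    (X : Fin m → ℕ) {ρ : ℕ} {K : ℝ} (hρ : 1 ≤ ρ) (hX : ρ ≤ X v)
    (hK : ∀ y : Pt n, P (T.erase v) y → LinearIndependent ℤ (w T v y) →
      ((((bx (n v) ρ).filter fun z => z ∈ lat (w T v y) ∧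
        ¬ P T (Function.update y v z)).card : ℕ) : ℝ) ≤ K) (hK0 : 0 ≤ K) :
    ((Bx n X (P T)).card : ℝ) ≤ (3 * (X v : ℝ) / ρ) ^ (n v - Fintype.card (ι T v)) *
      (((Bx n (Function.update X v ρ) (P T)).card : ℝ) +
      ((Bx n (Function.update X v 0) (P (T.erase v))).card : ℝ) * K) := by
  have h1 := pts_le hS hv X
  have h2 := sum_le (w := w) T v X hK hK0
  have h3 : ∀ y ∈ oth P w T X v, (((bx (n v) (X v)).filter (· ∈ lat (w T v y))).card : ℝ) ≤
      (3 * (X v : ℝ) / ρ) ^ (n v - Fintype.card (ι T v)) *
        (((bx (n v) ρ).filter (· ∈ lat (w T v y))).card : ℝ) := by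
    intro y hy
    exact lat_doubling (mem_oth.1 hy).2 (X v) ρ hρ hX
  calc ((Bx n X (P T)).card : ℝ) ≤ ((∑ y ∈ oth P w T X v,
        ((bx (n v) (X v)).filter (· ∈ lat (w T v y))).card : ℕ) : ℝ) := by exact_mod_cast h1
    _ = ∑ y ∈ oth P w T X v, (((bx (n v) (X v)).filter (· ∈ lat (w T v y))).card : ℝ) := by
        rw [Nat.cast_sum]
    _ ≤ ∑ y ∈ oth P w T X v, (3 * (X v : ℝ) / ρ) ^ (n v - Fintype.card (ι T v)) *
        (((bx (n v) ρ).filter (· ∈ lat (w T v y))).card : ℝ) := Finset.sum_le_sum h3
    _ = (3 * (X v : ℝ) / ρ) ^ (n v - Fintype.card (ι T v)) *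
        ((∑ y ∈ oth P w T X v, ((bx (n v) ρ).filter (· ∈ lat (w T v y))).card : ℕ) : ℝ) := by
        rw [← Finset.mul_sum, Nat.cast_sum]
    _ ≤ _ := by gcongr

end basic

/-! ### The main term -/

section main

variable {m : ℕ} {n : Fin m → ℕ} {P : Finset (Fin m) → Pt n → Prop}
  {ι : Finset (Fin m) → Fin m → Type} [∀ T v, Fintype (ι T v)]
  {w : ∀ T v, Pt n → ι T v → Fin (n v) → ℤ} {κ : Finset (Fin m) → Fin m → Fin m → ℕ}

/-- The main term. -/
noncomputable def W (r : Fin m → ℕ) (T : Finset (Fin m)) (ε : ℝ) (X : Fin m → ℕ) : ℝ :=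
  ∏ u ∈ T, (X u : ℝ) ^ ((r u : ℝ) + ε)

theorem W_nonneg (r : Fin m → ℕ) (T : Finset (Fin m)) (ε : ℝ) (X : Fin m → ℕ) :
    0 ≤ W r T ε X := by
  unfold W
  apply Finset.prod_nonneg
  intro u _
  positivity

theorem W_eq (r : Fin m → ℕ) {T : Finset (Fin m)} (ε : ℝ) (X : Fin m → ℕ)
    (hX : ∀ v ∈ T, 1 ≤ X v) :
    W r T ε X = (∏ v ∈ T, (X v : ℝ) ^ (r v)) * (∏ v ∈ T, (X v : ℝ)) ^ ε := by
  unfold W
  rw [← Real.finset_prod_rpow _ _ (fun v _ => by positivity), ← Finset.prod_mul_distrib]
  apply Finset.prod_congr rfl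
  intro v hv
  have h1 : (0 : ℝ) < X v := by
    have := hX v hv
    exact_mod_cast this
  rw [Real.rpow_add h1, Real.rpow_natCast]

theorem one_le_W (r : Fin m → ℕ) {T : Finset (Fin m)} {ε : ℝ} (hε : 0 < ε) (X : Fin m → ℕ)
    (hX : ∀ v ∈ T, 1 ≤ X v) : 1 ≤ W r T ε X := by
  unfold W
  have h1 : ∏ u ∈ T, (1 : ℝ) ≤ ∏ u ∈ T, (X u : ℝ) ^ ((r u : ℝ) + ε) := by
    apply Finset.prod_le_prod
    · intro u _
      norm_num
    · intro u hu
      apply Real.one_le_rpow
      · exact_mod_cast hX u hu
      · positivity
  simpa using h1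

theorem W_split (r : Fin m → ℕ) {T : Finset (Fin m)} (ε : ℝ) (X : Fin m → ℕ) {v : Fin m}
    (hv : v ∈ T) :
    W r T ε X = (X v : ℝ) ^ ((r v : ℝ) + ε) * W r (T.erase v) ε X := by
  unfold W
  exact (Finset.mul_prod_erase T (fun u => (X u : ℝ) ^ ((r u : ℝ) + ε)) hv).symm

theorem W_update (r : Fin m → ℕ) {T : Finset (Fin m)} (ε : ℝ) (X : Fin m → ℕ) (v : Fin m)
    (ρ : ℕ) : W r (T.erase v) ε (Function.update X v ρ) = W r (T.erase v) ε X := by
  unfold W
  apply Finset.prod_congr rfl
  intro u hu
  rw [Function.update_of_ne (Finset.ne_of_mem_erase hu)]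

theorem W_del_le (r r' k : Fin m → ℕ) {T : Finset (Fin m)} (ε : ℝ) (X : Fin m → ℕ)
    {A : ℝ} (hX : ∀ v ∈ T, 1 ≤ X v) (hA : ∀ u ∈ T, (X u : ℝ) ≤ A)
    (hr : ∀ u ∈ T, r' u = r u + k u) :
    W r' T ε X ≤ A ^ (∑ u ∈ T, k u) * W r T ε X := by
  unfold W
  rw [← Finset.prod_pow_eq_pow_sum, ← Finset.prod_mul_distrib]
  apply Finset.prod_le_prod
  · intro u _
    positivity
  intro u hu
  have h1 : (0 : ℝ) < X u := by
    have := hX u hu
    exact_mod_cast this
  have h2 : (r' u : ℝ) + ε = (k u : ℝ) + ((r u : ℝ) + ε) := by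
    rw [hr u hu]
    push_cast
    ring
  rw [h2, Real.rpow_add h1, Real.rpow_natCast]
  have := hA u hu
  gcongr

/-- Small boxes. -/
theorem small (Q : Pt n → Prop) (A : ℕ) (X : Fin m → ℕ) (hX : ∀ v, X v ≤ A) :
    ((Bx n X Q).card : ℝ) ≤ ∏ u, ((2 * (A : ℝ) + 1)) ^ (n u) := by
  classical
  have h1 : (Bx n X Q).card ≤ ∏ u, (bx (n u) (X u)).card := by
    unfold Bx
    refine (Finset.card_filter_le _ _).trans (le_of_eq ?_)
    rw [Fintype.card_piFinset]
  have h2 : ((Bx n X Q).card : ℝ) ≤ ∏ u, ((bx (n u) (X u)).card : ℝ) := by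
    exact_mod_cast h1
  refine h2.trans ?_
  apply Finset.prod_le_prod
  · intro u _
    positivity
  intro u _
  rw [card_bx]
  push_cast
  have h3 : (X u : ℝ) ≤ A := by exact_mod_cast hX u
  gcongr

/-- The bound for boxes. -/
theorem box (hS : MS n P ι w κ) : ∀ (k : ℕ) (T : Finset (Fin m)), T.card ≤ k → ∀ ε : ℝ, 0 < ε →
    ∃ C : ℝ, 0 ≤ C ∧ ∀ X : Fin m → ℕ, (∀ v ∈ T, 1 ≤ X v) → (∀ v ∉ T, X v = 0) →
      ((Bx n X (P T)).card : ℝ) ≤ C * W (fun v => n v - Fintype.card (ι T v)) T ε X := by
  classical
  intro k
  induction k with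
  | zero =>
    intro T hT ε hε
    have hT0 : T = ∅ := by
      rw [← Finset.card_eq_zero]
      omega
    refine ⟨∏ u, ((2 * ((0 : ℕ) : ℝ) + 1)) ^ (n u), ?_, ?_⟩
    · apply Finset.prod_nonneg
      intro u _
      positivity
    intro X hX1 hX0
    have h1 := small (P T) 0 X (by
      intro v
      rw [hX0 v (by rw [hT0]; simp)])
    have h2 := one_le_W (fun v => n v - Fintype.card (ι T v)) hε X hX1
    have h3 : 0 ≤ ∏ u, ((2 * ((0 : ℕ) : ℝ) + 1)) ^ (n u) := by
      apply Finset.prod_nonneg
      intro u _
      positivity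
    nlinarith
  | succ k ih =>
    intro T hT ε hε
    set r : Fin m → ℕ := fun v => n v - Fintype.card (ι T v) with hr
    -- the constants for the smaller sets
    have hdel : ∀ v : Fin m, ∃ K : ℝ, 0 ≤ K ∧ (v ∈ T → ∀ X : Fin m → ℕ,
        (∀ u ∈ T.erase v, 1 ≤ X u) → (∀ u ∉ T.erase v, X u = 0) →
        ((Bx n X (P (T.erase v))).card : ℝ) ≤
          K * W (fun u => n u - Fintype.card (ι (T.erase v) u)) (T.erase v) ε X) := by
      intro v
      by_cases hv : v ∈ T
      · obtain ⟨K, hK, hK2⟩ := ih (T.erase v) (by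
          rw [Finset.card_erase_of_mem hv]
          omega) ε hε
        exact ⟨K, hK, fun _ => hK2⟩
      · exact ⟨0, le_rfl, fun h => absurd h hv⟩
    choose Kd hKd0 hKd using hdel
    have hbad : ∀ v : Fin m, ∃ K : ℝ, 0 ≤ K ∧ (v ∈ T → ∀ x : Pt n, P (T.erase v) x →
        LinearIndependent ℤ (w T v x) → ∀ ρ : ℕ, 1 ≤ ρ →
        ((((bx (n v) ρ).filter fun z => z ∈ lat (w T v x) ∧
          ¬ P T (Function.update x v z)).card : ℕ) : ℝ) ≤
          K * (ρ : ℝ) ^ (n v - Fintype.card (ι T v) - ∑ u ∈ T.erase v, κ T v u - 1)) := by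
      intro v
      by_cases hv : v ∈ T
      · obtain ⟨K, hK, hK2⟩ := hS.bad T v hv
        exact ⟨K, hK, fun _ => hK2⟩
      · exact ⟨0, le_rfl, fun h => absurd h hv⟩
    choose Kb hKb0 hKb using hbad
    set K' : ℝ := ∑ v, Kd v with hK'
    have hK'0 : 0 ≤ K' := Finset.sum_nonneg fun v _ => hKd0 v
    have hKdK' : ∀ v, Kd v ≤ K' := fun v =>
      Finset.single_le_sum (fun w _ => hKd0 w) (mem_univ v)
    set mm : ℝ := ∑ v, Kb v with hmm
    have hmm0 : 0 ≤ mm := Finset.sum_nonneg fun v _ => hKb0 v
    have hKbmm : ∀ v, Kb v ≤ mm := fun v =>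
      Finset.single_le_sum (fun w _ => hKb0 w) (mem_univ v)
    set a : ℕ := 1 + ∑ w, n w with ha
    have hna : ∀ w, n w ≤ a := by
      intro w
      have h1 : n w ≤ ∑ w, n w := Finset.single_le_sum (fun _ _ => Nat.zero_le _) (mem_univ w)
      omega
    obtain ⟨A0, hA0⟩ := exists_scale a (by omega) ε hε
    set K1 : ℝ := ∏ u, ((2 * (A0 : ℝ) + 1)) ^ (n u) with hK1
    have hK10 : 0 ≤ K1 := by
      apply Finset.prod_nonneg
      intro w _
      positivity
    set K2 : ℝ := 2 * (K' * mm * 3 ^ (3 * a)) with hK2
    have hK20 : 0 ≤ K2 := by positivity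
    set K : ℝ := K1 + K2 with hK
    have hK0 : 0 ≤ K := by positivity
    refine ⟨K, hK0, ?_⟩
    have key : ∀ (s : ℕ) (X : Fin m → ℕ), ∑ v, X v ≤ s → (∀ v ∈ T, 1 ≤ X v) →
        (∀ v ∉ T, X v = 0) → ((Bx n X (P T)).card : ℝ) ≤ K * W r T ε X := by
      intro s
      induction s with
      | zero =>
        intro X hB hX1 hX0
        have h1 := small (P T) A0 X (by
          intro v
          have h1 : X v ≤ ∑ v, X v := Finset.single_le_sum (fun _ _ => Nat.zero_le _) (mem_univ v)
          omega)
        have h2 := one_le_W r hε X hX1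
        have h3 : K1 ≤ K := by
          rw [hK]
          linarith
        nlinarith
      | succ s ihs =>
        intro X hB hX1 hX0
        by_cases hsm : ∀ v ∈ T, X v ≤ A0
        · have h1 := small (P T) A0 X (by
            intro v
            by_cases hv : v ∈ T
            · exact hsm v hv
            · rw [hX0 v hv]
              exact Nat.zero_le _)
          have h2 := one_le_W r hε X hX1
          have h3 : K1 ≤ K := by
            rw [hK]
            linarith
          nlinarith
        · push Not at hsm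
          obtain ⟨v0, hv0, hv0B⟩ := hsm
          obtain ⟨v, hv, hmax⟩ := Finset.exists_max_image T X ⟨v0, hv0⟩
          have hvB : A0 ≤ X v := (hv0B.le).trans (hmax v0 hv0)
          obtain ⟨ρ, q, hA1, hρ1, hρA, hq1, hAq, hρq, hqa, h34⟩ := hA0 (X v) hvB
          -- numbers
          have hle := hS.le T v hv
          set D : ℕ := ∑ u ∈ T.erase v, κ T v u with hD
          have hst := step hS hv X (K := mm * (ρ : ℝ) ^ (r v - D - 1)) hρ1 hρA.le (by
            intro y hy1 hy2
            refine (hKb v hv y hy1 hy2 ρ hρ1).trans ?_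
            have := hKbmm v
            gcongr) (by positivity)
          have hP1 : ((Bx n (Function.update X v ρ) (P T)).card : ℝ) ≤
              K * W r T ε (Function.update X v ρ) := by
            apply ihs
            · have h1 : ∑ w, Function.update X v ρ w < ∑ w, X w := by
                apply Finset.sum_lt_sum
                · intro w _
                  by_cases hw : w = v
                  · subst hw
                    rw [Function.update_self]
                    exact hρA.le
                  · rw [Function.update_of_ne hw]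
                · exact ⟨v, mem_univ v, by rw [Function.update_self]; exact hρA⟩
              omega
            · intro u hu
              by_cases huv : u = v
              · subst huv
                rw [Function.update_self]
                exact hρ1
              · rw [Function.update_of_ne huv]
                exact hX1 u hu
            · intro u hu
              by_cases huv : u = v
              · subst huv
                exact absurd hv hu
              · rw [Function.update_of_ne huv]
                exact hX0 u hu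
          rw [W_split r ε _ hv, Function.update_self, W_update] at hP1
          have hP2 := hKd v hv (Function.update X v 0) (by
            intro u hu
            rw [Function.update_of_ne (Finset.ne_of_mem_erase hu)]
            exact hX1 u (Finset.mem_of_mem_erase hu)) (by
            intro u hu
            by_cases huv : u = v
            · subst huv
              rw [Function.update_self]
            · rw [Function.update_of_ne huv]
              apply hX0
              intro hT2
              exact hu (Finset.mem_erase.2 ⟨huv, hT2⟩))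
          rw [W_update] at hP2
          have hA1' : (1 : ℝ) ≤ (X v : ℝ) := by exact_mod_cast hA1
          have hW2 := W_del_le r (fun u => n u - Fintype.card (ι (T.erase v) u))
            (fun u => κ T v u) (T := T.erase v) ε X (A := (X v : ℝ))
            (fun u hu => hX1 u (Finset.mem_of_mem_erase hu))
            (fun u hu => by exact_mod_cast hmax u (Finset.mem_of_mem_erase hu)) (by
              intro u hu
              have h1 := hS.card T v hv u hu
              have h2 := hS.le T u (Finset.mem_of_mem_erase hu)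
              simp only [hr]
              omega)
          rw [← hD] at hW2
          rw [W_split r ε X hv]
          have hR0 := W_nonneg r (T.erase v) ε X
          set R : ℝ := W r (T.erase v) ε X with hR
          have hP2' : ((Bx n (Function.update X v 0) (P (T.erase v))).card : ℝ) ≤
              K' * ((X v : ℝ) ^ D * R) := by
            refine hP2.trans ?_
            have h0 := W_nonneg (fun u => n u - Fintype.card (ι (T.erase v) u)) (T.erase v) ε X
            have h1 := hKdK' v
            gcongr
          have hrv : D + 1 ≤ r v := by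
            simp only [hr]
            omega
          have hbad2 : mm * (ρ : ℝ) ^ (r v - D - 1) ≤
              mm * ((3 * (ρ : ℝ)) ^ (r v - D) * 3 ^ 0) := by
            have hρ1' : (1 : ℝ) ≤ ρ := by exact_mod_cast hρ1
            rw [pow_zero, mul_one]
            apply mul_le_mul_of_nonneg_left _ hmm0
            calc (ρ : ℝ) ^ (r v - D - 1) ≤ (ρ : ℝ) ^ (r v - D) :=
                  pow_le_pow_right₀ hρ1' (Nat.sub_le _ _)
              _ ≤ (3 * (ρ : ℝ)) ^ (r v - D) := by
                  gcongr
                  linarith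
          have hfin := real_step (A := (X v : ℝ)) (ρ := (ρ : ℝ)) (q := q) (K := K) (K' := K')
            (R := R) (ε := ε) (mm := mm) (r := r v)
            (b := r v - D) (d := D) (nv := 0) (a := a) hA1'
            (by exact_mod_cast hρ1) (by exact_mod_cast hρA.le) hq1 hAq hρq hqa h34 hε
            ((Nat.sub_le _ _).trans (hna v)) (by omega) hK0 hK'0 hR0 hmm0 (by
              have h1 : r v + (r v - D) + 0 ≤ 3 * a := by
                have h5 := hna v
                have h6 : r v ≤ n v := Nat.sub_le _ _
                omega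
              have h2 : (3 : ℝ) ^ (r v + (r v - D) + 0) ≤ 3 ^ (3 * a) :=
                pow_le_pow_right₀ (by norm_num) h1
              calc 2 * (K' * mm * 3 ^ (r v + (r v - D) + 0))
                  ≤ 2 * (K' * mm * 3 ^ (3 * a)) := by gcongr
                _ ≤ K := by
                    rw [hK, hK2]
                    linarith)
          refine hst.trans (le_trans ?_ hfin)
          have hmm1 : 0 ≤ mm * ((ρ : ℝ)) ^ (r v - D - 1) := by positivity
          gcongr
    intro X hX1 hX0
    exact key _ X le_rfl hX1 hX0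

end main

end Pool.Agent.T6.H81.BG.B3

namespace Pool.Agent.T6.H81.BG

theorem b3 : StmtB3 := by
  intro m n P ι _ w κ hS T ε hε
  obtain ⟨C, hC, hC2⟩ := B3.box hS T.card T le_rfl ε hε
  refine ⟨C, hC, ?_⟩
  intro X hX1 hX0
  have h1 := hC2 X hX1 hX0
  rw [B3.W_eq _ ε X hX1, ← mul_assoc] at h1
  exact h1

end Pool.Agent.T6.H81.BG
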