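import Pool.Agent.T6.H81.BG.Defs

/-!
MP_1acd66_nt, part 3, module C3 (helper64): the number of the points in boxes and cells, counted
in the fibres over the other blocks.
-/

set_option autoImplicit false

namespace Pool.Agent.T6.H81.BG

open Finset Module Matrix Filter Topology
open Pool.Agent.H548.WM (ht bx mem_bx Rep)
open Pool.Agent.H548.BL (lat mem_lat)
open Pool.Agent.T6.H81.BA (Cell)

namespace C3

variable {m : ℕ} {n : Fin m → ℕ}

theorem mem_Bx {X : Fin m → ℕ} {P : Pt n → Prop} {x : Pt n} :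
    x ∈ Bx n X P ↔ (∀ u, ht (x u) ≤ X u) ∧ P x := by
  classical
  unfold Bx
  rw [mem_filter, Fintype.mem_piFinset]
  simp only [mem_bx]

theorem ht_zero {N : ℕ} : ht (0 : Fin N → ℤ) = 0 := by
  unfold ht
  simp

theorem eq_zero_of_ht {N : ℕ} {a : Fin N → ℤ} (h : ht a ≤ 0) : a = 0 := by
  funext i
  have h1 : (a i).natAbs ≤ ht a := Finset.le_sup (f := fun i => (a i).natAbs) (mem_univ i)
  have : (a i).natAbs = 0 := by omega
  simpa using this

open Classical in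
/-- counting the points in the fibres over the other blocks -/
theorem card_fib (v : Fin m) (X : Fin m → ℕ) (A : Pt n → Prop)
    (hA : ∀ x z, A (Function.update x v z) ↔ A x)
    (T : Pt n → (Fin (n v) → ℤ) → Prop) (hT : ∀ x z z', T (Function.update x v z) z' ↔ T x z') :
    (Bx n X fun x => A x ∧ T x (x v)).card =
      ∑ y ∈ Bx n (Function.update X v 0) A, ((bx (n v) (X v)).filter fun z => T y z).card := by
  rw [Finset.card_eq_sum_card_fiberwise (f := fun x => Function.update x v 0)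
    (t := Bx n (Function.update X v 0) A)]
  · refine Finset.sum_congr rfl fun y hy => ?_
    rw [mem_Bx] at hy
    have hy0 : y v = 0 := by
      have := hy.1 v
      rw [Function.update_self] at this
      exact eq_zero_of_ht this
    refine Finset.card_nbij' (fun x => x v) (fun z => Function.update y v z) ?_ ?_ ?_ ?_
    · intro x hx
      simp only [coe_filter, Set.mem_ofPred_eq, mem_Bx] at hx
      obtain ⟨⟨h1, h2, h3⟩, h4⟩ := hx
      simp only [coe_filter, Set.mem_ofPred_eq, mem_bx]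
      refine ⟨h1 v, ?_⟩
      rw [← h4, hT]
      exact h3
    · intro z hz
      simp only [coe_filter, Set.mem_ofPred_eq, mem_bx] at hz
      simp only [coe_filter, Set.mem_ofPred_eq, mem_Bx]
      refine ⟨⟨fun u => ?_, ?_, ?_⟩, ?_⟩
      · by_cases hu : u = v
        · subst hu
          rw [Function.update_self]
          exact hz.1
        · rw [Function.update_of_ne hu]
          have := hy.1 u
          rwa [Function.update_of_ne hu] at this
      · rw [hA]; exact hy.2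
      · rw [hT, Function.update_self]; exact hz.2
      · rw [Function.update_idem, ← hy0, Function.update_eq_self]
    · intro x hx
      simp only [coe_filter, Set.mem_ofPred_eq, mem_Bx] at hx
      show Function.update y v (x v) = x
      rw [← hx.2, Function.update_idem, Function.update_eq_self]
    · intro z hz
      show Function.update y v z v = z
      rw [Function.update_self]
  · intro x hx
    rw [mem_coe, mem_Bx] at hx
    show Function.update x v 0 ∈ (Bx n (Function.update X v 0) A : Set (Pt n))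
    rw [mem_coe, mem_Bx]
    refine ⟨fun u => ?_, ?_⟩
    · by_cases hu : u = v
      · subst hu
        rw [Function.update_self, Function.update_self, ht_zero]
      · rw [Function.update_of_ne hu, Function.update_of_ne hu]
        exact hx.1 u
    · rw [hA]; exact hx.2.1

theorem lat_comp {ι κ : Type} {N : ℕ} (e : κ ≃ ι) (w : ι → Fin N → ℤ) (z : Fin N → ℤ) :
    z ∈ lat (fun i => w (e i)) ↔ z ∈ lat w := by
  rw [mem_lat, mem_lat]
  constructor
  · intro h i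
    have := h (e.symm i)
    rwa [Equiv.apply_symm_apply] at this
  · intro h i
    exact h (e i)

open Classical in
/-- the leading coefficient of the number of the points in a fibre -/
theorem coef (hR3 : StmtR3) (v : Fin m) {r D : Fin m → ℕ} {P : Pt n → Prop}
    {Q : Fin m → Pt n → Prop} {ι : Fin m → Type} [∀ v, Fintype (ι v)]
    {w : ∀ v, Pt n → ι v → Fin (n v) → ℤ} (hF : FS n r D P Q ι w) (N q : ℕ) (hq : 1 ≤ q) :
    ∃ C : ℝ, 0 ≤ C ∧ ∀ (f : Fin N → Fin (n v) → ℤ) (σ : Fin N → Bool) (r0 : Fin (n v) → ℤ)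
      (y : Pt n), ∃ c : ℝ, Q v y → ∀ ρ Y : ℕ, 1 ≤ ρ → ρ ≤ Y →
      |((((bx (n v) Y).filter fun z => z ∈ lat (w v y) ∧ Cell f σ q r0 z).card : ℕ) : ℝ) -
        c * (Y : ℝ) ^ (r v)| ≤ C * (1 + Real.log Y) * ((Y : ℝ) / ρ) ^ (r v - 1) *
          ((((bx (n v) ρ).filter fun z => z ∈ lat (w v y)).card : ℕ) : ℝ) := by
  have h1 := hF.card v
  have h2 := hF.r2 v
  obtain ⟨C, hC, h⟩ := hR3 (Fintype.card (ι v)) (n v) N q (by omega) hq
  refine ⟨C, hC, fun f σ r0 y => ?_⟩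
  by_cases hy : Q v y
  · obtain ⟨c, -, hc⟩ := h (fun i => w v y ((Fintype.equivFin (ι v)).symm i))
      ((hF.li v y hy).comp _ (Fintype.equivFin (ι v)).symm.injective) f σ r0
    refine ⟨c, fun _ ρ Y hρ hY => ?_⟩
    have h3 := hc ρ Y hρ hY
    have e : n v - Fintype.card (ι v) = r v := by omega
    rw [e] at h3
    simp only [lat_comp] at h3
    exact h3
  · exact ⟨0, fun h => (hy h).elim⟩

/-- the exponents -/
theorem calc_aux {X ρ : ℝ} {a D m : ℕ} (hX : 1 ≤ X) {δ0 ε : ℝ}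
    (hδ0 : δ0 = 1 / (2 * ((D : ℝ) + 1))) (hε : ε = δ0 / (4 * ((m : ℝ) + 1)))
    (hD : D + 1 ≤ a) (h1 : X ^ (1 - δ0) ≤ ρ) (h2 : ρ ≤ 2 * X ^ (1 - δ0))
    {CR C1 C2 : ℝ} (hCR : 0 ≤ CR) (hC1 : 0 ≤ C1) (hC2 : 0 ≤ C2) :
    CR * (1 + Real.log X) * (X / ρ) ^ (a - 1) *
      (C1 * ρ ^ a * ((2 * X) ^ m) ^ ε + C2 * X ^ ((D : ℝ) + ε) * ρ ^ (a - D - 1)) +
      C2 * X ^ ((D : ℝ) + ε) * X ^ (a - D - 1) ≤
    (CR * (1 + 1 / ε) * (C1 * (2 * (2 : ℝ) ^ (m * ε)) + C2) + C2) * (X ^ a * X ^ (-(δ0 / 2))) := by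
  have X0 : 0 < X := by linarith
  have D0 : (0 : ℝ) ≤ D := by positivity
  have m0 : (0 : ℝ) ≤ m := by positivity
  have d0 : 0 < δ0 := by rw [hδ0]; positivity
  have d1 : δ0 ≤ 1 / 2 := by
    rw [hδ0]
    apply one_div_le_one_div_of_le (by norm_num)
    linarith
  have e0 : 0 < ε := by rw [hε]; positivity
  have em : ((m : ℝ) + 1) * ε = δ0 / 4 := by rw [hε]; field_simp
  have e1 : ε ≤ δ0 / 4 := by nlinarith
  have hDδ : (D : ℝ) * δ0 ≤ 1 / 2 := by
    rw [hδ0, mul_one_div, div_le_div_iff₀ (by positivity) (by norm_num)]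
    linarith
  have ρ0 : 0 < ρ := lt_of_lt_of_le (by positivity) h1
  have hlog : 1 + Real.log X ≤ (1 + 1 / ε) * X ^ ε := by
    have l1 := Real.log_le_rpow_div X0.le e0
    have l2 : 1 ≤ X ^ ε := Real.one_le_rpow hX e0.le
    have l3 : X ^ ε / ε = 1 / ε * X ^ ε := by ring
    rw [l3] at l1
    nlinarith
  have hlog0 : 0 ≤ 1 + Real.log X := by
    have := Real.log_nonneg hX
    linarith
  obtain ⟨b, rfl⟩ : ∃ b, a = b + D + 1 := ⟨a - D - 1, by omega⟩
  have x1 : b + D + 1 - 1 = b + D := by omega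
  have x2 : b + D + 1 - D - 1 = b := by omega
  rw [x1, x2]
  -- first term
  have t1 : (X / ρ) ^ (b + D) * (ρ ^ (b + D + 1) * ((2 * X) ^ m) ^ ε) ≤
      2 * (2 : ℝ) ^ (m * ε) * (X ^ (b + D + 1) * (X ^ (-δ0) * X ^ (m * ε))) := by
    have y1 : (X / ρ) ^ (b + D) * ρ ^ (b + D + 1) = X ^ (b + D) * ρ := by
      rw [div_pow, pow_succ]; field_simp
    have y2 : ((2 * X) ^ m) ^ ε = (2 : ℝ) ^ (m * ε) * X ^ (m * ε) := by
      rw [← Real.rpow_natCast, ← Real.rpow_mul (by positivity), Real.mul_rpow (by norm_num) X0.le]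
    have y3 : X ^ (1 - δ0) = X * X ^ (-δ0) := by
      rw [sub_eq_add_neg, Real.rpow_add X0, Real.rpow_one]
    calc (X / ρ) ^ (b + D) * (ρ ^ (b + D + 1) * ((2 * X) ^ m) ^ ε)
        = X ^ (b + D) * ρ * ((2 : ℝ) ^ (m * ε) * X ^ (m * ε)) := by
          rw [← mul_assoc, y1, y2]
      _ ≤ X ^ (b + D) * (2 * X ^ (1 - δ0)) * ((2 : ℝ) ^ (m * ε) * X ^ (m * ε)) := by gcongr
      _ = _ := by rw [y3, pow_succ]; ring
  -- second term
  have t2 : (X / ρ) ^ (b + D) * (X ^ ((D : ℝ) + ε) * ρ ^ b) ≤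
      X ^ (b + D + 1) * (X ^ (-(1 / 2) : ℝ) * X ^ ε) := by
    have y1 : (X / ρ) ^ (b + D) * ρ ^ b = X ^ (b + D) / ρ ^ D := by
      rw [div_pow, pow_add ρ]; field_simp
    have y2 : X ^ ((D : ℝ) * (1 - δ0)) ≤ ρ ^ D := by
      have : X ^ ((D : ℝ) * (1 - δ0)) = (X ^ (1 - δ0)) ^ D := by
        rw [← Real.rpow_natCast, ← Real.rpow_mul X0.le]; ring_nf
      rw [this]
      gcongr
    have y3 : 0 < X ^ ((D : ℝ) * (1 - δ0)) := by positivity
    calc (X / ρ) ^ (b + D) * (X ^ ((D : ℝ) + ε) * ρ ^ b)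
        = X ^ (b + D) / ρ ^ D * X ^ ((D : ℝ) + ε) := by rw [← y1]; ring
      _ ≤ X ^ (b + D) / X ^ ((D : ℝ) * (1 - δ0)) * X ^ ((D : ℝ) + ε) := by gcongr
      _ = X ^ (b + D) * X ^ ((D : ℝ) * δ0 + ε) := by
          rw [div_eq_mul_inv, ← Real.rpow_neg X0.le, mul_assoc, ← Real.rpow_add X0]
          congr 2; ring
      _ ≤ X ^ (b + D) * (X ^ (1 / 2 : ℝ) * X ^ ε) := by
          rw [← Real.rpow_add X0]
          gcongr
      _ = _ := by
          have : X ^ (1 / 2 : ℝ) = X * X ^ (-(1 / 2) : ℝ) := by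
            conv_rhs => rw [← Real.rpow_one X]
            rw [← Real.rpow_mul X0.le, ← Real.rpow_add X0]
            norm_num
          rw [this, pow_succ]; ring
  have t3 : X ^ ((D : ℝ) + ε) * X ^ b = X ^ (b + D + 1) * (X ^ (-1 : ℝ) * X ^ ε) := by
    rw [Real.rpow_add X0, Real.rpow_natCast, Real.rpow_neg_one, pow_succ, pow_add]
    field_simp
  have z1 : X ^ ε * (X ^ (-δ0) * X ^ (m * ε)) ≤ X ^ (-(δ0 / 2)) := by
    rw [← Real.rpow_add X0, ← Real.rpow_add X0]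
    refine Real.rpow_le_rpow_of_exponent_le hX ?_
    linarith
  have z2 : X ^ ε * (X ^ (-(1 / 2) : ℝ) * X ^ ε) ≤ X ^ (-(δ0 / 2)) := by
    rw [← Real.rpow_add X0, ← Real.rpow_add X0]
    refine Real.rpow_le_rpow_of_exponent_le hX ?_
    linarith
  have z3 : X ^ (-1 : ℝ) * X ^ ε ≤ X ^ (-(δ0 / 2)) := by
    rw [← Real.rpow_add X0]
    refine Real.rpow_le_rpow_of_exponent_le hX ?_
    linarith
  have s1 : CR * (1 + Real.log X) * (X / ρ) ^ (b + D) *
      (C1 * ρ ^ (b + D + 1) * ((2 * X) ^ m) ^ ε + C2 * X ^ ((D : ℝ) + ε) * ρ ^ b) =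
      CR * (1 + Real.log X) * (C1 * ((X / ρ) ^ (b + D) * (ρ ^ (b + D + 1) * ((2 * X) ^ m) ^ ε)) +
        C2 * ((X / ρ) ^ (b + D) * (X ^ ((D : ℝ) + ε) * ρ ^ b))) := by ring
  have s2 : CR * (1 + Real.log X) *
      (C1 * ((X / ρ) ^ (b + D) * (ρ ^ (b + D + 1) * ((2 * X) ^ m) ^ ε)) +
        C2 * ((X / ρ) ^ (b + D) * (X ^ ((D : ℝ) + ε) * ρ ^ b))) ≤
      CR * ((1 + 1 / ε) * X ^ ε) *
        (C1 * (2 * (2 : ℝ) ^ (m * ε) * (X ^ (b + D + 1) * (X ^ (-δ0) * X ^ (m * ε)))) +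
        C2 * (X ^ (b + D + 1) * (X ^ (-(1 / 2) : ℝ) * X ^ ε))) := by
    gcongr
  have s3 : CR * ((1 + 1 / ε) * X ^ ε) *
        (C1 * (2 * (2 : ℝ) ^ (m * ε) * (X ^ (b + D + 1) * (X ^ (-δ0) * X ^ (m * ε)))) +
        C2 * (X ^ (b + D + 1) * (X ^ (-(1 / 2) : ℝ) * X ^ ε))) =
      CR * (1 + 1 / ε) * (C1 * (2 * (2 : ℝ) ^ (m * ε)) * X ^ (b + D + 1) *
        (X ^ ε * (X ^ (-δ0) * X ^ (m * ε))) +
        C2 * X ^ (b + D + 1) * (X ^ ε * (X ^ (-(1 / 2) : ℝ) * X ^ ε))) := by ring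
  have s4 : CR * (1 + 1 / ε) * (C1 * (2 * (2 : ℝ) ^ (m * ε)) * X ^ (b + D + 1) *
        (X ^ ε * (X ^ (-δ0) * X ^ (m * ε))) +
        C2 * X ^ (b + D + 1) * (X ^ ε * (X ^ (-(1 / 2) : ℝ) * X ^ ε))) ≤
      CR * (1 + 1 / ε) * (C1 * (2 * (2 : ℝ) ^ (m * ε)) * X ^ (b + D + 1) *
        X ^ (-(δ0 / 2)) + C2 * X ^ (b + D + 1) * X ^ (-(δ0 / 2))) := by
    gcongr
  have s5 : C2 * X ^ ((D : ℝ) + ε) * X ^ b ≤ C2 * X ^ (b + D + 1) * X ^ (-(δ0 / 2)) := by
    rw [mul_assoc, t3, mul_assoc]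
    gcongr
  rw [s1]
  calc _ ≤ CR * (1 + 1 / ε) * (C1 * (2 * (2 : ℝ) ^ (m * ε)) * X ^ (b + D + 1) *
        X ^ (-(δ0 / 2)) + C2 * X ^ (b + D + 1) * X ^ (-(δ0 / 2))) +
        C2 * X ^ (b + D + 1) * X ^ (-(δ0 / 2)) :=
        add_le_add (s2.trans (s3.le.trans s4)) s5
    _ = _ := by ring

end C3

open Classical in
theorem c3 (hR3 : StmtR3) : StmtC3 := by
  intro m n r D P Q ι _ w hF v N f σ q r0 hq R hRv
  obtain ⟨CR, hCR, hcoef⟩ := C3.coef hR3 v hF N q hq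
  choose c hc using hcoef f σ r0
  obtain ⟨δ0, hδ0⟩ : ∃ δ0 : ℝ, δ0 = 1 / (2 * ((D v : ℝ) + 1)) := ⟨_, rfl⟩
  obtain ⟨ε, hε⟩ : ∃ ε : ℝ, ε = δ0 / (4 * ((m : ℝ) + 1)) := ⟨_, rfl⟩
  have d0 : 0 < δ0 := by rw [hδ0]; positivity
  have e0 : 0 < ε := by rw [hε]; positivity
  obtain ⟨C1, hC1, hbox⟩ := hF.box ε e0
  obtain ⟨C2, hC2, hbad⟩ := hF.bad v ε e0
  obtain ⟨A, hA⟩ : ∃ A : Pt n → Prop, A = fun x => Q v x ∧ ∀ u, u ≠ v → R u (x u) := ⟨_, rfl⟩
  have updA : ∀ x z, A (Function.update x v z) ↔ A x := by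
    intro x z
    rw [hA]
    show (Q v (Function.update x v z) ∧ ∀ u, u ≠ v → R u (Function.update x v z u)) ↔
      (Q v x ∧ ∀ u, u ≠ v → R u (x u))
    rw [hF.upd_Q]
    have : (∀ u, u ≠ v → R u (Function.update x v z u)) ↔ ∀ u, u ≠ v → R u (x u) := by
      refine forall_congr' fun u => imp_congr_right fun hu => ?_
      rw [Function.update_of_ne hu]
    rw [this]
  refine ⟨fun X' => ∑ y ∈ Bx n X' A, c y,
    CR * (1 + 1 / ε) * (C1 * (2 * (2 : ℝ) ^ (m * ε)) + C2) + C2, δ0 / 2, half_pos d0,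
    fun X hX hXv => ?_⟩
  have hXv1 : 1 ≤ X v := hX v
  have X1 : (1 : ℝ) ≤ X v := by exact_mod_cast hXv1
  have X0 : (0 : ℝ) < X v := by linarith
  -- the choice of `ρ`
  have hp1 : (1 : ℝ) ≤ (X v : ℝ) ^ (1 - δ0) := by
    refine Real.one_le_rpow X1 ?_
    have : δ0 ≤ 1 := by
      rw [hδ0, div_le_one (by positivity)]
      have : (0 : ℝ) ≤ D v := by positivity
      linarith
    linarith
  obtain ⟨ρ, hρ⟩ : ∃ ρ : ℕ, ρ = ⌈(X v : ℝ) ^ (1 - δ0)⌉₊ := ⟨_, rfl⟩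
  have r1 : (X v : ℝ) ^ (1 - δ0) ≤ ρ := by rw [hρ]; exact Nat.le_ceil _
  have r2 : (ρ : ℝ) ≤ 2 * (X v : ℝ) ^ (1 - δ0) := by
    have := Nat.ceil_lt_add_one (a := (X v : ℝ) ^ (1 - δ0)) (by positivity)
    rw [← hρ] at this
    linarith
  have r3 : 1 ≤ ρ := by
    have : (1 : ℝ) ≤ ρ := hp1.trans r1
    exact_mod_cast this
  have r4 : ρ ≤ X v := by
    rw [hρ]
    refine Nat.ceil_le.2 ?_
    calc (X v : ℝ) ^ (1 - δ0) ≤ (X v : ℝ) ^ (1 : ℝ) :=
          Real.rpow_le_rpow_of_exponent_le X1 (by linarith)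
      _ = X v := Real.rpow_one _
  -- the product over the other blocks
  obtain ⟨W, hW⟩ : ∃ W : ℝ, W = ∏ u ∈ univ.erase v, (X u : ℝ) ^ r u := ⟨_, rfl⟩
  have W0 : 0 ≤ W := by rw [hW]; exact Finset.prod_nonneg fun u _ => by positivity
  have hprod : ∏ u, (X u : ℝ) ^ r u = W * (X v : ℝ) ^ r v := by
    rw [hW, mul_comm, Finset.mul_prod_erase univ (fun u => (X u : ℝ) ^ r u) (mem_univ v)]
  -- the number of the points
  obtain ⟨G, hG⟩ : ∃ G : Finset (Pt n), G = Bx n X (fun x => A x ∧ (x v ∈ lat (w v x) ∧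
    Cell f σ q r0 (x v))) := ⟨_, rfl⟩
  have cardG : G.card = ∑ y ∈ Bx n (Function.update X v 0) A,
      ((bx (n v) (X v)).filter fun z => z ∈ lat (w v y) ∧ Cell f σ q r0 z).card := by
    have h := C3.card_fib v X A updA (fun x z => z ∈ lat (w v x) ∧ Cell f σ q r0 z) (by
      intro x z z'
      rw [hF.upd_w])
    rw [hG, h]
    refine Finset.sum_congr rfl fun y _ => ?_
    congr
  obtain ⟨F, hFF⟩ : ∃ F : Finset (Pt n), F = Bx n X (fun x => P x ∧ ∀ u, R u (x u)) := ⟨_, rfl⟩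
  have FG : F ⊆ G := by
    intro x hx
    rw [hFF, C3.mem_Bx] at hx
    rw [hG, C3.mem_Bx, hA]
    obtain ⟨h1, h2, h3⟩ := hx
    obtain ⟨h4, h5⟩ := hF.fib v x h2
    exact ⟨h1, ⟨h4, fun u _ => h3 u⟩, h5, (hRv _).1 (h3 v)⟩
  have GF : G ⊆ F ∪ Bx n X (fun x => Q v x ∧ x v ∈ lat (w v x) ∧ ¬ P x) := by
    intro x hx
    rw [hG, C3.mem_Bx, hA] at hx
    obtain ⟨h1, ⟨h2, h3⟩, h4, h5⟩ := hx
    rw [mem_union]
    by_cases hP : P x
    · left
      rw [hFF, C3.mem_Bx]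
      refine ⟨h1, hP, fun u => ?_⟩
      by_cases hu : u = v
      · subst hu
        exact (hRv _).2 h5
      · exact h3 u hu
    · right
      rw [C3.mem_Bx]
      exact ⟨h1, h2, h4, hP⟩
  have c1 : (F.card : ℝ) ≤ G.card := by exact_mod_cast card_le_card FG
  have c2 : (G.card : ℝ) ≤ F.card +
      ((Bx n X (fun x => Q v x ∧ x v ∈ lat (w v x) ∧ ¬ P x)).card : ℝ) := by
    exact_mod_cast (card_le_card GF).trans (card_union_le _ _)
  have c3 : ((Bx n X (fun x => Q v x ∧ x v ∈ lat (w v x) ∧ ¬ P x)).card : ℝ) ≤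
      C2 * W * (X v : ℝ) ^ ((D v : ℝ) + ε) * (X v : ℝ) ^ (r v - D v - 1) := by
    have := hbad X hX hXv (X v) hXv1 le_rfl
    rw [Function.update_eq_self, ← hW] at this
    exact this
  -- the small box
  have c4 : ∑ y ∈ Bx n (Function.update X v 0) A,
      ((((bx (n v) ρ).filter fun z => z ∈ lat (w v y)).card : ℕ) : ℝ) ≤
      W * (C1 * (ρ : ℝ) ^ r v * ((2 * (X v : ℝ)) ^ m) ^ ε +
        C2 * (X v : ℝ) ^ ((D v : ℝ) + ε) * (ρ : ℝ) ^ (r v - D v - 1)) := by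
    have h1 := C3.card_fib v (Function.update X v ρ) A updA (fun x z => z ∈ lat (w v x)) (by
      intro x z z'
      rw [hF.upd_w])
    rw [Function.update_idem, Function.update_self] at h1
    have h2 : (Bx n (Function.update X v ρ) fun x => A x ∧ x v ∈ lat (w v x)) ⊆
        (Bx n (Function.update X v ρ) P) ∪ (Bx n (Function.update X v ρ) fun x =>
          Q v x ∧ x v ∈ lat (w v x) ∧ ¬ P x) := by
      intro x hx
      rw [C3.mem_Bx, hA] at hx
      obtain ⟨k1, ⟨k2, k3⟩, k4⟩ := hx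
      rw [mem_union, C3.mem_Bx, C3.mem_Bx]
      by_cases hP : P x
      · exact Or.inl ⟨k1, hP⟩
      · exact Or.inr ⟨k1, k2, k4, hP⟩
    have h3 := (card_le_card h2).trans (card_union_le _ _)
    rw [h1] at h3
    have h4 : (∑ y ∈ Bx n (Function.update X v 0) A,
        ((((bx (n v) ρ).filter fun z => z ∈ lat (w v y)).card : ℕ) : ℝ)) ≤
        ((Bx n (Function.update X v ρ) P).card : ℝ) +
        ((Bx n (Function.update X v ρ) fun x => Q v x ∧ x v ∈ lat (w v x) ∧ ¬ P x).card : ℝ) := by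
      exact_mod_cast h3
    have hX' : ∀ u, 1 ≤ Function.update X v ρ u := by
      intro u
      by_cases hu : u = v
      · subst hu; rw [Function.update_self]; exact r3
      · rw [Function.update_of_ne hu]; exact hX u
    have h5 := hbox (Function.update X v ρ) hX'
    have h6 := hbad X hX hXv ρ r3 r4
    rw [← hW] at h6
    have h7 : ∏ u, ((Function.update X v ρ u : ℕ) : ℝ) ^ r u = W * (ρ : ℝ) ^ r v := by
      rw [hW, mul_comm, ← Finset.mul_prod_erase univ _ (mem_univ v), Function.update_self]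
      congr 1
      refine Finset.prod_congr rfl fun u hu => ?_
      rw [Function.update_of_ne (Finset.ne_of_mem_erase hu)]
    have h8 : ∏ u, ((Function.update X v ρ u : ℕ) : ℝ) ≤ (2 * (X v : ℝ)) ^ m := by
      have : ∀ u ∈ (univ : Finset (Fin m)), ((Function.update X v ρ u : ℕ) : ℝ) ≤
          2 * (X v : ℝ) := by
        intro u _
        by_cases hu : u = v
        · subst hu
          rw [Function.update_self]
          have : (ρ : ℝ) ≤ X u := by exact_mod_cast r4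
          linarith
        · rw [Function.update_of_ne hu]
          exact_mod_cast hXv u
      refine (Finset.prod_le_prod (fun u _ => by positivity) this).trans ?_
      rw [Finset.prod_const, card_univ, Fintype.card_fin]
    have h9 : (∏ u, ((Function.update X v ρ u : ℕ) : ℝ)) ^ ε ≤ ((2 * (X v : ℝ)) ^ m) ^ ε :=
      Real.rpow_le_rpow (Finset.prod_nonneg fun u _ => by positivity) h8 e0.le
    rw [h7] at h5
    calc _ ≤ _ := h4
      _ ≤ C1 * (W * (ρ : ℝ) ^ r v) * ((2 * (X v : ℝ)) ^ m) ^ ε +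
          C2 * W * (X v : ℝ) ^ ((D v : ℝ) + ε) * (ρ : ℝ) ^ (r v - D v - 1) := by
          refine add_le_add (h5.trans ?_) h6
          gcongr
      _ = _ := by ring
  -- the main term
  have c5 : |(G.card : ℝ) - (∑ y ∈ Bx n (Function.update X v 0) A, c y) * (X v : ℝ) ^ r v| ≤
      CR * (1 + Real.log (X v)) * ((X v : ℝ) / ρ) ^ (r v - 1) *
      ∑ y ∈ Bx n (Function.update X v 0) A,
      ((((bx (n v) ρ).filter fun z => z ∈ lat (w v y)).card : ℕ) : ℝ) := by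
    rw [cardG, Finset.sum_mul, Finset.mul_sum]
    push_cast
    rw [← Finset.sum_sub_distrib]
    refine (Finset.abs_sum_le_sum_abs _ _).trans ?_
    refine Finset.sum_le_sum fun y hy => ?_
    rw [C3.mem_Bx, hA] at hy
    exact hc y hy.2.1 ρ (X v) r3 r4
  have l0 : 0 ≤ 1 + Real.log (X v) := by
    have := Real.log_nonneg X1
    linarith
  have c6 := C3.calc_aux (m := m) X1 hδ0 hε (hF.hD v) r1 r2 hCR hC1 hC2
  have c7 : CR * (1 + Real.log (X v)) * ((X v : ℝ) / ρ) ^ (r v - 1) *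
      (∑ y ∈ Bx n (Function.update X v 0) A,
      ((((bx (n v) ρ).filter fun z => z ∈ lat (w v y)).card : ℕ) : ℝ)) ≤
      CR * (1 + Real.log (X v)) * ((X v : ℝ) / ρ) ^ (r v - 1) *
      (W * (C1 * (ρ : ℝ) ^ r v * ((2 * (X v : ℝ)) ^ m) ^ ε +
        C2 * (X v : ℝ) ^ ((D v : ℝ) + ε) * (ρ : ℝ) ^ (r v - D v - 1))) := by
    gcongr
  have c8 := mul_le_mul_of_nonneg_left c6 W0
  show |((Bx n X fun x => P x ∧ ∀ u, R u (x u)).card : ℝ) - _| ≤ _
  rw [← hFF, hprod]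
  have c9 : |(F.card : ℝ) - (∑ y ∈ Bx n (Function.update X v 0) A, c y) * (X v : ℝ) ^ r v| ≤
      |(G.card : ℝ) - (∑ y ∈ Bx n (Function.update X v 0) A, c y) * (X v : ℝ) ^ r v| +
      C2 * W * (X v : ℝ) ^ ((D v : ℝ) + ε) * (X v : ℝ) ^ (r v - D v - 1) := by
    have k1 : |(F.card : ℝ) - G.card| ≤
        C2 * W * (X v : ℝ) ^ ((D v : ℝ) + ε) * (X v : ℝ) ^ (r v - D v - 1) := by
      rw [abs_le]
      constructor
      · linarith
      · have : 0 ≤ ((Bx n X (fun x => Q v x ∧ x v ∈ lat (w v x) ∧ ¬ P x)).card : ℝ) := by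
          positivity
        linarith
    calc _ = |((F.card : ℝ) - G.card) + ((G.card : ℝ) -
          (∑ y ∈ Bx n (Function.update X v 0) A, c y) * (X v : ℝ) ^ r v)| := by
          congr 1; ring
      _ ≤ _ := abs_add_le _ _
      _ ≤ _ := by linarith
  refine c9.trans ?_
  calc _ ≤ CR * (1 + Real.log (X v)) * ((X v : ℝ) / ρ) ^ (r v - 1) *
      (W * (C1 * (ρ : ℝ) ^ r v * ((2 * (X v : ℝ)) ^ m) ^ ε +
        C2 * (X v : ℝ) ^ ((D v : ℝ) + ε) * (ρ : ℝ) ^ (r v - D v - 1))) +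
      C2 * W * (X v : ℝ) ^ ((D v : ℝ) + ε) * (X v : ℝ) ^ (r v - D v - 1) := by
        linarith [c5.trans c7]
    _ = W * (CR * (1 + Real.log (X v)) * ((X v : ℝ) / ρ) ^ (r v - 1) *
      (C1 * (ρ : ℝ) ^ r v * ((2 * (X v : ℝ)) ^ m) ^ ε +
        C2 * (X v : ℝ) ^ ((D v : ℝ) + ε) * (ρ : ℝ) ^ (r v - D v - 1)) +
      C2 * (X v : ℝ) ^ ((D v : ℝ) + ε) * (X v : ℝ) ^ (r v - D v - 1)) := by ring
    _ ≤ _ := c8
    _ = _ := by ring

end Pool.Agent.T6.H81.BG
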