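import Mathlib
import Pool.Agent.T6.H81.BG.Defs

/-!
# From multi-systems to fibred systems
-/

set_option autoImplicit false

namespace Pool.Agent.T6.H81.BG

open Finset Module Matrix Filter Topology
open Pool.Agent.H548.WM (ht bx mem_bx Rep)
open Pool.Agent.H548.BL (lat)

theorem mem_Bx {m : ℕ} {n : Fin m → ℕ} {X : Fin m → ℕ} {P : Pt n → Prop} {x : Pt n} :
    x ∈ Bx n X P ↔ (∀ v, ht (x v) ≤ X v) ∧ P x := by
  classical
  unfold Bx
  rw [mem_filter, Fintype.mem_piFinset]
  simp only [mem_bx]

theorem ht_zero {N : ℕ} : ht (0 : Fin N → ℤ) = 0 := by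
  have : ht (0 : Fin N → ℤ) ≤ 0 := Pool.Agent.H548.WM.ht_le (by intro i; simp)
  omega

theorem eq_zero_of_ht {N : ℕ} {a : Fin N → ℤ} (h : ht a ≤ 0) : a = 0 := by
  by_contra hc
  have := Pool.Agent.H548.WM.ht_pos hc
  omega

open Classical in
/-- Counting over the other blocks. -/
theorem card_fib {m : ℕ} {n : Fin m → ℕ} (v : Fin m) (X : Fin m → ℕ) (ρ : ℕ)
    (A : Pt n → Prop) (O : Pt n → Prop) (S : Pt n → (Fin (n v) → ℤ) → Prop) {b : ℝ}
    (hA : ∀ x, A x → O (Function.update x v 0) ∧ S (Function.update x v 0) (x v))
    (hb : ∀ y, O y → ((((bx (n v) ρ).filter fun z => S y z).card : ℕ) : ℝ) ≤ b) :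
    ((Bx n (Function.update X v ρ) A).card : ℝ) ≤ ((Bx n (Function.update X v 0) O).card : ℝ) * b := by
  have h1 : (Bx n (Function.update X v ρ) A).card ≤ ∑ y ∈ Bx n (Function.update X v 0) O,
      ((bx (n v) ρ).filter fun z => S y z).card := by
    rw [← Finset.card_sigma]
    apply Finset.card_le_card_of_injOn (fun x => ⟨Function.update x v 0, x v⟩)
    · intro x hx
      rw [Finset.mem_coe, mem_Bx] at hx
      obtain ⟨hx1, hx2⟩ := hx
      rw [Finset.mem_coe, Finset.mem_sigma, mem_Bx, mem_filter, mem_bx]
      obtain ⟨h3, h4⟩ := hA x hx2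
      refine ⟨⟨?_, h3⟩, ?_, h4⟩
      · intro w
        by_cases hw : w = v
        · subst hw
          simp only [Function.update_self, ht_zero, le_refl]
        · have := hx1 w
          simp only [Function.update_of_ne hw] at this ⊢
          exact this
      · have := hx1 v
        rwa [Function.update_self] at this
    · intro x _ x' _ h
      simp only [Sigma.mk.injEq, heq_eq_eq] at h
      obtain ⟨h1, h2⟩ := h
      funext w
      by_cases hw : w = v
      · subst hw
        exact h2
      · have := congrFun h1 w
        rwa [Function.update_of_ne hw, Function.update_of_ne hw] at this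
  calc ((Bx n (Function.update X v ρ) A).card : ℝ)
      ≤ ((∑ y ∈ Bx n (Function.update X v 0) O,
        ((bx (n v) ρ).filter fun z => S y z).card : ℕ) : ℝ) := by exact_mod_cast h1
    _ = ∑ y ∈ Bx n (Function.update X v 0) O,
        ((((bx (n v) ρ).filter fun z => S y z).card : ℕ) : ℝ) := by push_cast; rfl
    _ ≤ ∑ y ∈ Bx n (Function.update X v 0) O, b :=
        Finset.sum_le_sum fun y hy => hb y (mem_Bx.1 hy).2
    _ = _ := by rw [Finset.sum_const, nsmul_eq_mul]

theorem fs_of_ms (hB : StmtB3) {m : ℕ} {n : Fin m → ℕ} {P : Finset (Fin m) → Pt n → Prop}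
    {ι : Finset (Fin m) → Fin m → Type} [∀ T v, Fintype (ι T v)]
    {w : ∀ T v, Pt n → ι T v → Fin (n v) → ℤ} {κ : Finset (Fin m) → Fin m → Fin m → ℕ}
    (h : MS n P ι w κ) (h2 : ∀ v, Fintype.card (ι univ v) + 2 ≤ n v) :
    FS n (fun v => n v - Fintype.card (ι univ v)) (fun v => ∑ u ∈ univ.erase v, κ univ v u)
      (P univ) (fun v x => P (univ.erase v) x ∧ LinearIndependent ℤ (w univ v x)) (ι univ)
      (w univ) where
  card := fun v => by have := h2 v; omega
  r2 := fun v => by have := h2 v; omega
  hD := fun v => by have := h.le univ v (mem_univ v); omega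
  upd_Q := fun v x z => by
    rw [h.upd_P univ v (mem_univ v), h.upd_w univ v (mem_univ v)]
  upd_w := fun v x z => h.upd_w univ v (mem_univ v) x z
  li := fun v x hx => hx.2
  fib := fun v x hx => by
    obtain ⟨a1, a2, a3⟩ := h.fib univ v (mem_univ v) x hx
    exact ⟨⟨a1, a2⟩, a3⟩
  box := fun ε hε => by
    obtain ⟨C, hC, hb⟩ := hB m n P ι w κ h univ ε hε
    refine ⟨C, hC, fun X hX => ?_⟩
    exact hb X (fun v _ => hX v) (fun v hv => absurd (mem_univ v) hv)
  bad := fun v ε hε => by
    classical
    obtain ⟨C1, hC1, hb1⟩ := h.bad univ v (mem_univ v)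
    obtain ⟨C2, hC2, hb2⟩ := hB m n P ι w κ h (univ.erase v) (ε / (m + 1)) (by positivity)
    set D := ∑ u ∈ univ.erase v, κ univ v u with hD
    refine ⟨C2 * 2 ^ ((D : ℝ) + ε) * C1, by positivity, ?_⟩
    intro X hX1 hX2 ρ hρ hρX
    have h3 := card_fib v X ρ (fun x => (P (univ.erase v) x ∧ LinearIndependent ℤ (w univ v x)) ∧
      x v ∈ lat (w univ v x) ∧ ¬ P univ x)
      (fun y => P (univ.erase v) y ∧ LinearIndependent ℤ (w univ v y))
      (fun y z => z ∈ lat (w univ v y) ∧ ¬ P univ (Function.update y v z))
      (b := C1 * (ρ : ℝ) ^ (n v - Fintype.card (ι univ v) - D - 1)) (by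
        rintro x ⟨⟨a1, a2⟩, a3, a4⟩
        refine ⟨⟨(h.upd_P univ v (mem_univ v) x 0).2 a1, ?_⟩, ?_, ?_⟩
        · rw [h.upd_w univ v (mem_univ v)]
          exact a2
        · rw [h.upd_w univ v (mem_univ v)]
          exact a3
        · rw [Function.update_idem, Function.update_eq_self]
          exact a4) (by
        rintro y ⟨a1, a2⟩
        convert hb1 y a1 a2 ρ hρ)
    refine h3.trans ?_
    have hXv : (1 : ℝ) ≤ X v := by exact_mod_cast hX1 v
    have h4 : ((Bx n (Function.update X v 0) fun y => P (univ.erase v) y ∧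
        LinearIndependent ℤ (w univ v y)).card : ℝ) ≤
        C2 * 2 ^ ((D : ℝ) + ε) * ((∏ u ∈ univ.erase v,
          (X u : ℝ) ^ (n u - Fintype.card (ι univ u))) * (X v : ℝ) ^ ((D : ℝ) + ε)) := by
      have h5 := hb2 (Function.update X v 0) (by
        intro u hu
        rw [Function.update_of_ne (ne_of_mem_erase hu)]
        exact hX1 u) (by
        intro u hu
        have : u = v := by
          by_contra hne
          exact hu (mem_erase.2 ⟨hne, mem_univ u⟩)
        subst this
        exact Function.update_self ..)
      have h6 : ((Bx n (Function.update X v 0) fun y => P (univ.erase v) y ∧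
          LinearIndependent ℤ (w univ v y)).card : ℝ) ≤
          ((Bx n (Function.update X v 0) (P (univ.erase v))).card : ℝ) := by
        have : Bx n (Function.update X v 0) (fun y => P (univ.erase v) y ∧
          LinearIndependent ℤ (w univ v y)) ⊆ Bx n (Function.update X v 0) (P (univ.erase v)) := by
          intro y hy
          rw [mem_Bx] at hy ⊢
          exact ⟨hy.1, hy.2.1⟩
        exact_mod_cast card_le_card this
      refine h6.trans (h5.trans ?_)
      have h7 : ∏ u ∈ univ.erase v, ((Function.update X v 0 u : ℕ) : ℝ) ^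
          (n u - Fintype.card (ι (univ.erase v) u)) ≤
          (∏ u ∈ univ.erase v, (X u : ℝ) ^ (n u - Fintype.card (ι univ u))) *
            (2 * (X v : ℝ)) ^ D := by
        rw [hD, ← Finset.prod_pow_eq_pow_sum, ← Finset.prod_mul_distrib]
        apply Finset.prod_le_prod
        · intro u _
          positivity
        · intro u hu
          rw [Function.update_of_ne (ne_of_mem_erase hu)]
          have e1 := h.card univ v (mem_univ v) u hu
          have e2 := h2 u
          have e3 : n u - Fintype.card (ι (univ.erase v) u) =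
              (n u - Fintype.card (ι univ u)) + κ univ v u := by omega
          rw [e3, pow_add]
          apply mul_le_mul_of_nonneg_left _ (by positivity)
          apply pow_le_pow_left₀ (by positivity)
          exact_mod_cast hX2 u
      have h8 : (∏ u ∈ univ.erase v, ((Function.update X v 0 u : ℕ) : ℝ)) ^ (ε / (m + 1)) ≤
          (2 * (X v : ℝ)) ^ ε := by
        have h9 : ∏ u ∈ univ.erase v, ((Function.update X v 0 u : ℕ) : ℝ) ≤
            (2 * (X v : ℝ)) ^ (m + 1) := by
          calc ∏ u ∈ univ.erase v, ((Function.update X v 0 u : ℕ) : ℝ)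
              ≤ ∏ u ∈ univ.erase v, (2 * (X v : ℝ)) := by
                apply Finset.prod_le_prod
                · intro u _
                  positivity
                · intro u hu
                  rw [Function.update_of_ne (ne_of_mem_erase hu)]
                  exact_mod_cast hX2 u
            _ = (2 * (X v : ℝ)) ^ (univ.erase v).card := by rw [prod_const]
            _ ≤ (2 * (X v : ℝ)) ^ (m + 1) := by
                apply pow_le_pow_right₀ (by linarith)
                have := card_erase_le (s := (univ : Finset (Fin m))) (a := v)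
                rw [card_univ, Fintype.card_fin] at this
                omega
        calc (∏ u ∈ univ.erase v, ((Function.update X v 0 u : ℕ) : ℝ)) ^ (ε / (m + 1))
            ≤ ((2 * (X v : ℝ)) ^ (m + 1)) ^ (ε / (m + 1)) := by
              apply Real.rpow_le_rpow _ h9 (by positivity)
              apply Finset.prod_nonneg
              intro u _
              positivity
          _ = (2 * (X v : ℝ)) ^ ε := by
              rw [← Real.rpow_natCast, ← Real.rpow_mul (by positivity)]
              congr 1
              push_cast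
              field_simp
      have h10 : (2 * (X v : ℝ)) ^ D * (2 * (X v : ℝ)) ^ ε =
          2 ^ ((D : ℝ) + ε) * (X v : ℝ) ^ ((D : ℝ) + ε) := by
        rw [← Real.mul_rpow (by norm_num) (by positivity), Real.rpow_add (by positivity),
          Real.rpow_natCast]
      have h11 : 0 ≤ ∏ u ∈ univ.erase v, (X u : ℝ) ^ (n u - Fintype.card (ι univ u)) := by
        apply Finset.prod_nonneg
        intro u _
        positivity
      calc C2 * (∏ u ∈ univ.erase v, ((Function.update X v 0 u : ℕ) : ℝ) ^
            (n u - Fintype.card (ι (univ.erase v) u))) *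
            (∏ u ∈ univ.erase v, ((Function.update X v 0 u : ℕ) : ℝ)) ^ (ε / (m + 1))
          ≤ C2 * ((∏ u ∈ univ.erase v, (X u : ℝ) ^ (n u - Fintype.card (ι univ u))) *
            (2 * (X v : ℝ)) ^ D) * (2 * (X v : ℝ)) ^ ε := by
            apply mul_le_mul (mul_le_mul_of_nonneg_left h7 hC2) h8
            · apply Real.rpow_nonneg
              apply Finset.prod_nonneg
              intro u _
              positivity
            · positivity
        _ = C2 * (∏ u ∈ univ.erase v, (X u : ℝ) ^ (n u - Fintype.card (ι univ u))) *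
            ((2 * (X v : ℝ)) ^ D * (2 * (X v : ℝ)) ^ ε) := by ring
        _ = _ := by
            rw [h10]
            ring
    calc ((Bx n (Function.update X v 0) fun y => P (univ.erase v) y ∧
        LinearIndependent ℤ (w univ v y)).card : ℝ) *
        (C1 * (ρ : ℝ) ^ (n v - Fintype.card (ι univ v) - D - 1))
        ≤ (C2 * 2 ^ ((D : ℝ) + ε) * ((∏ u ∈ univ.erase v,
          (X u : ℝ) ^ (n u - Fintype.card (ι univ u))) * (X v : ℝ) ^ ((D : ℝ) + ε))) *
          (C1 * (ρ : ℝ) ^ (n v - Fintype.card (ι univ v) - D - 1)) := by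
          apply mul_le_mul_of_nonneg_right h4
          positivity
      _ = _ := by ring

end Pool.Agent.T6.H81.BG
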