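import Mathlib
import Pool.Agent.T6.H81.BG.F3
import Pool.Agent.T6.H81.BA.F2

/-!
# The asymptotic formula for fibred systems, all heights
-/

set_option autoImplicit false

namespace Pool.Agent.T6.H81.BG

open Finset Module Matrix Filter Topology
open Pool.Agent.H548.WM (ht bx mem_bx Rep ht_pos)
open Pool.Agent.H548.BL (lat rep_ne)
open Pool.Agent.T6.H81.BA (Cell cell_pos gcd_ne)

/-! ### Cells with arbitrary finite index types -/

/-- Primitive vectors in a cell. -/
def CellT {N : ℕ} {κ : Type} (f : κ → Fin N → ℤ) (σ : κ → Bool) (q : ℕ) (r v : Fin N → ℤ) : Prop :=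
  univ.gcd v = 1 ∧ (∀ j, (q : ℤ) ∣ v j - r j) ∧ ∀ i, (0 ≤ f i ⬝ᵥ v ↔ σ i = true)

theorem cellT_iff {N M : ℕ} {κ : Type} (e : Fin M ≃ κ) (f : κ → Fin N → ℤ) (σ : κ → Bool) (q : ℕ)
    (r v : Fin N → ℤ) : CellT f σ q r v ↔ Cell (f ∘ e) (σ ∘ e) q r v := by
  unfold CellT Cell
  refine and_congr_right fun _ => and_congr_right fun _ => ?_
  constructor
  · intro h i
    exact h (e i)
  · intro h i
    have := h (e.symm i)
    simpa using this

/-- The asymptotic formula in a cell. -/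
theorem cell_asym (hC : StmtC3) (hP : StmtP3) (hH : StmtH3) {m : ℕ} {n r D : Fin (m + 1) → ℕ}
    {P : Pt n → Prop} {Q : Fin (m + 1) → Pt n → Prop} {ι : Fin (m + 1) → Type}
    [∀ v, Fintype (ι v)] {w : ∀ v, Pt n → ι v → Fin (n v) → ℤ} (hFS : FS n r D P Q ι w)
    (κ : Fin (m + 1) → Type) [∀ v, Fintype (κ v)] (f : ∀ v, κ v → Fin (n v) → ℤ)
    (σ : ∀ v, κ v → Bool) (q : ℕ) (hq : 1 ≤ q) (r0 : Pt n) :
    ∃ c : ℝ, Tendsto (fun B : ℝ => ({x : Pt n | (P x ∧ ∀ v, CellT (f v) (σ v) q (r0 v) (x v)) ∧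
      ∏ v, (ht (x v) : ℝ) ^ r v ≤ B}.ncard : ℝ) / (B * Real.log B ^ m)) atTop (𝓝 c) := by
  classical
  have hbox := hP (m + 1) r (fun X => ((Bx n X fun x => P x ∧
    ∀ u, CellT (f u) (σ u) q (r0 u) (x u)).card : ℝ)) (by
    intro v
    have e := (Fintype.equivFin (κ v)).symm
    exact hC (m + 1) n r D P Q ι w hFS v _ (f v ∘ e) (σ v ∘ e) q (r0 v) hq
      (fun u z => CellT (f u) (σ u) q (r0 u) z) (fun z => cellT_iff e _ _ _ _ _))
  obtain ⟨c, C, δ, hδ, hb⟩ := hbox
  refine ⟨c / m.factorial, ?_⟩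
  have hset : ∀ X : Fin (m + 1) → ℕ, {t : Pt n | t ∈ {x : Pt n | P x ∧
      ∀ v, CellT (f v) (σ v) q (r0 v) (x v)} ∧ ∀ v, ht (t v) ≤ X v} =
      ((Bx n X fun x => P x ∧ ∀ u, CellT (f u) (σ u) q (r0 u) (x u) : Finset (Pt n)) :
        Set (Pt n)) := by
    intro X
    ext x
    rw [Finset.mem_coe, mem_Bx]
    constructor
    · rintro ⟨h1, h2⟩
      exact ⟨h2, h1⟩
    · rintro ⟨h1, h2⟩
      exact ⟨h2, h1⟩
  exact hH m r (fun v => by have := hFS.r2 v; omega) (Pt n)
    {x : Pt n | P x ∧ ∀ v, CellT (f v) (σ v) q (r0 v) (x v)} (fun v x => ht (x v)) (by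
      rintro x ⟨-, hx⟩ v
      exact ht_pos (gcd_ne (hx v).1)) (by
      intro X
      rw [hset X]
      exact Finset.finite_toSet _) c C δ hδ (by
      intro X hX
      rw [hset X, Set.ncard_coe_finset]
      exact hb X hX)

/-! ### Normalised vectors -/

/-- The sign conditions which mean that the first nonzero coordinate is positive. -/
def RepOK {N : ℕ} (s : Fin N → Bool × Bool) : Prop :=
  ∃ i, s i = (true, false) ∧ ∀ j < i, s j = (true, true)

theorem rep_iff {N : ℕ} (v : Fin N → ℤ) :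
    Rep v ↔ univ.gcd v = 1 ∧ RepOK fun i => (decide (0 ≤ v i), decide (0 ≤ -v i)) := by
  unfold Pool.Agent.H548.WM.Rep RepOK
  refine and_congr_right fun _ => exists_congr fun i => and_congr ?_ (forall_congr' fun j =>
    imp_congr_right fun _ => ?_)
  · simp only [Prod.mk.injEq, decide_eq_true_eq, decide_eq_false_iff_not]
    omega
  · simp only [Prod.mk.injEq, decide_eq_true_eq]
    omega

/-! ### All heights -/

theorem fin_aux {m : ℕ} {n r : Fin m → ℕ} (hr : ∀ v, 1 ≤ r v) (Q : Set (Pt n))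
    (hQ : ∀ x ∈ Q, ∀ v, 1 ≤ ht (x v)) (B : ℝ) :
    {x | x ∈ Q ∧ ∏ v, (ht (x v) : ℝ) ^ r v ≤ B}.Finite := by
  classical
  apply ((Fintype.piFinset fun v => bx (n v) ⌊B⌋₊).finite_toSet).subset
  rintro x ⟨h1, h2⟩
  rw [Finset.mem_coe, Fintype.mem_piFinset]
  intro v
  rw [mem_bx]
  apply Nat.le_floor
  refine le_trans ?_ h2
  have h3 : ∀ u, (1 : ℝ) ≤ (ht (x u) : ℝ) ^ r u := fun u =>
    one_le_pow₀ (by exact_mod_cast hQ x h1 u)
  calc (ht (x v) : ℝ) ≤ (ht (x v) : ℝ) ^ r v :=
        le_self_pow₀ (by exact_mod_cast hQ x h1 v) (by have := hr v; omega)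
    _ ≤ ∏ u, (ht (x u) : ℝ) ^ r u := by
        rw [← Finset.mul_prod_erase univ _ (mem_univ v)]
        apply le_mul_of_one_le_right (by positivity)
        have : ∏ u ∈ univ.erase v, (1 : ℝ) ≤ ∏ u ∈ univ.erase v, (ht (x u) : ℝ) ^ r u :=
          Finset.prod_le_prod (fun _ _ => zero_le_one) fun u _ => h3 u
        simpa using this

/-- **The asymptotic formula** for fibred systems and all heights. -/
theorem am_lim (hC : StmtC3) (hP : StmtP3) (hH : StmtH3) (hW : StmtW3) (hZ : StmtZ3) {m : ℕ}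
    {n r D : Fin (m + 1) → ℕ} {P : Pt n → Prop} {Q : Fin (m + 1) → Pt n → Prop}
    {ι : Fin (m + 1) → Type} [∀ v, Fintype (ι v)] {w : ∀ v, Pt n → ι v → Fin (n v) → ℤ}
    (hFS : FS n r D P Q ι w) (X0 : Set (∀ v, Fin (n v) → ℝ))
    (X : ∀ p : Nat.Primes, Set (∀ v, Fin (n v) → ℚ_[p])) (hX0 : Cone X0) (hX : ∀ p, Cone (X p))
    (hP0 : ∀ x, P x → ic ℝ x ∈ X0) (hPp : ∀ x, P x → ∀ p : Nat.Primes, ic ℚ_[p] x ∈ X p)
    (ψ : (∀ v, Fin (n v) → ℝ) → ℝ) (S : Finset Nat.Primes)
    (φ : ∀ p : Nat.Primes, (∀ v, Fin (n v) → ℚ_[p]) → ℝ) (hψ : LFs X0 ψ)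
    (hφ : ∀ p ∈ S, LFs (X p) (φ p)) :
    ∃ c : ℝ, Tendsto (fun B : ℝ => ({x : Pt n | (∀ v, Rep (x v)) ∧ P x ∧
      (∏ v, (ht (x v) : ℝ) ^ r v) * Phs ψ S φ x ≤ B}.ncard : ℝ) / (B * Real.log B ^ m))
      atTop (𝓝 c) := by
  classical
  obtain ⟨⟨m0, m1, hm0, hmm⟩, hcells⟩ := hZ (m + 1) n X0 X ψ S φ hX0 hX hψ hφ
  have hr1 : ∀ v, 1 ≤ r v := fun v => by have := hFS.r2 v; omega
  set QQ : Set (Pt n) := {x | (∀ v, Rep (x v)) ∧ P x} with hQQ
  have hpos : ∀ x ∈ QQ, ∀ v, 1 ≤ ht (x v) := fun x hx v => ht_pos (rep_ne (hx.1 v))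
  have key := hW m (Pt n) QQ (fun x => ∏ v, (ht (x v) : ℝ) ^ r v) (fun x => Phs ψ S φ x) m0 m1 hm0
    (fun x hx => hmm x (fun v => rep_ne (hx.1 v)) (hP0 x hx.2) (fun p _ => hPp x hx.2 p))
    (fun x hx => by
      have h3 : ∀ u, (1 : ℝ) ≤ (ht (x u) : ℝ) ^ r u := fun u =>
        one_le_pow₀ (by exact_mod_cast hpos x hx u)
      have : ∏ u : Fin (m + 1), (1 : ℝ) ≤ ∏ u, (ht (x u) : ℝ) ^ r u :=
        Finset.prod_le_prod (fun _ _ => zero_le_one) fun u _ => h3 u
      simpa using this)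
    (fun B => fin_aux hr1 QQ hpos B) (by
    intro ε hε
    obtain ⟨N, f, q, hq, hcell⟩ := hcells ε hε
    have : NeZero q := ⟨by omega⟩
    refine ⟨∀ v, (Fin N → Bool) × (Fin (n v) → Bool × Bool) × (Fin (n v) → ZMod q), inferInstance,
      fun x v => (fun i => decide (0 ≤ f v i ⬝ᵥ x v),
        fun i => (decide (0 ≤ x v i), decide (0 ≤ -x v i)), fun j => ((x v j : ℤ) : ZMod q)),
      ?_, ?_⟩
    · rintro x ⟨h1, h2⟩ x' ⟨h1', h2'⟩ heq
      apply hcell x x' (fun v => (h1 v).1) (fun v => (h1' v).1) (hP0 x h2) (fun p _ => hPp x h2 p)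
        (hP0 x' h2') (fun p _ => hPp x' h2' p)
      · intro v j
        have h3 := congrFun heq v
        simp only [Prod.mk.injEq] at h3
        exact (ZMod.intCast_eq_intCast_iff_dvd_sub _ _ _).1 (congrFun h3.2.2 j)
      · intro v i
        have h3 := congrFun heq v
        simp only [Prod.mk.injEq] at h3
        have h4 := congrFun h3.1 i
        simp only [decide_eq_decide] at h4
        exact h4.symm
    · intro i
      by_cases hi : ∀ v, RepOK (i v).2.1
      · obtain ⟨c, hc⟩ := cell_asym hC hP hH hFS (fun v => Fin N ⊕ (Fin (n v) ⊕ Fin (n v)))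
          (fun v => Sum.elim (f v) (Sum.elim (fun j => Pi.single j 1) (fun j => Pi.single j (-1))))
          (fun v => Sum.elim (i v).1 (Sum.elim (fun j => ((i v).2.1 j).1)
            (fun j => ((i v).2.1 j).2))) q hq (fun v j => (((i v).2.2 j).val : ℤ))
        refine ⟨c, hc.congr fun B => ?_⟩
        congr 3
        ext x
        rw [Set.mem_ofPred_eq, Set.mem_ofPred_eq]
        have hmod : ∀ (v : Fin (m + 1)) (ρ : Fin (n v) → ZMod q),
            (fun j => ((x v j : ℤ) : ZMod q)) = ρ ↔ ∀ j, (q : ℤ) ∣ x v j - ((ρ j).val : ℤ) := by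
          intro v ρ
          rw [funext_iff]
          refine forall_congr' fun j => ?_
          rw [← ZMod.intCast_eq_intCast_iff_dvd_sub]
          push_cast
          rw [ZMod.natCast_zmod_val]
          exact eq_comm
        have hcl : ∀ v, CellT (Sum.elim (f v) (Sum.elim (fun j => Pi.single j 1)
            (fun j => Pi.single j (-1)))) (Sum.elim (i v).1 (Sum.elim (fun j => ((i v).2.1 j).1)
            (fun j => ((i v).2.1 j).2))) q (fun j => (((i v).2.2 j).val : ℤ)) (x v) ↔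
            univ.gcd (x v) = 1 ∧ ((fun i => decide (0 ≤ f v i ⬝ᵥ x v),
              fun i => (decide (0 ≤ x v i), decide (0 ≤ -x v i)),
              fun j => ((x v j : ℤ) : ZMod q)) : (Fin N → Bool) × (Fin (n v) → Bool × Bool) ×
              (Fin (n v) → ZMod q)) = i v := by
          intro v
          unfold CellT
          refine and_congr_right fun _ => ?_
          rw [Prod.ext_iff, Prod.ext_iff]
          simp only [hmod]
          constructor
          · rintro ⟨h1, h2⟩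
            refine ⟨?_, ?_, h1⟩
            · funext j
              have := h2 (Sum.inl j)
              simp only [Sum.elim_inl] at this
              cases hb : (i v).1 j
              · rw [hb] at this
                simpa using this
              · rw [hb] at this
                simpa using this
            · funext j
              have h3 := h2 (Sum.inr (Sum.inl j))
              have h4 := h2 (Sum.inr (Sum.inr j))
              simp only [Sum.elim_inr, Sum.elim_inl, single_dotProduct, one_mul, neg_mul]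
                at h3 h4
              apply Prod.ext
              · show decide (0 ≤ x v j) = ((i v).2.1 j).1
                cases hb : ((i v).2.1 j).1
                · rw [hb] at h3
                  simpa using h3
                · rw [hb] at h3
                  simpa using h3
              · show decide (0 ≤ -x v j) = ((i v).2.1 j).2
                cases hb : ((i v).2.1 j).2
                · rw [hb] at h4
                  simpa using h4
                · rw [hb] at h4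
                  simpa using h4
          · rintro ⟨h1, h2, h3⟩
            refine ⟨h3, ?_⟩
            rintro (j | j | j)
            · have := congrFun h1 j
              simp only [Sum.elim_inl]
              rw [← this]
              simp
            · have := congrArg Prod.fst (congrFun h2 j)
              simp only [Sum.elim_inr, Sum.elim_inl, single_dotProduct, one_mul]
              rw [← this]
              simp
            · have := congrArg Prod.snd (congrFun h2 j)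
              simp only [Sum.elim_inr, single_dotProduct, one_mul, neg_mul]
              rw [← this]
              simp
        constructor
        · rintro ⟨⟨h1, h2⟩, h3⟩
          have h4 : ∀ v, _ := fun v => (hcl v).1 (h2 v)
          refine ⟨⟨fun v => ?_, h1⟩, ?_, h3⟩
          · rw [rep_iff]
            refine ⟨(h4 v).1, ?_⟩
            have h5 := hi v
            rw [← (h4 v).2] at h5
            exact h5
          · funext v
            exact (h4 v).2
        · rintro ⟨⟨h1, h2⟩, h3, h4⟩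
          refine ⟨⟨h2, fun v => (hcl v).2 ⟨(h1 v).1, congrFun h3 v⟩⟩, h4⟩
      · refine ⟨0, ?_⟩
        have h0 : ∀ B : ℝ, {x | x ∈ QQ ∧ (fun v => ((fun i => decide (0 ≤ f v i ⬝ᵥ x v),
            fun i => (decide (0 ≤ x v i), decide (0 ≤ -x v i)),
            fun j => ((x v j : ℤ) : ZMod q)) : (Fin N → Bool) × (Fin (n v) → Bool × Bool) ×
              (Fin (n v) → ZMod q))) = i ∧ ∏ v, (ht (x v) : ℝ) ^ r v ≤ B} = ∅ := by
          intro B
          rw [Set.eq_empty_iff_forall_notMem]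
          rintro x ⟨⟨h1, -⟩, h2, -⟩
          apply hi
          intro v
          rw [← h2]
          exact ((rep_iff (x v)).1 (h1 v)).2
        simp only [h0, Set.ncard_empty, Nat.cast_zero, zero_div]
        exact tendsto_const_nhds)
  obtain ⟨c, hc⟩ := key
  refine ⟨c, hc.congr fun B => ?_⟩
  congr 3
  ext x
  exact and_assoc

/-- The constant is positive if there is a lower bound for the naive height. -/
theorem am_pos (hZ : StmtZ3) {m : ℕ} {n r : Fin (m + 1) → ℕ} (hr1 : ∀ v, 1 ≤ r v)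
    {P : Pt n → Prop} (X0 : Set (∀ v, Fin (n v) → ℝ))
    (X : ∀ p : Nat.Primes, Set (∀ v, Fin (n v) → ℚ_[p])) (hX0 : Cone X0) (hX : ∀ p, Cone (X p))
    (hP0 : ∀ x, P x → ic ℝ x ∈ X0) (hPp : ∀ x, P x → ∀ p : Nat.Primes, ic ℚ_[p] x ∈ X p)
    (ψ : (∀ v, Fin (n v) → ℝ) → ℝ) (S : Finset Nat.Primes)
    (φ : ∀ p : Nat.Primes, (∀ v, Fin (n v) → ℚ_[p]) → ℝ) (hψ : LFs X0 ψ)
    (hφ : ∀ p ∈ S, LFs (X p) (φ p)) {c0 B₀ : ℝ} (hc0 : 0 < c0)
    (hlow : ∀ B : ℝ, B₀ ≤ B → c0 * B * Real.log B ^ m ≤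
      ({x : Pt n | (∀ v, Rep (x v)) ∧ P x ∧ ∏ v, (ht (x v) : ℝ) ^ r v ≤ B}.ncard : ℝ)) {c : ℝ}
    (hc : Tendsto (fun B : ℝ => ({x : Pt n | (∀ v, Rep (x v)) ∧ P x ∧
      (∏ v, (ht (x v) : ℝ) ^ r v) * Phs ψ S φ x ≤ B}.ncard : ℝ) / (B * Real.log B ^ m))
      atTop (𝓝 c)) : 0 < c := by
  obtain ⟨⟨m0, m1, hm0, hmm⟩, -⟩ := hZ (m + 1) n X0 X ψ S φ hX0 hX hψ hφ
  -- an upper bound which is positive
  set M := max m1 1 with hM
  have hM0 : 0 < M := lt_of_lt_of_le zero_lt_one (le_max_right _ _)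
  have hfin : ∀ B : ℝ, {x : Pt n | (∀ v, Rep (x v)) ∧ P x ∧
      (∏ v, (ht (x v) : ℝ) ^ r v) * Phs ψ S φ x ≤ B}.Finite := by
    intro B
    apply (fin_aux hr1 {x : Pt n | (∀ v, Rep (x v)) ∧ P x}
      (fun x hx v => ht_pos (rep_ne (hx.1 v))) (B / m0)).subset
    rintro x ⟨h1, h2, h3⟩
    refine ⟨⟨h1, h2⟩, ?_⟩
    rw [le_div_iff₀ hm0]
    refine le_trans ?_ h3
    have := (hmm x (fun v => rep_ne (h1 v)) (hP0 x h2) (fun p _ => hPp x h2 p)).1
    exact mul_le_mul_of_nonneg_left this (Finset.prod_nonneg fun v _ => by positivity)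
  have hpos : 0 < c0 / M / 2 ^ m := by positivity
  refine lt_of_lt_of_le hpos (ge_of_tendsto hc ?_)
  have hlog : ∀ᶠ B : ℝ in atTop, Real.log B / 2 ≤ Real.log (B / M) := by
    have h1 : Tendsto (fun B : ℝ => Real.log B) atTop atTop := Real.tendsto_log_atTop
    filter_upwards [h1.eventually_ge_atTop (2 * Real.log M), eventually_gt_atTop 0] with B hB hB0
    rw [Real.log_div hB0.ne' hM0.ne']
    linarith
  filter_upwards [eventually_ge_atTop (B₀ * M), eventually_gt_atTop 1, hlog] with B hB1 hB2 hB3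
  have hlB : 0 < Real.log B := Real.log_pos hB2
  have hB0 : 0 < B := by linarith
  rw [le_div_iff₀ (by positivity)]
  have h1 := hlow (B / M) (by rwa [le_div_iff₀ hM0])
  have hsub : {x : Pt n | (∀ v, Rep (x v)) ∧ P x ∧ ∏ v, (ht (x v) : ℝ) ^ r v ≤ B / M} ⊆
      {x : Pt n | (∀ v, Rep (x v)) ∧ P x ∧
        (∏ v, (ht (x v) : ℝ) ^ r v) * Phs ψ S φ x ≤ B} := by
    rintro x ⟨h1, h2, h3⟩
    refine ⟨h1, h2, ?_⟩
    rw [le_div_iff₀ hM0] at h3
    refine le_trans ?_ h3
    have := (hmm x (fun v => rep_ne (h1 v)) (hP0 x h2) (fun p _ => hPp x h2 p)).2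
    exact mul_le_mul_of_nonneg_left (this.trans (le_max_left _ _))
      (Finset.prod_nonneg fun v _ => by positivity)
  have h2 := Set.ncard_le_ncard hsub (hfin B)
  have h2' : ({x : Pt n | (∀ v, Rep (x v)) ∧ P x ∧
      ∏ v, (ht (x v) : ℝ) ^ r v ≤ B / M}.ncard : ℝ) ≤
      ({x : Pt n | (∀ v, Rep (x v)) ∧ P x ∧
        (∏ v, (ht (x v) : ℝ) ^ r v) * Phs ψ S φ x ≤ B}.ncard : ℝ) := by exact_mod_cast h2
  refine le_trans ?_ (h1.trans h2')
  have h3 : (Real.log B / 2) ^ m ≤ Real.log (B / M) ^ m := pow_le_pow_left₀ (by positivity) hB3 m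
  calc c0 / M / 2 ^ m * (B * Real.log B ^ m) = c0 * (B / M) * (Real.log B / 2) ^ m := by
        rw [div_pow]
        field_simp
    _ ≤ c0 * (B / M) * Real.log (B / M) ^ m := mul_le_mul_of_nonneg_left h3 (by positivity)

end Pool.Agent.T6.H81.BG
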