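import Mathlib
import Pool.Agent.T6.H81.BG.A3

/-!
# Systems of multilinear equations: the asymptotic formula for all heights
-/

set_option autoImplicit false

namespace Pool.Agent.T6.H81.BG

open Finset Module Matrix Filter Topology
open Pool.Agent.H548.WM (ht bx mem_bx Rep ht_pos)
open Pool.Agent.H548.BL (lat rep_ne)
open Pool.Agent.H548.TL (evz evz_map evz_int)
open Pool.Agent.T6.H5.TW (fl MultiDeg)

variable {m K : ℕ} {n : Fin m → ℕ}

/-- The equations which contain the block `v`. -/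
def eqEquiv (d : Fin K → Fin m → ℕ) (v : Fin m) : Eq d univ v ≃ {e : Fin K // d e v = 1} where
  toFun e := ⟨e.1, e.2.2⟩
  invFun e := ⟨e.1, fun i hi => absurd (mem_univ i) hi, e.2⟩
  left_inv _ := rfl
  right_inv _ := rfl

theorem card_eq_univ (d : Fin K → Fin m → ℕ) (hd1 : ∀ e v, d e v ≤ 1) (v : Fin m) :
    Fintype.card (Eq d univ v) = ∑ e, d e v := by
  classical
  rw [Fintype.card_congr (eqEquiv d v), Fintype.card_subtype, Finset.card_filter]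
  refine Finset.sum_congr rfl fun e _ => ?_
  have := hd1 e v
  split_ifs with h <;> omega

theorem pt_univ {F : Fin K → MvPolynomial (Σ i, Fin (n i)) ℤ} {d : Fin K → Fin m → ℕ}
    {x : Pt n} : PT F d univ x ↔ (∀ v, x v ≠ 0) ∧ Zr F x ∧
      ∀ v, LinearIndependent ℤ (fun e : {e : Fin K // d e v = 1} => cf F e.1 v x) := by
  unfold PT Zr
  refine and_congr ?_ (and_congr ?_ ?_)
  · simp
  · constructor
    · intro h e
      exact h e fun i hi => absurd (mem_univ i) hi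
    · intro h e _
      exact h e
  · constructor
    · intro h v
      have h1 := h v (mem_univ v)
      have h2 := (linearIndependent_equiv (eqEquiv d v).symm).2 h1
      exact h2
    · intro h v _
      have h1 := h v
      have h2 := (linearIndependent_equiv (eqEquiv d v)).2 h1
      exact h2

theorem zr_cast {R : Type} [CommRing R] {F : Fin K → MvPolynomial (Σ i, Fin (n i)) ℤ} {x : Pt n}
    (h : Zr F x) : Zr F (fun v i => ((x v i : ℤ) : R)) := by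
  intro e
  have h1 := evz_map (Int.castRingHom R) (F e) (fl x)
  rw [h e, map_zero] at h1
  exact h1.symm

theorem cf_cast {R : Type} [CommRing R] (F : Fin K → MvPolynomial (Σ i, Fin (n i)) ℤ) (e : Fin K)
    (v : Fin m) (x : Pt n) (s : Fin (n v)) :
    cf F e v (fun v i => ((x v i : ℤ) : R)) s = ((cf F e v x s : ℤ) : R) := by
  unfold cf
  have h1 := evz_map (Int.castRingHom R) (F e) (fl (Function.update x v (Pi.single s 1)))
  have h2 : (fun i => (Int.castRingHom R) (fl (Function.update x v (Pi.single s 1)) i)) =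
      fl (Function.update (fun v i => ((x v i : ℤ) : R)) v (Pi.single s 1)) := by
    funext p
    obtain ⟨i, t⟩ := p
    unfold fl
    by_cases hi : i = v
    · subst hi
      simp only [Function.update_self]
      by_cases ht : t = s
      · subst ht
        simp
      · simp [ht]
    · simp only [Function.update_of_ne hi]
      rfl
  rw [h2] at h1
  exact h1.symm

theorem li_cast {F : Fin K → MvPolynomial (Σ i, Fin (n i)) ℤ} {d : Fin K → Fin m → ℕ} {v : Fin m}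
    {x : Pt n} (h : LinearIndependent ℤ (fun e : {e : Fin K // d e v = 1} => cf F e.1 v x)) :
    LinearIndependent ℂ (fun e : {e : Fin K // d e v = 1} =>
      cf F e.1 v (fun v i => ((x v i : ℤ) : ℂ))) := by
  have h1 := (linearIndependent_algebraMap_comp_iff (R := ℤ) (S := ℂ)
    (v := fun e : {e : Fin K // d e v = 1} => cf F e.1 v x)).2 h
  have h2 : (fun e : {e : Fin K // d e v = 1} => cf F e.1 v (fun v i => ((x v i : ℤ) : ℂ))) =
      fun e : {e : Fin K // d e v = 1} => (algebraMap ℤ ℂ) ∘ cf F e.1 v x := by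
    funext e s
    exact cf_cast F e.1 v x s
  rw [h2]
  exact h1

/-- **The asymptotic formula** for systems of multilinear equations with few bad vectors. -/
theorem sys_main (hB : StmtB3) (hC : StmtC3) (hP : StmtP3) (hH : StmtH3) (hW : StmtW3)
    (hZ : StmtZ3) (hS3 : StmtS3) (hS6 : StmtS6) (hS8 : StmtS8) {m K : ℕ} {n : Fin (m + 1) → ℕ}
    (F : Fin K → MvPolynomial (Σ i, Fin (n i)) ℤ) (d : Fin K → Fin (m + 1) → ℕ)
    (hd1 : ∀ e v, d e v ≤ 1) (hF : ∀ e, MultiDeg (F e) (d e)) (hne : ∀ e, ∃ v, d e v = 1)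
    (hn2 : ∀ v, ∑ e, d e v + 2 ≤ n v) (hle : ∀ v, ∑ e, d e v * ∑ u, d e u + 1 ≤ n v)
    (hbad : BadB F d)
    (hex : ∃ z : ∀ i, Fin (n i) → ℂ, (∀ v, z v ≠ 0) ∧ Zr F z ∧
      ∀ v, LinearIndependent ℂ (fun e : {e : Fin K // d e v = 1} => cf F e.1 v z))
    (ψ : (∀ v, Fin (n v) → ℝ) → ℝ) (S : Finset Nat.Primes)
    (φ : ∀ p : Nat.Primes, (∀ v, Fin (n v) → ℚ_[p]) → ℝ) (hψ : LFs {x | Zr F x} ψ)
    (hφ : ∀ p ∈ S, LFs {x | Zr F x} (φ p)) :
    ∃ c : ℝ, 0 < c ∧ Tendsto (fun B : ℝ => ({x : Pt n | (∀ v, Rep (x v)) ∧ Zr F x ∧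
      (∀ v, LinearIndependent ℤ (fun e : {e : Fin K // d e v = 1} => cf F e.1 v x)) ∧
      (∏ v, (ht (x v) : ℝ) ^ (n v - ∑ e, d e v)) * Phs ψ S φ x ≤ B}.ncard : ℝ) /
        (B * Real.log B ^ m)) atTop (𝓝 c) := by
  have hMS := hS3 (m + 1) K n F d hd1 hF hle hbad
  have hFS := fs_of_ms hB hMS (fun v => by rw [card_eq_univ d hd1 v]; exact hn2 v)
  obtain ⟨hc0, hcp⟩ := hS8 (m + 1) K n F d hF
  have hP0 : ∀ x, PT F d univ x → ic ℝ x ∈ {x : ∀ v, Fin (n v) → ℝ | Zr F x} := fun x hx =>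
    zr_cast (pt_univ.1 hx).2.1
  have hPp : ∀ x, PT F d univ x → ∀ p : Nat.Primes,
      ic ℚ_[p] x ∈ {x : ∀ v, Fin (n v) → ℚ_[p] | Zr F x} := fun x hx p =>
    zr_cast (pt_univ.1 hx).2.1
  obtain ⟨c, hc⟩ := am_lim hC hP hH hW hZ hFS _ (fun p => {x : ∀ v, Fin (n v) → ℚ_[p] | Zr F x})
    hc0 hcp hP0 hPp ψ S φ hψ hφ
  have hset : ∀ (g : Pt n → ℝ) (B : ℝ), {x : Pt n | (∀ v, Rep (x v)) ∧ PT F d univ x ∧ g x ≤ B} =
      {x : Pt n | (∀ v, Rep (x v)) ∧ Zr F x ∧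
      (∀ v, LinearIndependent ℤ (fun e : {e : Fin K // d e v = 1} => cf F e.1 v x)) ∧
      g x ≤ B} := by
    intro g B
    ext x
    simp only [Set.mem_ofPred_eq, pt_univ]
    constructor
    · rintro ⟨h1, ⟨-, h2, h3⟩, h4⟩
      exact ⟨h1, h2, h3, h4⟩
    · rintro ⟨h1, h2, h3, h4⟩
      exact ⟨h1, ⟨fun v => rep_ne (h1 v), h2, h3⟩, h4⟩
  obtain ⟨c0, B₀, hc00, hlow⟩ := hS6 m K n F d hd1 hF hne hn2 hex
  have hr : (fun v => n v - Fintype.card (Eq d univ v)) = fun v => n v - ∑ e, d e v := by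
    funext v
    rw [card_eq_univ d hd1 v]
  have hpos := am_pos hZ (r := fun v => n v - Fintype.card (Eq d univ v))
    (fun v => by
      show 1 ≤ n v - Fintype.card (Eq d univ v)
      rw [card_eq_univ d hd1 v]
      have := hn2 v
      omega) _ (fun p => {x : ∀ v, Fin (n v) → ℚ_[p] | Zr F x}) hc0 hcp hP0 hPp ψ S φ hψ hφ hc00
    (B₀ := B₀) (by
      intro B hBB
      have h1 := hlow B hBB
      rw [hset (fun x => ∏ v, (ht (x v) : ℝ) ^ (n v - Fintype.card (Eq d univ v))) B]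
      simp only [card_eq_univ d hd1]
      exact h1) hc
  refine ⟨c, hpos, ?_⟩
  have h1 := hc
  simp only [card_eq_univ d hd1] at h1
  refine h1.congr fun B => ?_
  rw [hset (fun x => (∏ v, (ht (x v) : ℝ) ^ (n v - ∑ e, d e v)) * Phs ψ S φ x) B]

/-- **Anisotropic systems.** -/
theorem t1 (hB : StmtB3) (hC : StmtC3) (hP : StmtP3) (hH : StmtH3) (hW : StmtW3)
    (hZ : StmtZ3) (hS3 : StmtS3) (hS4 : StmtS4) (hS6 : StmtS6) (hS7 : StmtS7) (hS8 : StmtS8)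
    {m K : ℕ} {n : Fin (m + 1) → ℕ}
    (F : Fin K → MvPolynomial (Σ i, Fin (n i)) ℤ) (d : Fin K → Fin (m + 1) → ℕ)
    (hd1 : ∀ e v, d e v ≤ 1) (hF : ∀ e, MultiDeg (F e) (d e)) (hne : ∀ e, ∃ v, d e v = 1)
    (hn2 : ∀ v, ∑ e, d e v + 2 ≤ n v) (hle : ∀ v, ∑ e, d e v * ∑ u, d e u + 1 ≤ n v)
    (hA : ∀ v, ∀ x : Pt n, (∀ u, x u ≠ 0) →
      LinearIndependent ℤ (fun e : {e : Fin K // d e v = 1} => cf F e.1 v x))
    (ψ : (∀ v, Fin (n v) → ℝ) → ℝ) (S : Finset Nat.Primes)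
    (φ : ∀ p : Nat.Primes, (∀ v, Fin (n v) → ℚ_[p]) → ℝ) (hψ : LFs {x | Zr F x} ψ)
    (hφ : ∀ p ∈ S, LFs {x | Zr F x} (φ p)) :
    ∃ c : ℝ, 0 < c ∧ Tendsto (fun B : ℝ => ({x : Pt n | (∀ v, Rep (x v)) ∧ Zr F x ∧
      (∏ v, (ht (x v) : ℝ) ^ (n v - ∑ e, d e v)) * Phs ψ S φ x ≤ B}.ncard : ℝ) /
        (B * Real.log B ^ m)) atTop (𝓝 c) := by
  obtain ⟨x0, hx0, hz0⟩ := hS7 (m + 1) K n F d hd1 hF hne (fun v => by have := hn2 v; omega)
  obtain ⟨c, hc0, hc⟩ := sys_main hB hC hP hH hW hZ hS3 hS6 hS8 F d hd1 hF hne hn2 hle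
    (hS4 (m + 1) K n F d hd1 hF (fun v => by have := hn2 v; omega) hA)
    ⟨fun v i => ((x0 v i : ℤ) : ℂ), fun v h0 => hx0 v (by
      funext i
      have := congrFun h0 i
      simpa using this), zr_cast hz0, fun v => li_cast (hA v x0 hx0)⟩ ψ S φ hψ hφ
  refine ⟨c, hc0, hc.congr fun B => ?_⟩
  congr 3
  ext x
  rw [Set.mem_ofPred_eq, Set.mem_ofPred_eq]
  constructor
  · rintro ⟨h1, h2, -, h4⟩
    exact ⟨h1, h2, h4⟩
  · rintro ⟨h1, h2, h4⟩
    exact ⟨h1, h2, fun v => hA v x fun u => rep_ne (h1 u), h4⟩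

/-- **Systems with large ranks.** -/
theorem t2 (hB : StmtB3) (hC : StmtC3) (hP : StmtP3) (hH : StmtH3) (hW : StmtW3)
    (hZ : StmtZ3) (hS3 : StmtS3) (hS5 : StmtS5) (hS6 : StmtS6) (hS8 : StmtS8)
    {m K : ℕ} {n : Fin (m + 1) → ℕ}
    (F : Fin K → MvPolynomial (Σ i, Fin (n i)) ℤ) (d : Fin K → Fin (m + 1) → ℕ)
    (hd1 : ∀ e v, d e v ≤ 1) (hF : ∀ e, MultiDeg (F e) (d e)) (hne : ∀ e, ∃ v, d e v = 1)
    (hn2 : ∀ v, ∑ e, d e v + 2 ≤ n v) (hle : ∀ v, ∑ e, d e v * ∑ u, d e u + 1 ≤ n v)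
    (hsh : ∀ e e', e ≠ e' → ∀ u v, u ≠ v → d e u = 1 → d e v = 1 → d e' u = 1 → d e' v = 1 →
      False)
    (hrk : ∀ e u v, u ≠ v → d e u = 1 → d e v = 1 → ∀ x : Pt n, (∀ i, x i ≠ 0) →
      ∑ e', d e' u + ∑ e', d e' v * ∑ i, d e' i ≤
        ((mf F e u v x).map (Int.cast : ℤ → ℚ)).rank)
    (hex : ∃ z : ∀ i, Fin (n i) → ℂ, (∀ v, z v ≠ 0) ∧ Zr F z ∧
      ∀ v, LinearIndependent ℂ (fun e : {e : Fin K // d e v = 1} => cf F e.1 v z))
    (ψ : (∀ v, Fin (n v) → ℝ) → ℝ) (S : Finset Nat.Primes)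
    (φ : ∀ p : Nat.Primes, (∀ v, Fin (n v) → ℚ_[p]) → ℝ) (hψ : LFs {x | Zr F x} ψ)
    (hφ : ∀ p ∈ S, LFs {x | Zr F x} (φ p)) :
    ∃ c : ℝ, 0 < c ∧ Tendsto (fun B : ℝ => ({x : Pt n | (∀ v, Rep (x v)) ∧ Zr F x ∧
      (∀ v, LinearIndependent ℤ (fun e : {e : Fin K // d e v = 1} => cf F e.1 v x)) ∧
      (∏ v, (ht (x v) : ℝ) ^ (n v - ∑ e, d e v)) * Phs ψ S φ x ≤ B}.ncard : ℝ) /
        (B * Real.log B ^ m)) atTop (𝓝 c) :=
  sys_main hB hC hP hH hW hZ hS3 hS6 hS8 F d hd1 hF hne hn2 hle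
    (hS5 (m + 1) K n F d hd1 hF hsh hle hrk) hex ψ S φ hψ hφ

end Pool.Agent.T6.H81.BG
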