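import Mathlib
import Pool.Agent.T6.H81.BG.Defs

/-!
Module H3 (helper24): from boxes to heights. The sum of the numbers of the points in the boxes with
side lengths `l ^ j v`, `∑ v, j v = n`, is an `(m + 1)`-fold iterated sum.
-/

set_option autoImplicit false

namespace Pool.Agent.T6.H81.BG

open Finset Filter Topology

namespace ModH3

open Finset.Nat (antidiagonalTuple mem_antidiagonalTuple)

lemma card_tup (m n : ℕ) : (antidiagonalTuple (m + 1) n).card = (n + m).choose m := by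
  have h := Finset.card_finsuppAntidiag_nat_eq_choose (s := (univ : Finset (Fin (m + 1)))) n
  rw [card_univ, Fintype.card_fin] at h
  have h1 : m + 1 + n - 1 = n + m := by omega
  rw [h1, Nat.choose_symm_add] at h
  rw [← h]
  refine card_bij (fun j _ => Finsupp.equivFunOnFinite.symm j) ?_ ?_ ?_
  · intro j hj
    rw [mem_antidiagonalTuple] at hj
    rw [mem_finsuppAntidiag]
    refine ⟨by simpa using hj, subset_univ _⟩
  · intro j _ j' _ h
    exact Finsupp.equivFunOnFinite.symm.injective h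
  · intro f hf
    rw [mem_finsuppAntidiag] at hf
    refine ⟨Finsupp.equivFunOnFinite f, ?_, by simp⟩
    rw [mem_antidiagonalTuple]
    simpa using hf.1

/-- The number of the tuples above a given tuple. -/
lemma card_ge (m n : ℕ) (k : Fin (m + 1) → ℕ) (hk : ∑ v, k v ≤ n) :
    ((antidiagonalTuple (m + 1) n).filter fun j => ∀ v, k v ≤ j v).card =
      (n - ∑ v, k v + m).choose m := by
  rw [← card_tup]
  refine (card_bij (fun j _ => fun v => k v + j v) ?_ ?_ ?_).symm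
  · intro j hj
    rw [mem_antidiagonalTuple] at hj
    rw [mem_filter, mem_antidiagonalTuple]
    refine ⟨?_, fun v => Nat.le_add_right _ _⟩
    rw [sum_add_distrib, hj]
    omega
  · intro j _ j' _ h
    funext v
    have := congrFun h v
    simpa using this
  · intro j hj
    rw [mem_filter, mem_antidiagonalTuple] at hj
    refine ⟨fun v => j v - k v, ?_, ?_⟩
    · rw [mem_antidiagonalTuple]
      have h1 : ∑ v, (j v - k v) + ∑ v, k v = ∑ v, j v := by
        rw [← sum_add_distrib]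
        exact sum_congr rfl fun v _ => Nat.sub_add_cancel (hj.2 v)
      omega
    · funext v
      have := hj.2 v
      simp only
      omega

lemma tup_tendsto (m : ℕ) : Tendsto (fun n : ℕ => ((antidiagonalTuple (m + 1) n).card : ℝ) /
    (n : ℝ) ^ m) atTop (𝓝 (1 / m.factorial)) := by
  simp only [card_tup]
  have h := (isEquivalent_choose m)
  have h1 : Tendsto (fun n : ℕ => ((n.choose m : ℕ) : ℝ) / ((n : ℝ) ^ m / m.factorial)) atTop
      (𝓝 1) := by
    rw [Asymptotics.isEquivalent_iff_tendsto_one] at h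
    · exact h
    · filter_upwards [eventually_gt_atTop 0] with n hn
      positivity
  have h2 := h1.comp (tendsto_add_atTop_nat m)
  have h3 : Tendsto (fun n : ℕ => (((n : ℝ) + m) / n) ^ m) atTop (𝓝 1) := by
    have : Tendsto (fun n : ℕ => ((n : ℝ) + m) / n) atTop (𝓝 1) := by
      have h4 : Tendsto (fun n : ℕ => 1 + (m : ℝ) / n) atTop (𝓝 (1 + 0)) :=
        (tendsto_const_div_atTop_nhds_zero_nat (m : ℝ)).const_add 1
      rw [add_zero] at h4
      refine h4.congr' ?_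
      filter_upwards [eventually_gt_atTop 0] with n hn
      have : (n : ℝ) ≠ 0 := by positivity
      field_simp
    simpa using this.pow m
  have h5 := (h2.mul h3).div_const (m.factorial : ℝ)
  rw [mul_one] at h5
  refine h5.congr' ?_
  filter_upwards [eventually_gt_atTop 0] with n hn
  have hn0 : (n : ℝ) ≠ 0 := by positivity
  have hm0 : (m.factorial : ℝ) ≠ 0 := by positivity
  have hnm : ((n : ℝ) + m) ≠ 0 := by positivity
  simp only [Function.comp]
  push_cast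
  rw [div_pow]
  field_simp

lemma geo_tup (m n : ℕ) (v : Fin (m + 1)) (θ : ℝ) (h0 : 0 ≤ θ) (h1 : θ < 1) :
    ∑ j ∈ antidiagonalTuple (m + 1) n, θ ^ j v ≤
      if m = 0 then θ ^ n else ((n : ℝ) + 1) ^ (m - 1) * (1 - θ)⁻¹ := by
  rcases Nat.eq_zero_or_pos m with rfl | hm
  · rw [if_pos rfl]
    have : v = 0 := Fin.ext (by have := v.2; omega)
    subst this
    rw [Finset.Nat.antidiagonalTuple_one]
    simp
  · rw [if_neg hm.ne']
    obtain ⟨m, rfl⟩ : ∃ k, m = k + 1 := ⟨m - 1, by omega⟩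
    -- forget a coordinate different from `v`
    obtain ⟨w, hw⟩ : ∃ w : Fin (m + 2), v ≠ w := by
      by_cases h : v = 0
      · exact ⟨1, by rw [h]; simp⟩
      · exact ⟨0, h⟩
    obtain ⟨v', rfl⟩ := Fin.exists_succAbove_eq hw
    have e1 : ∑ j ∈ antidiagonalTuple (m + 1 + 1) n, θ ^ j (w.succAbove v') ≤
        ∑ i ∈ Fintype.piFinset (fun _ : Fin (m + 1) => range (n + 1)),
          ∏ x, (if x = v' then θ ^ i x else 1) := by
      have e2 : ∀ i : Fin (m + 1) → ℕ, ∏ x, (if x = v' then θ ^ i x else 1) = θ ^ i v' := by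
        intro i
        rw [prod_ite_eq' univ v' fun x => θ ^ i x]
        simp
      simp only [e2]
      have e3 : ∑ j ∈ antidiagonalTuple (m + 1 + 1) n, θ ^ j (w.succAbove v') =
          ∑ i ∈ (antidiagonalTuple (m + 1 + 1) n).image (fun j => fun x => j (w.succAbove x)),
            θ ^ i v' := by
        rw [sum_image]
        intro j hj j' hj' h
        have hj1 := mem_antidiagonalTuple.1 hj
        have hj1' := mem_antidiagonalTuple.1 hj'
        rw [Fin.sum_univ_succAbove _ w] at hj1 hj1'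
        have h3 : ∑ x, j (w.succAbove x) = ∑ x, j' (w.succAbove x) :=
          sum_congr rfl fun x _ => congrFun h x
        funext x
        by_cases hx : x = w
        · subst hx; omega
        · obtain ⟨y, rfl⟩ := Fin.exists_succAbove_eq hx
          exact congrFun h y
      rw [e3]
      apply sum_le_sum_of_subset_of_nonneg
      · intro i hi
        rw [mem_image] at hi
        obtain ⟨j, hj, rfl⟩ := hi
        rw [Fintype.mem_piFinset]
        intro x
        rw [mem_range, Nat.lt_succ_iff]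
        rw [mem_antidiagonalTuple] at hj
        rw [← hj]
        exact single_le_sum (f := j) (fun _ _ => Nat.zero_le _) (mem_univ _)
      · intro i _ _
        positivity
    refine e1.trans ?_
    rw [← prod_univ_sum (fun _ : Fin (m + 1) => range (n + 1))
      (fun x s => if x = v' then θ ^ s else 1)]
    have e4 : ∀ x : Fin (m + 1), ∑ s ∈ range (n + 1), (if x = v' then θ ^ s else 1) ≤
        if x = v' then (1 - θ)⁻¹ else (n : ℝ) + 1 := by
      intro x
      split_ifs with h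
      · have h5 := geom_sum_mul_neg θ (n + 1)
        have h6 : 0 ≤ θ ^ (n + 1) := by positivity
        rw [← one_div, le_div_iff₀ (by linarith), h5]
        linarith
      · simp
    refine (prod_le_prod (fun x _ => sum_nonneg fun s _ => by split_ifs <;> positivity)
      fun x _ => e4 x).trans ?_
    rw [prod_ite, prod_const, prod_const]
    have e5 : (univ.filter fun x : Fin (m + 1) => x = v').card = 1 := by
      rw [filter_eq' univ v']; simp
    have e6 : (univ.filter fun x : Fin (m + 1) => ¬ x = v').card = m := by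
      rw [filter_not, card_sdiff_of_subset (filter_subset _ _), e5]; simp
    rw [e5, e6]
    simp [mul_comm]

lemma geo_lim (m : ℕ) (v : Fin (m + 1)) (θ : ℝ) (h0 : 0 ≤ θ) (h1 : θ < 1) :
    Tendsto (fun n : ℕ => (∑ j ∈ antidiagonalTuple (m + 1) n, θ ^ j v) / (n : ℝ) ^ m) atTop
      (𝓝 0) := by
  have hlow : ∀ n : ℕ, 0 ≤ (∑ j ∈ antidiagonalTuple (m + 1) n, θ ^ j v) / (n : ℝ) ^ m :=
    fun n => by
      have : 0 ≤ ∑ j ∈ antidiagonalTuple (m + 1) n, θ ^ j v := sum_nonneg fun j _ => by positivity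
      positivity
  rcases Nat.eq_zero_or_pos m with rfl | hm
  · refine squeeze_zero hlow (fun n => ?_) (tendsto_pow_atTop_nhds_zero_of_lt_one h0 h1)
    have := geo_tup 0 n v θ h0 h1
    rw [if_pos rfl] at this
    simpa using this
  · obtain ⟨m, rfl⟩ : ∃ k, m = k + 1 := ⟨m - 1, by omega⟩
    have e1 : Tendsto (fun n : ℕ => (((n : ℝ) + 1) / n) ^ m * (1 - θ)⁻¹ * (1 / (n : ℝ))) atTop
        (𝓝 (1 ^ m * (1 - θ)⁻¹ * 0)) := by
      refine ((Tendsto.pow ?_ m).mul_const _).mul tendsto_one_div_atTop_nhds_zero_nat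
      have h4 : Tendsto (fun n : ℕ => 1 + (1 : ℝ) / n) atTop (𝓝 (1 + 0)) :=
        (tendsto_const_div_atTop_nhds_zero_nat (1 : ℝ)).const_add 1
      rw [add_zero] at h4
      refine h4.congr' ?_
      filter_upwards [eventually_gt_atTop 0] with n hn
      have : (n : ℝ) ≠ 0 := by positivity
      field_simp
    rw [mul_zero] at e1
    refine tendsto_of_tendsto_of_tendsto_of_le_of_le' tendsto_const_nhds e1
      (Eventually.of_forall hlow) ?_
    filter_upwards [eventually_gt_atTop 0] with n hn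
    have hn0 : (0 : ℝ) < n := by exact_mod_cast hn
    have := geo_tup (m + 1) n v θ h0 h1
    rw [if_neg (by omega), Nat.add_sub_cancel] at this
    rw [div_le_iff₀ (by positivity)]
    refine this.trans (le_of_eq ?_)
    rw [div_pow]
    field_simp
    ring

/-! ### Iterated sums -/

section
variable {α : Type} {Q : Set α} {f : α → ℕ}

/-- Iterated sums. -/
noncomputable def D (hT : ∀ n, {t | t ∈ Q ∧ f t ≤ n}.Finite) (k n : ℕ) : ℝ :=
  ∑ t ∈ (hT n).toFinset, ((n - f t + k).choose k : ℝ)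

lemma D_succ (hT : ∀ n, {t | t ∈ Q ∧ f t ≤ n}.Finite) (k n : ℕ) :
    D hT (k + 1) (n + 1) = D hT k (n + 1) + D hT (k + 1) n := by
  unfold D
  have h1 : ∑ t ∈ (hT n).toFinset, ((n - f t + (k + 1)).choose (k + 1) : ℝ) =
      ∑ t ∈ (hT (n + 1)).toFinset, ((n + 1 - f t + k).choose (k + 1) : ℝ) := by
    have h2 : ∑ t ∈ (hT n).toFinset, ((n - f t + (k + 1)).choose (k + 1) : ℝ) =
        ∑ t ∈ (hT n).toFinset, ((n + 1 - f t + k).choose (k + 1) : ℝ) := by
      refine sum_congr rfl fun t ht => ?_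
      rw [Set.Finite.mem_toFinset] at ht
      have : n - f t + (k + 1) = n + 1 - f t + k := by
        have := ht.2
        omega
      rw [this]
    rw [h2]
    apply sum_subset
    · intro t ht
      rw [Set.Finite.mem_toFinset] at ht ⊢
      exact ⟨ht.1, ht.2.trans (Nat.le_succ n)⟩
    · intro t ht ht'
      rw [Set.Finite.mem_toFinset] at ht ht'
      have h3 : n < f t := by
        by_contra h
        exact ht' ⟨ht.1, by omega⟩
      have h4 : n + 1 - f t + k = k := by omega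
      rw [h4, Nat.choose_succ_self]
      simp
  rw [h1, ← sum_add_distrib]
  refine sum_congr rfl fun t ht => ?_
  have : n + 1 - f t + (k + 1) = (n + 1 - f t + k) + 1 := by omega
  rw [this, Nat.choose_succ_succ]
  push_cast
  ring

lemma D_zero (hT : ∀ n, {t | t ∈ Q ∧ f t ≤ n}.Finite) (n : ℕ) :
    D hT 0 n = ({t | t ∈ Q ∧ f t ≤ n}.ncard : ℝ) := by
  unfold D
  rw [Set.ncard_eq_toFinset_card _ (hT n)]
  simp

lemma ratio_lim (m : ℕ) : Tendsto (fun n : ℕ => ((n : ℝ) / ((n : ℝ) + 1)) ^ m) atTop (𝓝 1) := by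
  have := (tendsto_natCast_div_add_atTop (1 : ℝ)).pow m
  simpa using this

lemma D_lim (hT : ∀ n, {t | t ∈ Q ∧ f t ≤ n}.Finite) (l : ℝ) (hl : 1 < l) (m : ℕ) (k : ℕ)
    (κ : ℝ) (h : Tendsto (fun n : ℕ => D hT k n / (l ^ n * (n : ℝ) ^ m)) atTop (𝓝 κ)) :
    Tendsto (fun n : ℕ => D hT 0 n / (l ^ n * (n : ℝ) ^ m)) atTop (𝓝 (κ * (1 - 1 / l) ^ k)) := by
  have hl0 : 0 < l := by linarith
  induction k generalizing κ with
  | zero => simpa using h
  | succ k ih =>
    rw [pow_succ', ← mul_assoc]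
    apply ih
    have h' := h
    rw [← tendsto_add_atTop_iff_nat 1] at h ⊢
    have h1 := h.sub ((h'.mul (ratio_lim m)).mul_const (1 / l))
    have e : κ * (1 - 1 / l) = κ - κ * 1 * (1 / l) := by ring
    rw [e]
    refine h1.congr' ?_
    filter_upwards [eventually_gt_atTop 0] with n hn
    have hn0 : (0 : ℝ) < n := by exact_mod_cast hn
    have hn1 : (0 : ℝ) < (n : ℝ) + 1 := by linarith
    rw [D_succ]
    push_cast
    rw [div_pow]
    field_simp
    ring

end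

/-! ### Levels -/

section
variable {m : ℕ} (l : ℝ) (r : Fin (m + 1) → ℕ) {α : Type} (g : Fin (m + 1) → α → ℕ)

/-- The ratio of the side lengths. -/
noncomputable def mu (v : Fin (m + 1)) : ℝ := l ^ ((1 : ℝ) / r v)

open Classical in
/-- The level. -/
noncomputable def kk (v : Fin (m + 1)) (t : α) : ℕ :=
  if h : ∃ k, (g v t : ℝ) ≤ mu l r v ^ k then Nat.find h else 0

variable {l r g}

lemma mu_gt (hl : 1 < l) (hr : ∀ v, 1 ≤ r v) (v : Fin (m + 1)) : 1 < mu l r v := by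
  have : 0 < (r v : ℝ) := by exact_mod_cast hr v
  exact Real.one_lt_rpow hl (by positivity)

lemma mu_pow (hl : 1 < l) (hr : ∀ v, 1 ≤ r v) (v : Fin (m + 1)) : mu l r v ^ r v = l := by
  have : (r v : ℝ) ≠ 0 := by have := hr v; positivity
  rw [mu, ← Real.rpow_natCast, ← Real.rpow_mul (by linarith), one_div, inv_mul_cancel₀ this,
    Real.rpow_one]

lemma kk_le (hl : 1 < l) (hr : ∀ v, 1 ≤ r v) (v : Fin (m + 1)) (t : α) (j : ℕ) :
    kk l r g v t ≤ j ↔ (g v t : ℝ) ≤ mu l r v ^ j := by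
  have hmu := mu_gt hl hr v
  have h : ∃ k, (g v t : ℝ) ≤ mu l r v ^ k := by
    obtain ⟨k, hk⟩ := pow_unbounded_of_one_lt (g v t : ℝ) hmu
    exact ⟨k, hk.le⟩
  unfold kk
  rw [dif_pos h]
  constructor
  · intro hj
    exact (Nat.find_spec h).trans (pow_le_pow_right₀ hmu.le hj)
  · intro hj
    exact Nat.find_min' h hj

lemma pow_kk (hl : 1 < l) (hr : ∀ v, 1 ≤ r v) (v : Fin (m + 1)) (t : α) (ht : 1 ≤ g v t) :
    mu l r v ^ kk l r g v t ≤ mu l r v * g v t := by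
  have hmu := mu_gt hl hr v
  have hg : (1 : ℝ) ≤ g v t := by exact_mod_cast ht
  rcases Nat.eq_zero_or_pos (kk l r g v t) with h | h
  · rw [h, pow_zero]
    nlinarith
  · obtain ⟨k, hk⟩ : ∃ k, kk l r g v t = k + 1 := ⟨kk l r g v t - 1, by omega⟩
    have h1 : ¬ (kk l r g v t ≤ k) := by omega
    rw [kk_le hl hr] at h1
    push Not at h1
    rw [hk, pow_succ, mul_comm]
    exact mul_le_mul_of_nonneg_left h1.le (by linarith)

lemma prod_le (hl : 1 < l) (hr : ∀ v, 1 ≤ r v) (t : α) :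
    ∏ v, (g v t : ℝ) ^ r v ≤ l ^ ∑ v, kk l r g v t := by
  rw [← prod_pow_eq_pow_sum]
  refine prod_le_prod (fun v _ => by positivity) fun v _ => ?_
  have h := (kk_le (g := g) hl hr v t _).1 le_rfl
  calc (g v t : ℝ) ^ r v ≤ (mu l r v ^ kk l r g v t) ^ r v :=
        pow_le_pow_left₀ (by positivity) h _
    _ = l ^ kk l r g v t := by rw [← pow_mul, mul_comm, pow_mul, mu_pow hl hr]

lemma le_prod (hl : 1 < l) (hr : ∀ v, 1 ≤ r v) (t : α) (ht : ∀ v, 1 ≤ g v t) :
    l ^ ∑ v, kk l r g v t ≤ l ^ (m + 1) * ∏ v, (g v t : ℝ) ^ r v := by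
  have e : l ^ (m + 1) = ∏ _v : Fin (m + 1), l := by simp
  rw [← prod_pow_eq_pow_sum, e, ← prod_mul_distrib]
  refine prod_le_prod (fun v _ => by positivity) fun v _ => ?_
  have hmu := mu_gt hl hr v
  have h := pow_kk hl hr v t (ht v)
  calc l ^ kk l r g v t = (mu l r v ^ kk l r g v t) ^ r v := by
        rw [← pow_mul, mul_comm, pow_mul, mu_pow hl hr]
    _ ≤ (mu l r v * g v t) ^ r v := pow_le_pow_left₀ (by positivity) h _
    _ = l * (g v t : ℝ) ^ r v := by rw [mul_pow, mu_pow hl hr]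

variable {Q : Set α}

lemma hT (hl : 1 < l) (hr : ∀ v, 1 ≤ r v)
    (hfin : ∀ X : Fin (m + 1) → ℕ, {t | t ∈ Q ∧ ∀ v, g v t ≤ X v}.Finite) (n : ℕ) :
    {t | t ∈ Q ∧ ∑ v, kk l r g v t ≤ n}.Finite := by
  refine (hfin fun v => ⌊mu l r v ^ n⌋₊).subset fun t ht => ⟨ht.1, fun v => ?_⟩
  apply Nat.le_floor
  rw [← kk_le hl hr]
  exact (single_le_sum (f := fun v => kk l r g v t) (fun _ _ => Nat.zero_le _)
    (mem_univ v)).trans ht.2

lemma sum_boxes (hl : 1 < l) (hr : ∀ v, 1 ≤ r v)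
    (hfin : ∀ X : Fin (m + 1) → ℕ, {t | t ∈ Q ∧ ∀ v, g v t ≤ X v}.Finite) (n : ℕ) :
    ∑ j ∈ antidiagonalTuple (m + 1) n, ({t | t ∈ Q ∧ ∀ v, kk l r g v t ≤ j v}.ncard : ℝ) =
      D (hT hl hr hfin) m n := by
  classical
  unfold D
  have e1 : ∀ j ∈ antidiagonalTuple (m + 1) n,
      ({t | t ∈ Q ∧ ∀ v, kk l r g v t ≤ j v}.ncard : ℝ) =
      ∑ t ∈ (hT hl hr hfin n).toFinset, (if ∀ v, kk l r g v t ≤ j v then (1 : ℝ) else 0) := by
    intro j hj
    rw [mem_antidiagonalTuple] at hj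
    rw [sum_boole, ← Set.ncard_coe_finset]
    congr 2
    ext t
    simp only [coe_filter, Set.Finite.mem_toFinset, Set.mem_setOf_eq]
    constructor
    · rintro ⟨h1, h2⟩
      exact ⟨⟨h1, by rw [← hj]; exact sum_le_sum fun v _ => h2 v⟩, h2⟩
    · rintro ⟨⟨h1, _⟩, h2⟩
      exact ⟨h1, h2⟩
  rw [sum_congr rfl e1, sum_comm]
  refine sum_congr rfl fun t ht => ?_
  rw [Set.Finite.mem_toFinset] at ht
  rw [sum_boole, card_ge m n (fun v => kk l r g v t) ht.2]

lemma one_sub_prod_le {ι : Type} (s : Finset ι) (b : ι → ℝ) (h0 : ∀ i, 0 ≤ b i)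
    (h1 : ∀ i, b i ≤ 1) : 1 - ∏ i ∈ s, b i ≤ ∑ i ∈ s, (1 - b i) := by
  classical
  induction s using Finset.induction_on with
  | empty => simp
  | insert a s ha ih =>
    rw [prod_insert ha, sum_insert ha]
    have h2 : ∏ i ∈ s, b i ≤ 1 := prod_le_one (fun i _ => h0 i) fun i _ => h1 i
    have h3 := h0 a
    have h4 := h1 a
    nlinarith

lemma floor_ge {y : ℝ} (hy : 1 ≤ y) : y / 2 ≤ (⌊y⌋₊ : ℝ) := by
  have h1 : 1 ≤ ⌊y⌋₊ := Nat.le_floor (by simpa using hy)
  have h2 : (1 : ℝ) ≤ (⌊y⌋₊ : ℝ) := by exact_mod_cast h1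
  have h3 := Nat.sub_one_lt_floor y
  by_cases h : y ≤ 2
  · linarith
  · push Not at h
    linarith

lemma box (hl : 1 < l) (hr : ∀ v, 1 ≤ r v) (c C δ : ℝ) (hδ : 0 < δ)
    (hF : ∀ X : Fin (m + 1) → ℕ, (∀ v, 1 ≤ X v) →
      |({t | t ∈ Q ∧ ∀ v, g v t ≤ X v}.ncard : ℝ) - c * ∏ v, (X v : ℝ) ^ r v| ≤
        C * (∏ v, (X v : ℝ) ^ r v) * ∑ v, (X v : ℝ) ^ (-δ)) (n : ℕ)
    (j : Fin (m + 1) → ℕ) (hj : ∑ v, j v = n) :
    |({t | t ∈ Q ∧ ∀ v, kk l r g v t ≤ j v}.ncard : ℝ) - c * l ^ n| ≤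
      l ^ n * ∑ v, (|c| * r v * ((mu l r v)⁻¹) ^ j v + |C| * 2 ^ δ * ((mu l r v) ^ (-δ)) ^ j v) := by
  have hmu := fun v => mu_gt hl hr v
  have hy1 : ∀ v, 1 ≤ mu l r v ^ j v := fun v => one_le_pow₀ (hmu v).le
  have hX1 : ∀ v, 1 ≤ ⌊mu l r v ^ j v⌋₊ := fun v => Nat.le_floor (by simpa using hy1 v)
  have hset : {t | t ∈ Q ∧ ∀ v, kk l r g v t ≤ j v} =
      {t | t ∈ Q ∧ ∀ v, g v t ≤ ⌊mu l r v ^ j v⌋₊} := by
    ext t
    simp only [Set.mem_setOf_eq]
    refine and_congr_right fun _ => forall_congr' fun v => ?_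
    rw [kk_le hl hr, Nat.le_floor_iff (by linarith [hy1 v])]
  have h := hF _ hX1
  rw [← hset] at h
  set P : ℝ := ∏ v, ((⌊mu l r v ^ j v⌋₊ : ℕ) : ℝ) ^ r v with hP
  have hln : ∏ v, (mu l r v ^ j v) ^ r v = l ^ n := by
    rw [← hj, ← prod_pow_eq_pow_sum]
    refine prod_congr rfl fun v _ => ?_
    rw [← pow_mul, mul_comm, pow_mul, mu_pow hl hr]
  have hfl : ∀ v, ((⌊mu l r v ^ j v⌋₊ : ℕ) : ℝ) ≤ mu l r v ^ j v :=
    fun v => Nat.floor_le (by linarith [hy1 v])
  have hl0 : 0 < l := by linarith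
  have hP1 : P ≤ l ^ n := by
    rw [hP, ← hln]
    exact prod_le_prod (fun v _ => by positivity) fun v _ =>
      pow_le_pow_left₀ (by positivity) (hfl v) _
  have hP0 : 0 ≤ P := prod_nonneg fun v _ => by positivity
  have hP2 : l ^ n - P ≤ l ^ n * ∑ v, (r v : ℝ) * ((mu l r v)⁻¹) ^ j v := by
    have e1 : P = l ^ n * ∏ v, (((⌊mu l r v ^ j v⌋₊ : ℕ) : ℝ) / (mu l r v ^ j v)) ^ r v := by
      rw [hP, ← hln, ← prod_mul_distrib]
      refine prod_congr rfl fun v _ => ?_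
      have := hy1 v
      have h0 : 0 < mu l r v ^ j v := by linarith
      rw [div_pow]
      field_simp
    have e2 := one_sub_prod_le univ
      (fun v => (((⌊mu l r v ^ j v⌋₊ : ℕ) : ℝ) / (mu l r v ^ j v)) ^ r v)
      (fun v => by have := hy1 v; positivity)
      (fun v => by
        have := hy1 v
        apply pow_le_one₀ (by positivity)
        rw [div_le_one (by linarith)]
        exact hfl v)
    have e3 : l ^ n - P =
        l ^ n * (1 - ∏ v, (((⌊mu l r v ^ j v⌋₊ : ℕ) : ℝ) / (mu l r v ^ j v)) ^ r v) := by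
      rw [e1]; ring
    rw [e3]
    refine mul_le_mul_of_nonneg_left (e2.trans (sum_le_sum fun v _ => ?_)) (by positivity)
    have h0 : 0 < mu l r v ^ j v := by have := hy1 v; linarith
    have h5 : (((⌊mu l r v ^ j v⌋₊ : ℕ) : ℝ) / (mu l r v ^ j v)) =
        1 + -(1 - ((⌊mu l r v ^ j v⌋₊ : ℕ) : ℝ) / (mu l r v ^ j v)) := by ring
    have h6 : ((⌊mu l r v ^ j v⌋₊ : ℕ) : ℝ) / (mu l r v ^ j v) ≤ 1 := by
      rw [div_le_one h0]; exact hfl v
    have h7 : 0 ≤ ((⌊mu l r v ^ j v⌋₊ : ℕ) : ℝ) / (mu l r v ^ j v) := by positivity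
    have h8 := one_add_mul_le_pow (a := -(1 - ((⌊mu l r v ^ j v⌋₊ : ℕ) : ℝ) / (mu l r v ^ j v)))
      (by linarith) (r v)
    rw [← h5] at h8
    have h9 : 1 - ((⌊mu l r v ^ j v⌋₊ : ℕ) : ℝ) / (mu l r v ^ j v) ≤ ((mu l r v)⁻¹) ^ j v := by
      rw [inv_pow, ← one_div, ← sub_nonneg]
      have : 1 / mu l r v ^ j v - (1 - ((⌊mu l r v ^ j v⌋₊ : ℕ) : ℝ) / (mu l r v ^ j v)) =
        (((⌊mu l r v ^ j v⌋₊ : ℕ) : ℝ) - (mu l r v ^ j v - 1)) / (mu l r v ^ j v) := by
        field_simp; ring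
      rw [this]
      have := (Nat.sub_one_lt_floor (mu l r v ^ j v)).le
      apply div_nonneg (by linarith) h0.le
    have h10 := mul_le_mul_of_nonneg_left h9 (Nat.cast_nonneg (r v) : (0:ℝ) ≤ r v)
    nlinarith
  have hS : ∑ v, ((⌊mu l r v ^ j v⌋₊ : ℕ) : ℝ) ^ (-δ) ≤
      ∑ v, 2 ^ δ * ((mu l r v) ^ (-δ)) ^ j v := by
    refine sum_le_sum fun v _ => ?_
    have h0 := hy1 v
    have hm0 : 0 < mu l r v := by linarith [hmu v]
    calc ((⌊mu l r v ^ j v⌋₊ : ℕ) : ℝ) ^ (-δ) ≤ (mu l r v ^ j v / 2) ^ (-δ) :=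
          Real.rpow_le_rpow_of_nonpos (by linarith) (floor_ge h0) (by linarith)
      _ = 2 ^ δ * ((mu l r v) ^ (-δ)) ^ j v := by
          rw [Real.div_rpow (by linarith) (by norm_num), Real.rpow_neg (by norm_num : (0:ℝ) ≤ 2),
            div_inv_eq_mul, mul_comm, ← Real.rpow_natCast, ← Real.rpow_natCast,
            ← Real.rpow_mul hm0.le, ← Real.rpow_mul hm0.le, mul_comm (-δ)]
  have hS0 : 0 ≤ ∑ v, ((⌊mu l r v ^ j v⌋₊ : ℕ) : ℝ) ^ (-δ) := sum_nonneg fun v _ => by positivity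
  have d1 : |({t | t ∈ Q ∧ ∀ v, kk l r g v t ≤ j v}.ncard : ℝ) - c * P| ≤
      |C| * l ^ n * ∑ v, 2 ^ δ * ((mu l r v) ^ (-δ)) ^ j v := by
    refine h.trans ?_
    calc C * P * ∑ v, ((⌊mu l r v ^ j v⌋₊ : ℕ) : ℝ) ^ (-δ)
        ≤ |C| * P * ∑ v, ((⌊mu l r v ^ j v⌋₊ : ℕ) : ℝ) ^ (-δ) := by
          have := le_abs_self C
          gcongr
      _ ≤ _ := by gcongr
  have d2 : |c * P - c * l ^ n| ≤ |c| * (l ^ n * ∑ v, (r v : ℝ) * ((mu l r v)⁻¹) ^ j v) := by
    rw [← mul_sub, abs_mul]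
    apply mul_le_mul_of_nonneg_left _ (abs_nonneg c)
    rw [abs_sub_comm, abs_of_nonneg (by linarith)]
    exact hP2
  have d3 : ({t | t ∈ Q ∧ ∀ v, kk l r g v t ≤ j v}.ncard : ℝ) - c * l ^ n =
      (({t | t ∈ Q ∧ ∀ v, kk l r g v t ≤ j v}.ncard : ℝ) - c * P) + (c * P - c * l ^ n) := by ring
  rw [d3]
  refine (abs_add_le _ _).trans ((add_le_add d1 d2).trans (le_of_eq ?_))
  rw [sum_add_distrib, mul_add]
  simp only [mul_assoc, ← mul_sum]
  ring

lemma D_top (hl : 1 < l) (hr : ∀ v, 1 ≤ r v)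
    (hfin : ∀ X : Fin (m + 1) → ℕ, {t | t ∈ Q ∧ ∀ v, g v t ≤ X v}.Finite) (c C δ : ℝ) (hδ : 0 < δ)
    (hF : ∀ X : Fin (m + 1) → ℕ, (∀ v, 1 ≤ X v) →
      |({t | t ∈ Q ∧ ∀ v, g v t ≤ X v}.ncard : ℝ) - c * ∏ v, (X v : ℝ) ^ r v| ≤
        C * (∏ v, (X v : ℝ) ^ r v) * ∑ v, (X v : ℝ) ^ (-δ)) :
    Tendsto (fun n : ℕ => D (hT hl hr hfin) m n / (l ^ n * (n : ℝ) ^ m)) atTop
      (𝓝 (c / m.factorial)) := by
  have hl0 : 0 < l := by linarith
  have hmu := fun v => mu_gt hl hr v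
  -- the error term
  set E : ℕ → ℝ := fun n => ∑ v, (|c| * r v *
    ((∑ j ∈ antidiagonalTuple (m + 1) n, ((mu l r v)⁻¹) ^ j v) / (n : ℝ) ^ m) + |C| * 2 ^ δ *
    ((∑ j ∈ antidiagonalTuple (m + 1) n, ((mu l r v) ^ (-δ)) ^ j v) / (n : ℝ) ^ m)) with hE
  have hE0 : Tendsto E atTop (𝓝 0) := by
    have : Tendsto E atTop (𝓝 (∑ v, (|c| * r v * 0 + |C| * 2 ^ δ * 0))) := by
      rw [hE]
      refine tendsto_finsetSum _ fun v _ => ?_
      refine ((geo_lim m v _ ?_ ?_).const_mul _).add ((geo_lim m v _ ?_ ?_).const_mul _)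
      · have := hmu v; positivity
      · exact inv_lt_one_of_one_lt₀ (hmu v)
      · have := hmu v; positivity
      · exact Real.rpow_lt_one_of_one_lt_of_neg (hmu v) (by linarith)
    simpa using this
  have hM := (tup_tendsto m).const_mul c
  rw [mul_one_div] at hM
  have h1 : ∀ᶠ n : ℕ in atTop, |D (hT hl hr hfin) m n / (l ^ n * (n : ℝ) ^ m) -
      c * (((antidiagonalTuple (m + 1) n).card : ℝ) / (n : ℝ) ^ m)| ≤ E n := by
    filter_upwards [eventually_gt_atTop 0] with n hn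
    have hn0 : (0 : ℝ) < n := by exact_mod_cast hn
    have e1 : D (hT hl hr hfin) m n / (l ^ n * (n : ℝ) ^ m) -
      c * (((antidiagonalTuple (m + 1) n).card : ℝ) / (n : ℝ) ^ m) =
      (∑ j ∈ antidiagonalTuple (m + 1) n,
        (({t | t ∈ Q ∧ ∀ v, kk l r g v t ≤ j v}.ncard : ℝ) - c * l ^ n)) /
        (l ^ n * (n : ℝ) ^ m) := by
      rw [sum_sub_distrib, sum_boxes hl hr hfin, sum_const, nsmul_eq_mul]
      field_simp
    rw [e1, abs_div, abs_of_pos (by positivity : 0 < l ^ n * (n : ℝ) ^ m),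
      div_le_iff₀ (by positivity)]
    refine (abs_sum_le_sum_abs _ _).trans ?_
    refine (sum_le_sum fun j hj => box hl hr c C δ hδ hF n j (mem_antidiagonalTuple.1 hj)).trans ?_
    rw [← mul_sum, sum_comm, hE]
    simp only
    rw [sum_mul]
    rw [mul_sum]
    apply le_of_eq
    refine sum_congr rfl fun v _ => ?_
    rw [sum_add_distrib, ← mul_sum, ← mul_sum]
    field_simp
  have h2 : Tendsto (fun n : ℕ => D (hT hl hr hfin) m n / (l ^ n * (n : ℝ) ^ m) -
      c * (((antidiagonalTuple (m + 1) n).card : ℝ) / (n : ℝ) ^ m)) atTop (𝓝 0) :=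
    squeeze_zero_norm' (by simpa only [Real.norm_eq_abs] using h1) hE0
  have h3 := h2.add hM
  simpa using h3

lemma N_fin (hr : ∀ v, 1 ≤ r v) (hg : ∀ t ∈ Q, ∀ v, 1 ≤ g v t)
    (hfin : ∀ X : Fin (m + 1) → ℕ, {t | t ∈ Q ∧ ∀ v, g v t ≤ X v}.Finite) (B : ℝ) :
    {t | t ∈ Q ∧ ∏ v, (g v t : ℝ) ^ r v ≤ B}.Finite := by
  refine (hfin fun _ => ⌊B⌋₊).subset fun t ht => ⟨ht.1, fun v => ?_⟩
  apply Nat.le_floor
  refine le_trans ?_ ht.2
  have h1 : ∀ u, (1 : ℝ) ≤ (g u t : ℝ) ^ r u := fun u => by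
    have : (1 : ℝ) ≤ g u t := by exact_mod_cast hg t ht.1 u
    exact one_le_pow₀ this
  rw [← mul_prod_erase univ _ (mem_univ v)]
  have h2 : (1 : ℝ) ≤ ∏ u ∈ univ.erase v, (g u t : ℝ) ^ r u := by
    have := prod_le_prod (s := univ.erase v) (f := fun _ => (1 : ℝ))
      (g := fun u => (g u t : ℝ) ^ r u) (fun _ _ => zero_le_one) (fun u _ => h1 u)
    simpa using this
  have h3 : (g v t : ℝ) ≤ (g v t : ℝ) ^ r v := by
    have : (1 : ℝ) ≤ g v t := by exact_mod_cast hg t ht.1 v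
    exact le_self_pow₀ this (by have := hr v; omega)
  nlinarith [h1 v]

lemma lower (hl : 1 < l) (hr : ∀ v, 1 ≤ r v) (hg : ∀ t ∈ Q, ∀ v, 1 ≤ g v t)
    (hfin : ∀ X : Fin (m + 1) → ℕ, {t | t ∈ Q ∧ ∀ v, g v t ≤ X v}.Finite) (n : ℕ) (B : ℝ)
    (hB : l ^ n ≤ B) :
    D (hT hl hr hfin) 0 n ≤ ({t | t ∈ Q ∧ ∏ v, (g v t : ℝ) ^ r v ≤ B}.ncard : ℝ) := by
  rw [D_zero, Nat.cast_le]
  apply Set.ncard_le_ncard _ (N_fin hr hg hfin B)
  rintro t ⟨h1, h2⟩
  exact ⟨h1, (prod_le hl hr t).trans ((pow_le_pow_right₀ hl.le h2).trans hB)⟩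

lemma upper (hl : 1 < l) (hr : ∀ v, 1 ≤ r v) (hg : ∀ t ∈ Q, ∀ v, 1 ≤ g v t)
    (hfin : ∀ X : Fin (m + 1) → ℕ, {t | t ∈ Q ∧ ∀ v, g v t ≤ X v}.Finite) (n : ℕ) (B : ℝ)
    (hB : B ≤ l ^ (n + 1)) :
    ({t | t ∈ Q ∧ ∏ v, (g v t : ℝ) ^ r v ≤ B}.ncard : ℝ) ≤ D (hT hl hr hfin) 0 (n + (m + 2)) := by
  rw [D_zero, Nat.cast_le]
  apply Set.ncard_le_ncard _ (hT hl hr hfin _)
  rintro t ⟨h1, h2⟩
  refine ⟨h1, ?_⟩
  have h3 := (le_prod (l := l) (r := r) hl hr t (hg t h1)).trans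
    (mul_le_mul_of_nonneg_left (h2.trans hB) (by positivity))
  rw [← pow_add] at h3
  have h4 := (pow_le_pow_iff_right₀ hl).1 h3
  omega

lemma lim_one (m : ℕ) (c : ℝ) :
    Tendsto (fun l : ℝ => c * (1 - 1 / l) ^ m / (l * Real.log l ^ m)) (𝓝[>] 1) (𝓝 c) ∧
    Tendsto (fun l : ℝ => c * (1 - 1 / l) ^ m * l ^ (m + 2) / (Real.log l ^ m)) (𝓝[>] 1)
      (𝓝 c) := by
  have h1 : Tendsto (fun l : ℝ => Real.log l / (l - 1)) (𝓝[>] 1) (𝓝 1) := by
    have h2 := (Real.hasDerivAt_log (one_ne_zero)).tendsto_slope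
    rw [inv_one] at h2
    have h3 := h2.mono_left (nhdsWithin_mono 1 (fun x hx => ne_of_gt hx) : 𝓝[>] (1 : ℝ) ≤ 𝓝[≠] 1)
    refine h3.congr fun l => ?_
    rw [slope_def_field, Real.log_one, sub_zero]
  have h4 : Tendsto (fun l : ℝ => l) (𝓝[>] 1) (𝓝 1) := tendsto_id.mono_left nhdsWithin_le_nhds
  have h5 : Tendsto (fun l : ℝ => (Real.log l / (l - 1))⁻¹ ^ m) (𝓝[>] 1) (𝓝 1) := by
    have := (h1.inv₀ one_ne_zero).pow m
    simpa using this
  constructor
  · have h6 : Tendsto (fun l : ℝ => c * (Real.log l / (l - 1))⁻¹ ^ m * (l⁻¹) ^ (m + 1)) (𝓝[>] 1)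
        (𝓝 (c * 1 * 1)) := by
      refine (h5.const_mul c).mul ?_
      have := (h4.inv₀ one_ne_zero).pow (m + 1)
      simpa using this
    rw [mul_one, mul_one] at h6
    refine h6.congr' ?_
    filter_upwards [self_mem_nhdsWithin] with l hl
    have hl1 : (1 : ℝ) < l := hl
    have hl0 : l ≠ 0 := by linarith
    have hlog : Real.log l ≠ 0 := (Real.log_pos hl1).ne'
    have hl2 : l - 1 ≠ 0 := by linarith
    have e : (1 - 1 / l) = (l - 1) / l := by field_simp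
    rw [e, inv_div, div_pow, div_pow, inv_pow, pow_succ]
    field_simp
  · have h6 : Tendsto (fun l : ℝ => c * (Real.log l / (l - 1))⁻¹ ^ m * l ^ 2) (𝓝[>] 1)
        (𝓝 (c * 1 * 1)) := by
      refine (h5.const_mul c).mul ?_
      have := h4.pow 2
      simpa using this
    rw [mul_one, mul_one] at h6
    refine h6.congr' ?_
    filter_upwards [self_mem_nhdsWithin] with l hl
    have hl1 : (1 : ℝ) < l := hl
    have hl0 : l ≠ 0 := by linarith
    have hlog : Real.log l ≠ 0 := (Real.log_pos hl1).ne'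
    have hl2 : l - 1 ≠ 0 := by linarith
    have e : (1 - 1 / l) = (l - 1) / l := by field_simp
    rw [e, inv_div, div_pow, div_pow, pow_add]
    field_simp

end

end ModH3

open ModH3

theorem h3 : StmtH3 := by
  intro m r hr α Q g hg hfin c C δ hδ hF
  have hD : ∀ (l : ℝ) (hl : 1 < l), Tendsto (fun n : ℕ => D (hT hl hr hfin) 0 n /
      (l ^ n * (n : ℝ) ^ m)) atTop (𝓝 (c / m.factorial * (1 - 1 / l) ^ m)) :=
    fun l hl => D_lim _ l hl m m _ (D_top hl hr hfin c C δ hδ hF)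
  -- the scale
  have hfl : ∀ (l : ℝ), 1 < l → Tendsto (fun B : ℝ => ⌊Real.logb l B⌋₊) atTop atTop :=
    fun l hl => tendsto_nat_floor_atTop.comp (Real.tendsto_logb_atTop hl)
  have hsc : ∀ (l : ℝ), 1 < l → ∀ B : ℝ, l ≤ B → l ^ ⌊Real.logb l B⌋₊ ≤ B ∧
      B ≤ l ^ (⌊Real.logb l B⌋₊ + 1) ∧ 1 ≤ ⌊Real.logb l B⌋₊ ∧
      (⌊Real.logb l B⌋₊ : ℝ) * Real.log l ≤ Real.log B ∧
      Real.log B ≤ ((⌊Real.logb l B⌋₊ : ℝ) + 1) * Real.log l := by
    intro l hl B hB
    have hB0 : 0 < B := by linarith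
    have hl0 : 0 < l := by linarith
    have hlog : 0 < Real.log l := Real.log_pos hl
    have h1 : 1 ≤ Real.logb l B := by
      rw [Real.le_logb_iff_rpow_le hl hB0, Real.rpow_one]; exact hB
    have h2 : (⌊Real.logb l B⌋₊ : ℝ) ≤ Real.logb l B := Nat.floor_le (by linarith)
    have h3 : Real.logb l B ≤ (⌊Real.logb l B⌋₊ : ℝ) + 1 := (Nat.lt_floor_add_one _).le
    have e : Real.logb l B * Real.log l = Real.log B := by
      rw [Real.logb]; field_simp
    refine ⟨?_, ?_, Nat.le_floor (by simpa using h1), ?_, ?_⟩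
    · rw [← Real.rpow_natCast, ← Real.le_logb_iff_rpow_le hl hB0]; exact h2
    · rw [← Real.rpow_natCast, ← Real.logb_le_iff_le_rpow hl hB0]; push_cast; exact h3
    · rw [← e]; exact mul_le_mul_of_nonneg_right h2 hlog.le
    · rw [← e]; exact mul_le_mul_of_nonneg_right h3 hlog.le
  obtain ⟨hlo, hup⟩ := lim_one m (c / m.factorial)
  rw [tendsto_order]
  constructor
  · intro a ha
    obtain ⟨l, hl, hla⟩ := (eventually_mem_nhdsWithin.and (hlo.eventually (lt_mem_nhds ha))).exists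
    have hl1 : (1 : ℝ) < l := hl
    have hlog : 0 < Real.log l := Real.log_pos hl1
    have h1 : Tendsto (fun n : ℕ => D (hT hl1 hr hfin) 0 n / (l ^ n * (n : ℝ) ^ m) *
        ((n : ℝ) / ((n : ℝ) + 1)) ^ m * (1 / (l * Real.log l ^ m))) atTop
        (𝓝 (c / m.factorial * (1 - 1 / l) ^ m * 1 * (1 / (l * Real.log l ^ m)))) :=
      ((hD l hl1).mul (ratio_lim m)).mul_const _
    rw [mul_one, mul_one_div] at h1
    have h2 := ((h1.comp (hfl l hl1)).eventually (lt_mem_nhds hla))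
    filter_upwards [h2, eventually_ge_atTop l] with B hB2 hB
    refine hB2.trans_le ?_
    obtain ⟨s1, s2, s3, s4, s5⟩ := hsc l hl1 B hB
    simp only [Function.comp]
    set n := ⌊Real.logb l B⌋₊ with hn
    have hn0 : (0 : ℝ) < n := by exact_mod_cast s3
    have hB0 : 0 < B := by linarith
    have hlB : 0 < Real.log B := Real.log_pos (by linarith)
    have hl0 : 0 < l := by linarith
    have k1 := lower hl1 hr hg hfin n B s1
    have k2 : 0 ≤ D (hT hl1 hr hfin) 0 n := by rw [D_zero]; positivity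
    calc D (hT hl1 hr hfin) 0 n / (l ^ n * (n : ℝ) ^ m) * ((n : ℝ) / ((n : ℝ) + 1)) ^ m *
          (1 / (l * Real.log l ^ m))
        = D (hT hl1 hr hfin) 0 n / (l ^ (n + 1) * (((n : ℝ) + 1) * Real.log l) ^ m) := by
          rw [div_pow, mul_pow, pow_succ]
          field_simp
      _ ≤ D (hT hl1 hr hfin) 0 n / (B * Real.log B ^ m) := by
          apply div_le_div_of_nonneg_left k2 (by positivity)
          gcongr
      _ ≤ _ := by gcongr
  · intro a ha
    obtain ⟨l, hl, hla⟩ := (eventually_mem_nhdsWithin.and (hup.eventually (gt_mem_nhds ha))).exists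
    have hl1 : (1 : ℝ) < l := hl
    have hlog : 0 < Real.log l := Real.log_pos hl1
    have h1 : Tendsto (fun n : ℕ => D (hT hl1 hr hfin) 0 (n + (m + 2)) /
        (l ^ (n + (m + 2)) * ((n + (m + 2) : ℕ) : ℝ) ^ m) *
        (1 + ((m + 2 : ℕ) : ℝ) / (n : ℝ)) ^ m * (l ^ (m + 2) / (Real.log l ^ m))) atTop
        (𝓝 (c / m.factorial * (1 - 1 / l) ^ m * 1 * (l ^ (m + 2) / (Real.log l ^ m)))) := by
      refine (((hD l hl1).comp (tendsto_add_atTop_nat (m + 2))).mul ?_).mul_const _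
      have h4 : Tendsto (fun n : ℕ => 1 + ((m + 2 : ℕ) : ℝ) / n) atTop (𝓝 (1 + 0)) :=
        (tendsto_const_div_atTop_nhds_zero_nat _).const_add 1
      have := h4.pow m
      simpa using this
    rw [mul_one, ← mul_div_assoc] at h1
    have h2 := ((h1.comp (hfl l hl1)).eventually (gt_mem_nhds hla))
    filter_upwards [h2, eventually_ge_atTop l] with B hB2 hB
    refine lt_of_le_of_lt ?_ hB2
    obtain ⟨s1, s2, s3, s4, s5⟩ := hsc l hl1 B hB
    simp only [Function.comp]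
    set n := ⌊Real.logb l B⌋₊ with hn
    have hn0 : (0 : ℝ) < n := by exact_mod_cast s3
    have hB0 : 0 < B := by linarith
    have hlB : 0 < Real.log B := Real.log_pos (by linarith)
    have hl0 : 0 < l := by linarith
    have k1 := upper hl1 hr hg hfin n B s2
    have k2 : 0 ≤ D (hT hl1 hr hfin) 0 (n + (m + 2)) := by rw [D_zero]; positivity
    calc ({t | t ∈ Q ∧ ∏ v, (g v t : ℝ) ^ r v ≤ B}.ncard : ℝ) / (B * Real.log B ^ m)
        ≤ D (hT hl1 hr hfin) 0 (n + (m + 2)) / (B * Real.log B ^ m) := by gcongr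
      _ ≤ D (hT hl1 hr hfin) 0 (n + (m + 2)) / (l ^ n * ((n : ℝ) * Real.log l) ^ m) := by
          apply div_le_div_of_nonneg_left k2 (by positivity)
          gcongr
      _ = _ := by
          have e1 : (1 + ((m + 2 : ℕ) : ℝ) / (n : ℝ)) = ((n + (m + 2) : ℕ) : ℝ) / n := by
            push_cast; field_simp
          have e2 : ((n + (m + 2) : ℕ) : ℝ) ≠ 0 := by positivity
          rw [e1, div_pow, mul_pow, pow_add l n (m + 2)]
          field_simp

end Pool.Agent.T6.H81.BG
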