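import Mathlib
import Pool.Agent.T6.H81.BG.Defs
import Pool.Agent.T6.H81.BA.L2

/-!
# Module L3: lattice points in translated cones
-/

set_option autoImplicit false

namespace Pool.Agent.T6.H81.BG.L3

open Module MeasureTheory Metric ZSpan
open scoped ENNReal Topology
open Pool.Agent.T6.H68.BL
open Pool.Agent.T6.H81.BA.L2

section
variable {E : Type*} [NormedAddCommGroup E] [NormedSpace ℝ E] [FiniteDimensional ℝ E]
  (L : Submodule ℤ E) [DiscreteTopology L]

/-- doubling for points in a subspace -/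
theorem doubling_sub (W : Submodule ℝ E) {ρ Z : ℝ} (hρ : 0 < ρ) (hZ : ρ ≤ Z)
    (hW : ∀ v ∈ GG L Z, v ∈ W) :
    ((GG L Z).ncard : ℝ) ≤ (2 * Z / ρ + 1) ^ finrank ℝ W * ((GG L ρ).ncard : ℝ) := by
  set L' : Submodule ℤ W := L.comap (W.subtype.restrictScalars ℤ) with hL'
  have hmem : ∀ w : W, w ∈ L' ↔ (w : E) ∈ L := fun w => Iff.rfl
  let j : L' → L := fun w => ⟨(w.1 : E), w.2⟩
  have hj : Function.Injective j := by
    intro a b hab
    have h := congrArg Subtype.val hab
    apply Subtype.ext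
    apply Subtype.ext
    exact h
  have hjc : Continuous j := by
    apply Continuous.subtype_mk
    exact continuous_subtype_val.comp continuous_subtype_val
  have hdisc : DiscreteTopology L' := DiscreteTopology.of_continuous_injective hjc hj
  have himg : ∀ t : ℝ, t ≤ Z → ((↑) : W → E) '' (GG L' t) = GG L t := by
    intro t ht
    ext v
    constructor
    · rintro ⟨w, ⟨h1, h2⟩, rfl⟩
      exact ⟨h1, h2⟩
    · rintro ⟨h1, h2⟩
      have h3 := hW v ⟨h1, h2.trans ht⟩
      exact ⟨⟨v, h3⟩, ⟨h1, h2⟩, rfl⟩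
  have hcard : ∀ t : ℝ, t ≤ Z → (GG L' t).ncard = (GG L t).ncard := by
    intro t ht
    rw [← himg t ht, Set.ncard_image_of_injective _ Subtype.coe_injective]
  have h := doubling L' (r := ρ) (Y := Z) hρ (hρ.le.trans hZ)
  rw [hcard Z le_rfl, hcard ρ hZ] at h
  exact h

end

/-- constants -/
noncomputable def A1 (m : ℕ) : ℝ := (8 * ((m + 1 : ℕ) : ℝ) + 1) ^ (m + 1) * 3 ^ m * 4 ^ (m + 1)

/-- the constant -/
noncomputable def K3 (m n : ℕ) : ℝ :=
  (5 * ((m + 1 : ℕ) : ℝ) ^ 2 * 2 ^ m + n * (8 * 4 ^ (m + 1) * ((m + 1 : ℕ) : ℝ))) * A1 m +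
    (5 ^ m + (64 * ((m + 1 : ℕ) : ℝ) + 1) ^ (m + 1) * 6 ^ m)

theorem main (m n : ℕ) {E : Type*} [NormedAddCommGroup E] [NormedSpace ℝ E]
    [FiniteDimensional ℝ E] (L : Submodule ℤ E) [DiscreteTopology L] [IsZLattice ℝ L]
    (hE : finrank ℝ E = m + 1) (f : Fin n → E →ₗ[ℝ] ℝ) (σ : Fin n → Bool) :
    ∃ c : ℝ, 0 ≤ c ∧ ∀ ρ : ℝ, 0 < ρ →
      c * ρ ^ (m + 1) ≤ K3 m n * ((GG L ρ).ncard : ℝ) ∧
      ∀ (u : E) (Y : ℝ), ρ ≤ Y →
        |((TD L f σ u Y).ncard : ℝ) - c * Y ^ (m + 1)| ≤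
          K3 m n * (Y / ρ) ^ m * ((GG L ρ).ncard : ℝ) := by
  obtain ⟨c, hc, havg⟩ := avg L
  obtain ⟨R, hR, -, hcov, hsub⟩ := exists_R L (by omega)
  obtain ⟨cD, hcD, hD⟩ := avgD L f σ
  rw [hE] at havg hcov hsub hD
  refine ⟨cD, hcD, ?_⟩
  have ha0 : (1 : ℝ) ≤ ((m + 1 : ℕ) : ℝ) := by
    have : 1 ≤ m + 1 := by omega
    exact_mod_cast this
  set a : ℝ := ((m + 1 : ℕ) : ℝ) with ha
  set d : ℝ := a * R with hd
  have hd0 : 0 < d := by positivity
  have hRd : R ≤ d := by
    rw [hd]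
    nlinarith
  have hnn : ∀ t : ℝ, (0 : ℝ) ≤ ((GG L t).ncard : ℝ) := fun t => Nat.cast_nonneg _
  have hn1 : ∀ t : ℝ, 0 ≤ t → (1 : ℝ) ≤ ((GG L t).ncard : ℝ) := by
    intro t ht
    have h1 : (0 : E) ∈ GG L t := ⟨L.zero_mem, by rw [norm_zero]; exact ht⟩
    have h2 : 1 ≤ (GG L t).ncard := by
      rw [Nat.one_le_iff_ne_zero, ← Nat.pos_iff_ne_zero, Set.ncard_pos (GG_finite L t)]
      exact ⟨0, h1⟩
    exact_mod_cast h2
  have hmono : ∀ s t : ℝ, s ≤ t → ((GG L s).ncard : ℝ) ≤ ((GG L t).ncard : ℝ) := by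
    intro s t hst
    have := Set.ncard_le_ncard (s := GG L s) (t := GG L t) (fun v hv => ⟨hv.1, hv.2.trans hst⟩)
      (GG_finite L t)
    exact_mod_cast this
  -- doubling
  have hdb : ∀ ρ Z : ℝ, 0 < ρ → 0 ≤ Z →
      ((GG L Z).ncard : ℝ) ≤ (2 * Z / ρ + 1) ^ (m + 1) * ((GG L ρ).ncard : ℝ) := by
    intro ρ Z hρ hZ
    have := doubling L (r := ρ) (Y := Z) hρ hZ
    rwa [hE] at this
  have hds : ∀ ρ Z : ℝ, 0 < ρ → ρ ≤ Z → Z < R →
      ((GG L Z).ncard : ℝ) ≤ (3 * (Z / ρ)) ^ m * ((GG L ρ).ncard : ℝ) := by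
    intro ρ Z hρ hZ hZR
    obtain ⟨W, hW, hWr⟩ := hsub Z hZR
    refine (doubling_sub L W hρ hZ hWr).trans ?_
    apply mul_le_mul_of_nonneg_right _ (hnn ρ)
    have h1 : 1 ≤ Z / ρ := by
      rw [le_div_iff₀ hρ]
      linarith
    have h2 : 2 * Z / ρ = 2 * (Z / ρ) := by ring
    rw [h2]
    calc (2 * (Z / ρ) + 1) ^ finrank ℝ W ≤ (2 * (Z / ρ) + 1) ^ m :=
          pow_le_pow_right₀ (by linarith) (by omega)
      _ ≤ (3 * (Z / ρ)) ^ m := pow_le_pow_left₀ (by linarith) (by linarith) m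
  -- the main estimate (i)
  have hA : ∀ ρ Y : ℝ, 0 < ρ → ρ ≤ Y → c * R * Y ^ m ≤ A1 m * ((Y / ρ) ^ m * ((GG L ρ).ncard : ℝ)) := by
    intro ρ Y hρ hρY
    have hY : 0 < Y := hρ.trans_le hρY
    have hyp : (0 : ℝ) ≤ (Y / ρ) ^ m := by positivity
    -- `c R ^ (m+1) ≤ (8 a + 1) ^ (m + 1) n (R / 2)`
    have h1 : c * R ^ (m + 1) ≤ (8 * a + 1) ^ (m + 1) * ((GG L (R / 2)).ncard : ℝ) := by
      have h2 := (havg d hcov d hd0.le).2
      have h3 := hdb (R / 2) (d + d) (by positivity) (by positivity)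
      have e : 2 * (d + d) / (R / 2) + 1 = 8 * a + 1 := by
        rw [hd]
        field_simp
        ring
      rw [e] at h3
      have h5 : R ^ (m + 1) ≤ d ^ (m + 1) := pow_le_pow_left₀ hR.le hRd _
      exact (mul_le_mul_of_nonneg_left h5 hc).trans (h2.trans h3)
    rcases lt_or_ge ρ (R / 2) with h | h
    · -- small `ρ`
      have h2 := hds ρ (R / 2) hρ h.le (by linarith)
      have h3 : c * R * Y ^ m = c * R ^ (m + 1) * (Y / R) ^ m := by
        rw [div_pow]
        field_simp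
        ring
      rw [h3]
      have h4 : (3 * (R / 2 / ρ)) ^ m * (Y / R) ^ m ≤ 3 ^ m * (Y / ρ) ^ m := by
        rw [← mul_pow, ← mul_pow]
        apply pow_le_pow_left₀ (by positivity)
        have h5 : 3 * (R / 2 / ρ) * (Y / R) = 3 / 2 * (Y / ρ) := by
          field_simp
        rw [h5]
        have : 0 ≤ Y / ρ := by positivity
        linarith
      calc c * R ^ (m + 1) * (Y / R) ^ m
          ≤ (8 * a + 1) ^ (m + 1) * ((3 * (R / 2 / ρ)) ^ m * ((GG L ρ).ncard : ℝ)) *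
            (Y / R) ^ m := by
            apply mul_le_mul_of_nonneg_right _ (by positivity)
            exact h1.trans (mul_le_mul_of_nonneg_left h2 (by positivity))
        _ = (8 * a + 1) ^ (m + 1) * ((3 * (R / 2 / ρ)) ^ m * (Y / R) ^ m) *
            ((GG L ρ).ncard : ℝ) := by ring
        _ ≤ (8 * a + 1) ^ (m + 1) * (3 ^ m * (Y / ρ) ^ m) * ((GG L ρ).ncard : ℝ) := by
            apply mul_le_mul_of_nonneg_right _ (hnn ρ)
            exact mul_le_mul_of_nonneg_left h4 (by positivity)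
        _ = (8 * a + 1) ^ (m + 1) * 3 ^ m * 1 * ((Y / ρ) ^ m * ((GG L ρ).ncard : ℝ)) := by ring
        _ ≤ A1 m * ((Y / ρ) ^ m * ((GG L ρ).ncard : ℝ)) := by
            apply mul_le_mul_of_nonneg_right _ (mul_nonneg hyp (hnn ρ))
            unfold A1
            apply mul_le_mul_of_nonneg_left _ (by positivity)
            exact one_le_pow₀ (by norm_num)
    · -- large `ρ`
      have hkey : c * ρ ^ m * R ≤ A1 m * ((GG L ρ).ncard : ℝ) := by
        rcases lt_or_ge ρ (2 * d) with h4 | h4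
        · -- `R/2 ≤ ρ < 2 d`: compare with `R / 2`
          have h5 : c * ρ ^ m * R ≤ (4 * a) ^ m * (c * R ^ (m + 1)) := by
            have h6 : ρ ^ m ≤ (4 * a * R) ^ m := by
              apply pow_le_pow_left₀ hρ.le
              rw [hd] at h4
              nlinarith
            calc c * ρ ^ m * R ≤ c * (4 * a * R) ^ m * R := by
                  apply mul_le_mul_of_nonneg_right _ hR.le
                  exact mul_le_mul_of_nonneg_left h6 hc
              _ = (4 * a) ^ m * (c * R ^ (m + 1)) := by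
                  rw [mul_pow]
                  ring
          -- better: use the average directly
          have h7 : c * ρ ^ m * R ≤ c * (4 * d) ^ (m + 1) := by
            have h8 : ρ ^ m ≤ (4 * d) ^ m := pow_le_pow_left₀ hρ.le (by linarith) m
            calc c * ρ ^ m * R ≤ c * (4 * d) ^ m * (4 * d) := by
                  apply mul_le_mul (mul_le_mul_of_nonneg_left h8 hc) (by linarith) hR.le
                  positivity
              _ = _ := by ring
          have h9 : c * (d) ^ (m + 1) ≤ (8 * a + 1) ^ (m + 1) * ((GG L (R / 2)).ncard : ℝ) := by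
            have h2 := (havg d hcov d hd0.le).2
            have h3 := hdb (R / 2) (d + d) (by positivity) (by positivity)
            have e : 2 * (d + d) / (R / 2) + 1 = 8 * a + 1 := by
              rw [hd]
              field_simp
              ring
            rw [e] at h3
            exact h2.trans h3
          calc c * ρ ^ m * R ≤ c * (4 * d) ^ (m + 1) := h7
            _ = 4 ^ (m + 1) * (c * d ^ (m + 1)) := by
                rw [mul_pow]
                ring
            _ ≤ 4 ^ (m + 1) * ((8 * a + 1) ^ (m + 1) * ((GG L (R / 2)).ncard : ℝ)) :=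
                mul_le_mul_of_nonneg_left h9 (by positivity)
            _ ≤ 4 ^ (m + 1) * ((8 * a + 1) ^ (m + 1) * ((GG L ρ).ncard : ℝ)) := by
                apply mul_le_mul_of_nonneg_left _ (by positivity)
                exact mul_le_mul_of_nonneg_left (hmono _ _ h) (by positivity)
            _ = (8 * a + 1) ^ (m + 1) * 1 * 4 ^ (m + 1) * ((GG L ρ).ncard : ℝ) := by ring
            _ ≤ A1 m * ((GG L ρ).ncard : ℝ) := by
                apply mul_le_mul_of_nonneg_right _ (hnn ρ)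
                unfold A1
                apply mul_le_mul_of_nonneg_right _ (by positivity)
                apply mul_le_mul_of_nonneg_left _ (by positivity)
                exact one_le_pow₀ (by norm_num)
        · -- `ρ ≥ 2 d`
          have h5 := (havg d hcov (ρ - d) (by linarith)).2
          rw [sub_add_cancel] at h5
          have h6 : ρ ^ m * R ≤ 2 ^ (m + 1) * (ρ - d) ^ (m + 1) := by
            rw [← mul_pow]
            calc ρ ^ m * R ≤ ρ ^ m * ρ := by
                  apply mul_le_mul_of_nonneg_left _ (by positivity)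
                  linarith
              _ = ρ ^ (m + 1) := by ring
              _ ≤ (2 * (ρ - d)) ^ (m + 1) := pow_le_pow_left₀ hρ.le (by linarith) _
          calc c * ρ ^ m * R = c * (ρ ^ m * R) := by ring
            _ ≤ c * (2 ^ (m + 1) * (ρ - d) ^ (m + 1)) := mul_le_mul_of_nonneg_left h6 hc
            _ = 2 ^ (m + 1) * (c * (ρ - d) ^ (m + 1)) := by ring
            _ ≤ 2 ^ (m + 1) * ((GG L ρ).ncard : ℝ) := mul_le_mul_of_nonneg_left h5 (by positivity)
            _ ≤ A1 m * ((GG L ρ).ncard : ℝ) := by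
                apply mul_le_mul_of_nonneg_right _ (hnn ρ)
                unfold A1
                have h7 : (2 : ℝ) ^ (m + 1) ≤ 4 ^ (m + 1) :=
                  pow_le_pow_left₀ (by norm_num) (by norm_num) _
                have h8 : (1 : ℝ) ≤ (8 * a + 1) ^ (m + 1) := one_le_pow₀ (by linarith)
                have h9 : (1 : ℝ) ≤ 3 ^ m := one_le_pow₀ (by norm_num)
                have h10 : (1 : ℝ) ≤ (8 * a + 1) ^ (m + 1) * 3 ^ m :=
                  one_le_mul_of_one_le_of_one_le h8 h9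
                have h11 : (0 : ℝ) ≤ 4 ^ (m + 1) := by positivity
                nlinarith
      have h3 : c * R * Y ^ m = c * ρ ^ m * R * (Y / ρ) ^ m := by
        rw [div_pow]
        field_simp
      rw [h3]
      calc c * ρ ^ m * R * (Y / ρ) ^ m ≤ A1 m * ((GG L ρ).ncard : ℝ) * (Y / ρ) ^ m :=
            mul_le_mul_of_nonneg_right hkey hyp
        _ = _ := by ring
  -- the estimate (ii)
  set B2 : ℝ := 5 ^ m + (64 * a + 1) ^ (m + 1) * 6 ^ m with hB2
  have hB20 : 0 ≤ B2 := by positivity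
  have hB : ∀ ρ Y : ℝ, 0 < ρ → ρ ≤ Y → Y < 4 * d →
      ((GG L (2 * Y)).ncard : ℝ) ≤ B2 * ((Y / ρ) ^ m * ((GG L ρ).ncard : ℝ)) := by
    intro ρ Y hρ hρY hYd
    have hY : 0 < Y := hρ.trans_le hρY
    have hyp : (1 : ℝ) ≤ (Y / ρ) := by
      rw [le_div_iff₀ hρ]
      linarith
    have hyp1 : (1 : ℝ) ≤ (Y / ρ) ^ m := one_le_pow₀ hyp
    have hX0 : 0 ≤ (Y / ρ) ^ m * ((GG L ρ).ncard : ℝ) := mul_nonneg (by positivity) (hnn ρ)
    have hsplit1 : 5 ^ m * ((Y / ρ) ^ m * ((GG L ρ).ncard : ℝ)) ≤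
        B2 * ((Y / ρ) ^ m * ((GG L ρ).ncard : ℝ)) := by
      apply mul_le_mul_of_nonneg_right _ hX0
      rw [hB2]
      have : 0 ≤ (64 * a + 1) ^ (m + 1) * 6 ^ m := by positivity
      linarith
    have hsplit2 : (64 * a + 1) ^ (m + 1) * 6 ^ m * ((Y / ρ) ^ m * ((GG L ρ).ncard : ℝ)) ≤
        B2 * ((Y / ρ) ^ m * ((GG L ρ).ncard : ℝ)) := by
      apply mul_le_mul_of_nonneg_right _ hX0
      rw [hB2]
      have : (0 : ℝ) ≤ 5 ^ m := by positivity
      linarith
    rcases lt_or_ge (2 * Y) R with h2 | h2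
    · obtain ⟨W, hW, hWr⟩ := hsub (2 * Y) h2
      have h3 := doubling_sub L W (ρ := ρ) (Z := 2 * Y) hρ (by linarith) hWr
      refine h3.trans (le_trans ?_ hsplit1)
      rw [← mul_assoc ((5 : ℝ) ^ m)]
      apply mul_le_mul_of_nonneg_right _ (hnn ρ)
      rw [← mul_pow]
      have h4 : 2 * (2 * Y) / ρ = 4 * (Y / ρ) := by ring
      rw [h4]
      calc (4 * (Y / ρ) + 1) ^ finrank ℝ W ≤ (4 * (Y / ρ) + 1) ^ m :=
            pow_le_pow_right₀ (by linarith) (by omega)
        _ ≤ (5 * (Y / ρ)) ^ m := pow_le_pow_left₀ (by linarith) (by linarith) m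
    · rcases lt_or_ge ρ (R / 2) with h | h
      · have h3 := hdb (R / 2) (2 * Y) (by positivity) (by positivity)
        have h4 := hds ρ (R / 2) hρ h.le (by linarith)
        have h5 : (2 * (2 * Y) / (R / 2) + 1) ^ (m + 1) ≤ (64 * a + 1) ^ (m + 1) := by
          apply pow_le_pow_left₀ (by positivity)
          have h6 : 2 * (2 * Y) / (R / 2) ≤ 64 * a := by
            rw [div_le_iff₀ (by positivity)]
            rw [hd] at hYd
            nlinarith
          linarith
        have h7 : (3 * (R / 2 / ρ)) ^ m ≤ 6 ^ m * (Y / ρ) ^ m := by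
          rw [← mul_pow]
          apply pow_le_pow_left₀ (by positivity)
          have h8 : R / 2 / ρ ≤ Y / ρ := div_le_div_of_nonneg_right (by linarith) hρ.le
          linarith
        refine le_trans ?_ hsplit2
        calc ((GG L (2 * Y)).ncard : ℝ)
            ≤ (2 * (2 * Y) / (R / 2) + 1) ^ (m + 1) * ((GG L (R / 2)).ncard : ℝ) := h3
          _ ≤ (64 * a + 1) ^ (m + 1) * (6 ^ m * (Y / ρ) ^ m * ((GG L ρ).ncard : ℝ)) :=
              mul_le_mul h5 (h4.trans (mul_le_mul_of_nonneg_right h7 (hnn ρ))) (hnn _)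
                (by positivity)
          _ = _ := by ring
      · have h3 := hdb ρ (2 * Y) hρ (by positivity)
        have h5 : (2 * (2 * Y) / ρ + 1) ^ (m + 1) ≤ (64 * a + 1) ^ (m + 1) := by
          apply pow_le_pow_left₀ (by positivity)
          have h6 : 2 * (2 * Y) / ρ ≤ 64 * a := by
            rw [div_le_iff₀ hρ]
            rw [hd] at hYd
            nlinarith
          linarith
        refine le_trans ?_ hsplit2
        calc ((GG L (2 * Y)).ncard : ℝ)
            ≤ (2 * (2 * Y) / ρ + 1) ^ (m + 1) * ((GG L ρ).ncard : ℝ) := h3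
          _ ≤ (64 * a + 1) ^ (m + 1) * ((GG L ρ).ncard : ℝ) :=
              mul_le_mul_of_nonneg_right h5 (hnn ρ)
          _ = (64 * a + 1) ^ (m + 1) * 1 * (1 * ((GG L ρ).ncard : ℝ)) := by ring
          _ ≤ (64 * a + 1) ^ (m + 1) * 6 ^ m * ((Y / ρ) ^ m * ((GG L ρ).ncard : ℝ)) := by
              apply mul_le_mul
              · apply mul_le_mul_of_nonneg_left _ (by positivity)
                exact one_le_pow₀ (by norm_num)
              · exact mul_le_mul_of_nonneg_right hyp1 (hnn ρ)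
              · rw [one_mul]
                exact hnn ρ
              · positivity
  -- the cones
  have hsm : ∀ (u : E) (ρ Y : ℝ), 0 < ρ → ρ ≤ Y → Y < 4 * d →
      ((TD L f σ u Y).ncard : ℝ) ≤ B2 * ((Y / ρ) ^ m * ((GG L ρ).ncard : ℝ)) := by
    intro u ρ Y hρ hY hYd
    have h1 : ((TD L f σ u Y).ncard : ℝ) ≤ ((GG L (2 * Y)).ncard : ℝ) := by
      exact_mod_cast (TD_le L f σ u Y).trans (TB_le L u Y)
    exact h1.trans (hB ρ Y hρ hY hYd)
  set K0' : ℝ := (5 * a ^ 2 * 2 ^ m + n * (8 * 4 ^ (m + 1) * a)) with hK0'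
  have hK0p : 0 ≤ K0' := by positivity
  have hlarge : ∀ (u u' : E) (ρ Y : ℝ), 0 < ρ → ρ ≤ Y → 4 * d ≤ Y →
      ((TD L f σ u Y).ncard : ℝ) ≤ (TD L f σ u' Y).ncard +
        K0' * (A1 m * ((Y / ρ) ^ m * ((GG L ρ).ncard : ℝ))) := by
    intro u u' ρ Y hρ hρY hY
    have hY0 : 0 < Y := by linarith
    obtain ⟨v, hv, hvd⟩ := hcov (u - u')
    have h1 : ‖u - (u' + v)‖ ≤ d := by
      rw [← sub_sub]
      exact hvd
    have h2 := compare L f σ hd0 hcov u (u' + v) h1 hY (c := c) (a := m + 1)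
      (fun Y hY => havg d hcov Y hY)
    rw [TD_period L f σ u' v hv Y] at h2
    refine h2.trans ?_
    apply add_le_add_right
    have h3 := hA ρ Y hρ hρY
    set XX : ℝ := A1 m * ((Y / ρ) ^ m * ((GG L ρ).ncard : ℝ)) with hXX
    have h4 : c * (Y + 2 * d) ^ (m + 1) - c * (Y - 3 * d) ^ (m + 1) ≤
        5 * a ^ 2 * 2 ^ m * XX := by
      have h5 := hpow m (Y + 2 * d) (Y - 3 * d) (by linarith) (by linarith)
      have h6 : (Y + 2 * d) ^ m ≤ 2 ^ m * Y ^ m := by
        rw [← mul_pow]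
        exact pow_le_pow_left₀ (by linarith) (by linarith) m
      calc c * (Y + 2 * d) ^ (m + 1) - c * (Y - 3 * d) ^ (m + 1)
          = c * ((Y + 2 * d) ^ (m + 1) - (Y - 3 * d) ^ (m + 1)) := by ring
        _ ≤ c * ((Y + 2 * d - (Y - 3 * d)) * (a * (Y + 2 * d) ^ m)) :=
            mul_le_mul_of_nonneg_left h5 hc
        _ ≤ c * ((Y + 2 * d - (Y - 3 * d)) * (a * (2 ^ m * Y ^ m))) := by
            apply mul_le_mul_of_nonneg_left _ hc
            apply mul_le_mul_of_nonneg_left _ (by linarith)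
            exact mul_le_mul_of_nonneg_left h6 (by linarith)
        _ = 5 * a ^ 2 * 2 ^ m * (c * R * Y ^ m) := by
            rw [hd]
            ring
        _ ≤ _ := mul_le_mul_of_nonneg_left h3 (by positivity)
    have h5 : 8 * d / Y * (c * (3 * Y + 2 * d) ^ (m + 1)) ≤ 8 * 4 ^ (m + 1) * a * XX := by
      have h6 : (3 * Y + 2 * d) ^ (m + 1) ≤ 4 ^ (m + 1) * Y ^ (m + 1) := by
        rw [← mul_pow]
        exact pow_le_pow_left₀ (by linarith) (by linarith) _
      calc 8 * d / Y * (c * (3 * Y + 2 * d) ^ (m + 1))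
          ≤ 8 * d / Y * (c * (4 ^ (m + 1) * Y ^ (m + 1))) := by
            apply mul_le_mul_of_nonneg_left _ (by positivity)
            exact mul_le_mul_of_nonneg_left h6 hc
        _ = 8 * 4 ^ (m + 1) * a * (c * R * Y ^ m) := by
            rw [hd]
            field_simp
            ring
        _ ≤ _ := mul_le_mul_of_nonneg_left h3 (by positivity)
    have h6 : (n : ℝ) * (8 * d / Y * (c * (3 * Y + 2 * d) ^ (m + 1))) ≤
        n * (8 * 4 ^ (m + 1) * a * XX) :=
      mul_le_mul_of_nonneg_left h5 (Nat.cast_nonneg _)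
    have h7 : K0' * XX = 5 * a ^ 2 * 2 ^ m * XX + n * (8 * 4 ^ (m + 1) * a * XX) := by
      rw [hK0']
      ring
    rw [h7]
    linarith
  have hK3 : K3 m n = K0' * A1 m + B2 := by
    unfold K3
    rw [hK0', hB2]
  have hA10 : 0 ≤ A1 m := by
    unfold A1
    positivity
  have hmain : ∀ (u : E) (ρ Y : ℝ), 0 < ρ → ρ ≤ Y →
      |((TD L f σ u Y).ncard : ℝ) - cD * Y ^ (m + 1)| ≤
        K3 m n * ((Y / ρ) ^ m * ((GG L ρ).ncard : ℝ)) := by
    intro u ρ Y hρ hρY
    have hY0 : 0 < Y := hρ.trans_le hρY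
    have hX0 : 0 ≤ (Y / ρ) ^ m * ((GG L ρ).ncard : ℝ) := mul_nonneg (by positivity) (hnn ρ)
    obtain ⟨⟨u0, hu0⟩, ⟨u1, hu1⟩⟩ := hD Y hY0
    rcases lt_or_ge Y (4 * d) with h4 | h4
    · have h1 := hsm u ρ Y hρ hρY h4
      have h2 := hu1.trans (hsm u1 ρ Y hρ hρY h4)
      have h3 : 0 ≤ cD * Y ^ (m + 1) := by positivity
      have h5 : (0 : ℝ) ≤ ((TD L f σ u Y).ncard : ℝ) := Nat.cast_nonneg _
      have h6 : B2 * ((Y / ρ) ^ m * ((GG L ρ).ncard : ℝ)) ≤
          K3 m n * ((Y / ρ) ^ m * ((GG L ρ).ncard : ℝ)) := by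
        apply mul_le_mul_of_nonneg_right _ hX0
        rw [hK3]
        have : 0 ≤ K0' * A1 m := by positivity
        linarith
      rw [abs_le]
      constructor <;> linarith
    · have h1 := hlarge u u0 ρ Y hρ hρY h4
      have h2 := hlarge u1 u ρ Y hρ hρY h4
      have h3 : K0' * (A1 m * ((Y / ρ) ^ m * ((GG L ρ).ncard : ℝ))) ≤
          K3 m n * ((Y / ρ) ^ m * ((GG L ρ).ncard : ℝ)) := by
        rw [← mul_assoc]
        apply mul_le_mul_of_nonneg_right _ hX0
        rw [hK3]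
        linarith
      rw [abs_le]
      constructor <;> linarith
  intro ρ hρ
  refine ⟨?_, fun u Y hY => ?_⟩
  · obtain ⟨u1, hu1⟩ := (hD ρ hρ).2
    refine hu1.trans ?_
    rcases lt_or_ge ρ (4 * d) with h4 | h4
    · have h1 := hsm u1 ρ ρ hρ le_rfl h4
      rw [div_self hρ.ne', one_pow, one_mul] at h1
      refine h1.trans ?_
      apply mul_le_mul_of_nonneg_right _ (hnn ρ)
      rw [hK3]
      have : 0 ≤ K0' * A1 m := by positivity
      linarith
    · -- compare with a translate near `0`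
      have h1 := hlarge u1 0 ρ ρ hρ le_rfl h4
      rw [div_self hρ.ne', one_pow, one_mul] at h1
      have h2 : ((TD L f σ 0 ρ).ncard : ℝ) ≤ ((GG L ρ).ncard : ℝ) := by
        have h3 : TD L f σ 0 ρ ⊆ GG L ρ := by
          rintro v ⟨h3, h4, -⟩
          rw [add_zero] at h4
          exact ⟨h3, h4⟩
        exact_mod_cast Set.ncard_le_ncard h3 (GG_finite L ρ)
      have hB1 : 1 ≤ B2 := by
        rw [hB2]
        have h5 : (1 : ℝ) ≤ 5 ^ m := one_le_pow₀ (by norm_num)
        have h6 : 0 ≤ (64 * a + 1) ^ (m + 1) * 6 ^ m := by positivity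
        linarith
      rw [hK3, add_mul, mul_assoc]
      have h7 : ((GG L ρ).ncard : ℝ) ≤ B2 * ((GG L ρ).ncard : ℝ) :=
        le_mul_of_one_le_left (hnn ρ) hB1
      linarith
  · have := hmain u ρ Y hρ hY
    rwa [mul_assoc]

end Pool.Agent.T6.H81.BG.L3

namespace Pool.Agent.T6.H81.BG

open Module

theorem l3 : StmtL3 := by
  intro a n ha
  obtain ⟨m, rfl⟩ : ∃ m, a = m + 1 := ⟨a - 1, by omega⟩
  refine ⟨L3.K3 m n, ?_, ?_⟩
  · unfold L3.K3 L3.A1
    positivity
  · intro E _ _ _ L _ _ hE f σ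
    obtain ⟨c, hc, h⟩ := L3.main m n L hE f σ
    refine ⟨c, hc, fun ρ hρ => ?_⟩
    obtain ⟨h1, h2⟩ := h ρ hρ
    refine ⟨Pool.Agent.T6.H68.BL.GG_finite L ρ, h1, fun u Y hY =>
      ⟨Pool.Agent.T6.H81.BA.L2.TD_finite L f σ u Y, ?_⟩⟩
    rw [Nat.add_sub_cancel]
    exact h2 u Y hY

end Pool.Agent.T6.H81.BG
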