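import Mathlib
import Pool.Agent.T6.H81.BG.Defs

/-!
The asymptotic formula for boxes: a function of the sides which is, up to an error, a pure power in
each of the sides (if this side is among the largest ones) is a multiple of the product of these
powers, up to an error.
-/

set_option autoImplicit false

namespace Pool.Agent.T6.H81.BG

open Finset Filter Topology

namespace P3

variable {m : ℕ} (r : Fin m → ℕ) (F : (Fin m → ℕ) → ℝ)

/-- the normalised function -/
noncomputable def G (X : Fin m → ℕ) : ℝ := F X / ∏ u, (X u : ℝ) ^ r u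

theorem prod_pos {X : Fin m → ℕ} (h : ∀ u, 1 ≤ X u) : 0 < ∏ u, (X u : ℝ) ^ r u :=
  Finset.prod_pos fun u _ => pow_pos (by exact_mod_cast h u) _

theorem one {C δ : ℝ} {S : (Fin m → ℕ) → ℝ} {v : Fin m}
    (h : ∀ X : Fin m → ℕ, (∀ u, 1 ≤ X u) → (∀ u, X u ≤ 2 * X v) →
      |F X - S (Function.update X v 0) * (X v : ℝ) ^ r v| ≤
        C * (∏ u, (X u : ℝ) ^ r u) * (X v : ℝ) ^ (-δ))
    (Z : Fin m → ℕ) (h1 : ∀ u, 1 ≤ Z u) (h2 : ∀ u, Z u ≤ 2 * Z v) :
    |G r F Z - S (Function.update Z v 0) / ∏ u ∈ univ.erase v, (Z u : ℝ) ^ r u| ≤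
      C * (Z v : ℝ) ^ (-δ) := by
  have hp := prod_pos r h1
  have ha : 0 < (Z v : ℝ) ^ r v := pow_pos (by exact_mod_cast h1 v) _
  have hb : 0 < ∏ u ∈ univ.erase v, (Z u : ℝ) ^ r u :=
    Finset.prod_pos fun u _ => pow_pos (by exact_mod_cast h1 u) _
  have hab : ∏ u, (Z u : ℝ) ^ r u = (Z v : ℝ) ^ r v * ∏ u ∈ univ.erase v, (Z u : ℝ) ^ r u :=
    (Finset.mul_prod_erase univ _ (mem_univ v)).symm
  have e : G r F Z - S (Function.update Z v 0) / ∏ u ∈ univ.erase v, (Z u : ℝ) ^ r u =
      (F Z - S (Function.update Z v 0) * (Z v : ℝ) ^ r v) / ∏ u, (Z u : ℝ) ^ r u := by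
    unfold G
    rw [hab, sub_div]
    congr 1
    field_simp
  rw [e, abs_div, abs_of_pos hp, div_le_iff₀ hp]
  calc _ ≤ _ := h Z h1 h2
    _ = _ := by ring

/-- change of one coordinate -/
theorem step {C δ : ℝ} {S : (Fin m → ℕ) → ℝ} {v : Fin m}
    (h : ∀ X : Fin m → ℕ, (∀ u, 1 ≤ X u) → (∀ u, X u ≤ 2 * X v) →
      |F X - S (Function.update X v 0) * (X v : ℝ) ^ r v| ≤
        C * (∏ u, (X u : ℝ) ^ r u) * (X v : ℝ) ^ (-δ))
    (Z : Fin m → ℕ) (s : ℕ) (h1 : ∀ u, 1 ≤ Z u) (h2 : ∀ u, Z u ≤ 2 * Z v) (hs : 1 ≤ s)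
    (h3 : ∀ u, u ≠ v → Z u ≤ 2 * s) :
    |G r F Z - G r F (Function.update Z v s)| ≤ C * (Z v : ℝ) ^ (-δ) + C * (s : ℝ) ^ (-δ) := by
  have a1 := one r F h Z h1 h2
  have a2 := one r F h (Function.update Z v s) (by
      intro u
      by_cases hu : u = v
      · subst hu; simpa using hs
      · simpa [hu] using h1 u) (by
      intro u
      by_cases hu : u = v
      · subst hu; simp; omega
      · simpa [hu] using h3 u hu)
  rw [Function.update_idem] at a2
  have e : ∏ u ∈ univ.erase v, (Function.update Z v s u : ℝ) ^ r u =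
      ∏ u ∈ univ.erase v, (Z u : ℝ) ^ r u := by
    refine Finset.prod_congr rfl fun u hu => ?_
    rw [Function.update_of_ne (Finset.ne_of_mem_erase hu)]
  rw [e, Function.update_self] at a2
  rw [abs_le] at a1 a2 ⊢
  constructor <;> linarith [a1.1, a1.2, a2.1, a2.2]

/-- the sides cut off at `s` -/
def cut (X : Fin m → ℕ) (s : ℕ) : Fin m → ℕ := fun u => min (X u) s

section main

variable {C δ : ℝ} (hC : 0 ≤ C) (hδ : 0 < δ)
  (h : ∀ v : Fin m, ∃ S : (Fin m → ℕ) → ℝ, ∀ X : Fin m → ℕ, (∀ u, 1 ≤ X u) →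
    (∀ u, X u ≤ 2 * X v) → |F X - S (Function.update X v 0) * (X v : ℝ) ^ r v| ≤
      C * (∏ u, (X u : ℝ) ^ r u) * (X v : ℝ) ^ (-δ))

theorem rpow_anti {δ : ℝ} (hδ : 0 < δ) {a b : ℕ} (ha : 1 ≤ a) (hab : a ≤ b) :
    (b : ℝ) ^ (-δ) ≤ (a : ℝ) ^ (-δ) :=
  Real.rpow_le_rpow_of_nonpos (by exact_mod_cast ha) (by exact_mod_cast hab) (by linarith)

include hC hδ h

theorem two (X : Fin m → ℕ) (h1 : ∀ u, 1 ≤ X u) (t s : ℕ) (ht : 1 ≤ t) (hts : t ≤ s)
    (hs : s ≤ 2 * t) : |G r F (cut X s) - G r F (cut X t)| ≤ (2 * m * C) * (t : ℝ) ^ (-δ) := by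
  classical
  have key : ∀ A : Finset (Fin m), |G r F (cut X s) -
      G r F (fun u => if u ∈ A then min (X u) t else min (X u) s)| ≤
      (A.card : ℝ) * (2 * C * (t : ℝ) ^ (-δ)) := by
    intro A
    induction A using Finset.induction_on with
    | empty =>
      have : (cut X s) = fun u => if u ∈ (∅ : Finset (Fin m)) then min (X u) t else min (X u) s := by
        funext u; simp [cut]
      rw [this]; simp
    | insert v A hv ih =>
      set Z : Fin m → ℕ := fun u => if u ∈ A then min (X u) t else min (X u) s with hZ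
      have hZv : Z v = min (X v) s := by simp [hZ, hv]
      have e : (fun u => if u ∈ insert v A then min (X u) t else min (X u) s) =
          Function.update Z v (min (X v) t) := by
        funext u
        by_cases hu : u = v
        · subst hu; simp
        · simp [hZ, hu]
      rw [e, card_insert_of_notMem hv]
      have hstep : |G r F Z - G r F (Function.update Z v (min (X v) t))| ≤
          2 * C * (t : ℝ) ^ (-δ) := by
        have hpos : 0 ≤ 2 * C * (t : ℝ) ^ (-δ) := by positivity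
        by_cases hx : X v ≤ t
        · have : Function.update Z v (min (X v) t) = Z := by
            rw [min_eq_left hx]
            have : Z v = X v := by rw [hZv, min_eq_left (hx.trans hts)]
            rw [← this, Function.update_eq_self]
          rw [this, sub_self, abs_zero]
          exact hpos
        · push Not at hx
          rw [min_eq_right hx.le]
          have hle : ∀ u, Z u ≤ s := by
            intro u
            simp only [hZ]
            split_ifs
            · exact (min_le_right _ _).trans hts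
            · exact min_le_right _ _
          have h1' : ∀ u, 1 ≤ Z u := by
            intro u
            have := h1 u
            simp only [hZ]
            split_ifs <;> omega
          have htz : t ≤ Z v := by rw [hZv]; omega
          obtain ⟨S, hS⟩ := h v
          have := step r F hS Z t h1' (fun u => by have := hle u; omega) ht
            (fun u _ => by have := hle u; omega)
          have h5 := rpow_anti hδ ht htz
          nlinarith [mul_le_mul_of_nonneg_left h5 hC]
      push_cast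
      have h6 := abs_sub_le (G r F (cut X s)) (G r F Z) (G r F (Function.update Z v (min (X v) t)))
      linarith
  have := key univ
  simp only [mem_univ, if_true, card_univ, Fintype.card_fin] at this
  calc _ ≤ _ := this
    _ = _ := by ring

theorem three (X : Fin m → ℕ) (h1 : ∀ u, 1 ≤ X u) : ∀ (n t s : ℕ), s - t ≤ n → 1 ≤ t → t ≤ s →
    |G r F (cut X s) - G r F (cut X t)| ≤
      (2 * m * C) / (1 - (2 : ℝ) ^ (-δ)) * (t : ℝ) ^ (-δ) := by
  have h2 : (2 : ℝ) ^ (-δ) < 1 := Real.rpow_lt_one_of_one_lt_of_neg (by norm_num) (by linarith)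
  have h3 : 0 < 1 - (2 : ℝ) ^ (-δ) := by linarith
  have h4 : (0 : ℝ) < (2 : ℝ) ^ (-δ) := by positivity
  have hD : 0 ≤ 2 * m * C := by positivity
  intro n
  induction n with
  | zero =>
    intro t s hn ht hts
    have : s = t := by omega
    subst this
    rw [sub_self, abs_zero]
    positivity
  | succ n ih =>
    intro t s hn ht hts
    by_cases hs : s ≤ 2 * t
    · refine (two r F hC hδ h X h1 t s ht hts hs).trans ?_
      have : 2 * m * C ≤ (2 * m * C) / (1 - (2 : ℝ) ^ (-δ)) := by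
        rw [le_div_iff₀ h3]
        nlinarith
      exact mul_le_mul_of_nonneg_right this (by positivity)
    · push Not at hs
      have a1 := ih (2 * t) s (by omega) (by omega) hs.le
      have a2 := two r F hC hδ h X h1 t (2 * t) ht (by omega) le_rfl
      have a3 := abs_sub_le (G r F (cut X s)) (G r F (cut X (2 * t))) (G r F (cut X t))
      have e : (((2 * t : ℕ) : ℝ)) ^ (-δ) = (2 : ℝ) ^ (-δ) * (t : ℝ) ^ (-δ) := by
        push_cast
        exact Real.mul_rpow (by norm_num) (by positivity)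
      rw [e] at a1
      calc _ ≤ _ := a3
        _ ≤ _ := add_le_add a1 a2
        _ = ((2 * m * C) / (1 - (2 : ℝ) ^ (-δ)) * (2 : ℝ) ^ (-δ) + 2 * m * C) *
            (t : ℝ) ^ (-δ) := by ring
        _ = _ := by
          congr 1
          field_simp
          ring

theorem four : ∃ c C' : ℝ, 0 ≤ C' ∧ ∀ (X : Fin m → ℕ) (t : ℕ), (∀ u, 1 ≤ X u) → 1 ≤ t →
    (∀ u, t ≤ X u) → |G r F X - c| ≤ C' * (t : ℝ) ^ (-δ) := by
  set C' := (2 * m * C) / (1 - (2 : ℝ) ^ (-δ)) with hC'
  have h2 : (2 : ℝ) ^ (-δ) < 1 := Real.rpow_lt_one_of_one_lt_of_neg (by norm_num) (by linarith)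
  have h3 : 0 < 1 - (2 : ℝ) ^ (-δ) := by linarith
  have hC'0 : 0 ≤ C' := by positivity
  -- the diagonal
  set g : ℕ → ℝ := fun t => G r F (fun _ => t) with hg
  have hdiag : ∀ t s : ℕ, 1 ≤ t → t ≤ s → |g s - g t| ≤ C' * (t : ℝ) ^ (-δ) := by
    intro t s ht hts
    have := three r F hC hδ h (fun _ => s) (fun _ => by omega) (s - t) t s le_rfl ht hts
    have e1 : cut (fun _ : Fin m => s) s = fun _ => s := by funext u; simp [cut]
    have e2 : cut (fun _ : Fin m => s) t = fun _ => t := by funext u; simp [cut, hts]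
    rw [e1, e2] at this
    exact this
  have htend : Tendsto (fun t : ℕ => C' * (t : ℝ) ^ (-δ)) atTop (𝓝 0) := by
    have := (tendsto_rpow_neg_atTop hδ).comp tendsto_natCast_atTop_atTop
    simpa using this.const_mul C'
  have hcau : CauchySeq g := by
    rw [Metric.cauchySeq_iff']
    intro ε hε
    obtain ⟨N, hN⟩ := ((htend.eventually (gt_mem_nhds hε)).and (eventually_ge_atTop 1)).exists
    refine ⟨N, fun n hn => ?_⟩
    rw [Real.dist_eq]
    exact (hdiag N n hN.2 hn).trans_lt hN.1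
  obtain ⟨c, hc⟩ := cauchySeq_tendsto_of_complete hcau
  have hgc : ∀ t : ℕ, 1 ≤ t → |c - g t| ≤ C' * (t : ℝ) ^ (-δ) := by
    intro t ht
    have h5 : Tendsto (fun s => |g s - g t|) atTop (𝓝 |c - g t|) := (hc.sub_const _).abs
    exact le_of_tendsto h5 ((eventually_ge_atTop t).mono fun s hs => hdiag t s ht hs)
  refine ⟨c, 2 * C', by positivity, fun X t h1 ht hX => ?_⟩
  set s := t + ∑ u, X u with hs
  have hXs : ∀ u, X u ≤ s := fun u => by
    have := Finset.single_le_sum (f := X) (fun i _ => Nat.zero_le _) (mem_univ u)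
    omega
  have e1 : cut X s = X := by funext u; simp [cut, hXs u]
  have e2 : cut X t = fun _ => t := by funext u; simp [cut, hX u]
  have a1 := three r F hC hδ h X h1 (s - t) t s le_rfl ht (by omega)
  rw [e1, e2] at a1
  have a2 := hgc t ht
  rw [abs_sub_comm] at a2
  have a3 := abs_sub_le (G r F X) (g t) c
  calc _ ≤ _ := a3
    _ ≤ _ := add_le_add a1 a2
    _ = _ := by ring

end main

end P3

open P3 in
theorem p3 : StmtP3 := by
  classical
  intro m r F h
  rcases Nat.eq_zero_or_pos m with hm | hm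
  · subst hm
    refine ⟨F (fun _ => 0), 0, 1, one_pos, fun X _ => ?_⟩
    have : X = fun _ => 0 := Subsingleton.elim _ _
    subst this
    simp
  choose S C δ hδ hS using h
  have : Nonempty (Fin m) := ⟨⟨0, hm⟩⟩
  obtain ⟨v₀, -, hv₀⟩ := Finset.exists_min_image univ δ univ_nonempty
  have hC0 : 0 ≤ ∑ v, |C v| := Finset.sum_nonneg fun _ _ => abs_nonneg _
  have h' : ∀ v : Fin m, ∃ S : (Fin m → ℕ) → ℝ, ∀ X : Fin m → ℕ, (∀ u, 1 ≤ X u) →
    (∀ u, X u ≤ 2 * X v) → |F X - S (Function.update X v 0) * (X v : ℝ) ^ r v| ≤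
      (∑ v, |C v|) * (∏ u, (X u : ℝ) ^ r u) * (X v : ℝ) ^ (-δ v₀) := by
    intro v
    refine ⟨S v, fun X h1 h2 => (hS v X h1 h2).trans ?_⟩
    have hp := prod_pos r h1
    have h3 : C v ≤ ∑ v, |C v| := (le_abs_self _).trans
      (Finset.single_le_sum (f := fun v => |C v|) (fun _ _ => abs_nonneg _) (mem_univ v))
    have h4 : (X v : ℝ) ^ (-δ v) ≤ (X v : ℝ) ^ (-δ v₀) :=
      Real.rpow_le_rpow_of_exponent_le (by exact_mod_cast h1 v) (by
        have := hv₀ v (mem_univ v)
        linarith)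
    calc C v * (∏ u, (X u : ℝ) ^ r u) * (X v : ℝ) ^ (-δ v)
        ≤ (∑ v, |C v|) * (∏ u, (X u : ℝ) ^ r u) * (X v : ℝ) ^ (-δ v) := by gcongr
      _ ≤ _ := by gcongr
  obtain ⟨c, C', hC', hc⟩ := four r F hC0 (hδ v₀) h'
  refine ⟨c, C', δ v₀, hδ v₀, fun X h1 => ?_⟩
  obtain ⟨u₀, -, hu₀⟩ := Finset.exists_min_image univ X univ_nonempty
  have a1 := hc X (X u₀) h1 (h1 u₀) (fun u => hu₀ u (mem_univ u))
  have hp := prod_pos r h1
  have e : F X - c * ∏ u, (X u : ℝ) ^ r u = (G r F X - c) * ∏ u, (X u : ℝ) ^ r u := by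
    unfold G
    field_simp
  rw [e, abs_mul, abs_of_pos hp]
  have h5 : (X u₀ : ℝ) ^ (-δ v₀) ≤ ∑ u, (X u : ℝ) ^ (-δ v₀) :=
    Finset.single_le_sum (f := fun u => (X u : ℝ) ^ (-δ v₀)) (fun _ _ => by positivity)
      (mem_univ u₀)
  calc |G r F X - c| * ∏ u, (X u : ℝ) ^ r u
      ≤ (C' * (X u₀ : ℝ) ^ (-δ v₀)) * ∏ u, (X u : ℝ) ^ r u := by gcongr
    _ ≤ (C' * ∑ u, (X u : ℝ) ^ (-δ v₀)) * ∏ u, (X u : ℝ) ^ r u := by gcongr
    _ = _ := by ring

end Pool.Agent.T6.H81.BG
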