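import Mathlib
import Pool.Agent.T6.H81.BG.Defs
import Pool.Agent.T6.H81.BA.R2
import Pool.Agent.T6.H57.BG.R3a

set_option autoImplicit false

/-! Module R3: primitive vectors in cells of the lattice `lat w`, with the number of the lattice
points in a smaller ball in the error term. -/

namespace Pool.Agent.T6.H81.BG

open Finset Module Matrix
open Pool.Agent.H548.WM (ht bx mem_bx Rep)
open Pool.Agent.H548.BL (lat mem_lat rc orth)
open Pool.Agent.T6.H52.BA Pool.Agent.T6.H57.BA Pool.Agent.T6.H57.BG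
open Pool.Agent.T6.H81.BA (cell_card card_cl_nc Cell)

theorem r3 (hL3 : StmtL3) : StmtR3 := by
  intro k N n q hkN hq
  classical
  obtain ⟨C0, hC0, h0⟩ := hL3 (N - k) n (by omega)
  set a := N - k with ha
  have ha2 : 2 ≤ a := by omega
  refine ⟨2 * (4 * (C0 + 1)), by positivity, fun w hw f σ r => ?_⟩
  by_cases hB : (∃ v0 ∈ lat w, ∀ j, (q : ℤ) ∣ v0 j - r j) ∧
      (∀ p : ℕ, p.Prime → p ∣ q → ¬ ∀ j, (p : ℤ) ∣ r j)
  swap
  · -- no vectors
    refine ⟨0, le_rfl, fun ρ Y hρ hρY => ?_⟩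
    have h1 : ((bx N Y).filter fun v => v ∈ lat w ∧ Cell f σ q r v) = ∅ := by
      rw [Finset.eq_empty_iff_forall_notMem]
      intro v hv
      rw [mem_filter] at hv
      obtain ⟨_, h2, h3, h4, h5⟩ := hv
      apply hB
      refine ⟨⟨v, h2, h4⟩, fun p hp hpq hpr => ?_⟩
      have h6 : ∀ j, (p : ℤ) ∣ v j := fun j => by
        have h7 : v j = (v j - r j) + r j := by ring
        rw [h7]
        exact dvd_add ((Int.natCast_dvd_natCast.2 hpq).trans (h4 j)) (hpr j)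
      have h8 : (p : ℤ) ∣ univ.gcd v := Finset.dvd_gcd fun i _ => h6 i
      rw [h3] at h8
      have h9 := Int.eq_one_of_dvd_one (by positivity) h8
      have := hp.one_lt
      omega
    have hlog : 0 ≤ Real.log (Y : ℝ) :=
      Real.log_nonneg (by exact_mod_cast hρ.trans hρY)
    rw [h1, card_empty, Nat.cast_zero, zero_mul, sub_zero, abs_zero]
    positivity
  obtain ⟨⟨v0, hv0, hvr⟩, hpr⟩ := hB
  have := zlat w hw
  obtain ⟨c1, hc1, h1⟩ := h0 (orth w) (LL w) (finrank_eq w hw) (FF w f) σ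
  set χ : ℕ → ℝ := fun d => if d.Coprime q then 1 else 0 with hχdef
  have hχ : ∀ d, |χ d| ≤ 1 := by
    intro d
    simp only [hχdef]
    split_ifs <;> simp
  have hχ1 : χ 1 = 1 := by
    simp only [hχdef]
    rw [if_pos (Nat.coprime_one_left q)]
  have hM0 : 0 ≤ MX χ a := MX_nonneg hχ hχ1 (by omega)
  have hq1 : (1 : ℝ) ≤ q := by exact_mod_cast hq
  have hq0 : (0 : ℝ) < q := by linarith
  set c0 : ℝ := c1 / (q : ℝ) ^ a with hc0def
  have hc0 : 0 ≤ c0 := by positivity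
  refine ⟨c0 * MX χ a, by positivity, fun ρ Y hρ hρY => ?_⟩
  have hρ0 : (0 : ℝ) < ρ := by exact_mod_cast hρ
  have hY : 1 ≤ Y := hρ.trans hρY
  have hY0 : (0 : ℝ) < Y := by exact_mod_cast hY
  have hρY' : (ρ : ℝ) ≤ Y := by exact_mod_cast hρY
  have hYρ : (1 : ℝ) ≤ (Y : ℝ) / ρ := (one_le_div hρ0).2 hρY'
  have hpw : (Y : ℝ) / ρ ≤ ((Y : ℝ) / ρ) ^ (a - 1) := le_self_pow₀ hYρ (by omega)
  -- the number of lattice points
  have hnn : (((bx N ρ).filter fun v => v ∈ lat w).card : ℝ) = (nn (lat w) ρ : ℝ) := rfl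
  have hn1 : (1 : ℝ) ≤ (nn (lat w) ρ : ℝ) := by exact_mod_cast nn_one (lat w) ρ
  have hfl : ∀ x : ℝ, 0 ≤ x → ⌊x / q⌋₊ ≤ ⌊x⌋₊ := fun x hx =>
    Nat.floor_le_floor (div_le_self hx hq1)
  have hnc : ∀ x : ℝ, 0 ≤ x → ({v : orth w | v ∈ LL w ∧ ‖v‖ ≤ x / q}.ncard : ℝ) ≤
      (nn (lat w) ⌊x⌋₊ : ℝ) := by
    intro x hx
    rw [ncard_LL w (div_nonneg hx hq0.le)]
    exact_mod_cast nn_mono (lat w) (hfl x hx)
  have hc0ρ : c0 * (ρ : ℝ) ^ a ≤ C0 * (nn (lat w) ρ : ℝ) := by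
    have h2 := (h1 ((ρ : ℝ) / q) (by positivity)).2.1
    have h3 := hnc ρ hρ0.le
    rw [Nat.floor_natCast] at h3
    calc c0 * (ρ : ℝ) ^ a = c1 * ((ρ : ℝ) / q) ^ a := by
          rw [hc0def, div_pow]
          ring
      _ ≤ _ := h2
      _ ≤ _ := mul_le_mul_of_nonneg_left h3 hC0
  set E : ℝ := 4 * (C0 + 1) * ((Y : ℝ) / ρ) ^ (a - 1) * (nn (lat w) ρ : ℝ) with hE
  have hE0 : 0 ≤ E := by positivity
  have hEC : C0 * ((Y : ℝ) / ρ) ^ (a - 1) * (nn (lat w) ρ : ℝ) ≤ E := by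
    rw [hE]
    gcongr
    linarith
  have hcE : c0 * (Y : ℝ) ^ (a - 1) ≤ E := by
    have h2 : (Y : ℝ) ^ (a - 1) = ((Y : ℝ) / ρ) ^ (a - 1) * (ρ : ℝ) ^ (a - 1) := by
      rw [← mul_pow, div_mul_cancel₀ _ hρ0.ne']
    have h3 : (ρ : ℝ) ^ (a - 1) ≤ (ρ : ℝ) ^ a :=
      pow_le_pow_right₀ (by exact_mod_cast hρ) (Nat.sub_le a 1)
    calc c0 * (Y : ℝ) ^ (a - 1) = ((Y : ℝ) / ρ) ^ (a - 1) * (c0 * (ρ : ℝ) ^ (a - 1)) := by
          rw [h2]
          ring
      _ ≤ ((Y : ℝ) / ρ) ^ (a - 1) * (C0 * (nn (lat w) ρ : ℝ)) := by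
          apply mul_le_mul_of_nonneg_left _ (by positivity)
          exact (mul_le_mul_of_nonneg_left h3 hc0).trans hc0ρ
      _ = C0 * ((Y : ℝ) / ρ) ^ (a - 1) * (nn (lat w) ρ : ℝ) := by ring
      _ ≤ E := hEC
  -- the counting functions
  set A : ℕ → ℝ := fun d => (((nc w f σ q r Y).filter fun v => d ∣ gd v).card : ℝ) with hA
  have hbound : ∀ d : ℕ, 1 ≤ d → |A d - χ d * (c0 * ((Y : ℝ) / d) ^ a)| ≤ E / d := by
    intro d hd
    have hd0 : (0 : ℝ) < d := by exact_mod_cast hd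
    have hd1 : (1 : ℝ) ≤ d := by exact_mod_cast hd
    by_cases hcop : d.Coprime q
    swap
    · simp only [hA, hχdef]
      rw [nc_not_coprime hpr Y hcop, if_neg hcop, Nat.cast_zero, zero_mul, sub_zero, abs_zero]
      positivity
    have hχd : χ d = 1 := by
      simp only [hχdef]
      rw [if_pos hcop]
    obtain ⟨e, b, heb⟩ := Nat.isCoprime_iff_coprime.2 hcop
    have he : (q : ℤ) ∣ d * e - 1 := ⟨-b, by linear_combination heb⟩
    have hAd : A d = ((nc w f σ q (e • r) (Y / d)).card : ℝ) := by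
      simp only [hA]
      rw [nc_div Y hd he]
    set t : ℝ := (Y : ℝ) / d with htdef
    have ht0 : 0 < t := by positivity
    have hfl : ⌊t⌋₊ = Y / d := Nat.floor_div_eq_div Y d
    have hZt : ((Y / d : ℕ) : ℝ) ≤ t := by
      rw [← hfl]
      exact Nat.floor_le ht0.le
    rw [hχd, one_mul, hAd]
    -- the class of `e • v0`
    have hu0 : e • v0 ∈ lat w := by
      rw [mem_lat]
      intro i
      rw [dotProduct_smul, mem_lat.1 hv0 i, smul_zero]
    have hur : ∀ j, (q : ℤ) ∣ (e • v0) j - (e • r) j := by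
      intro j
      rw [Pi.smul_apply, Pi.smul_apply, smul_eq_mul, smul_eq_mul, ← mul_sub]
      exact (hvr j).mul_left _
    have key : ∀ x : ℝ, 0 < x → x ≤ t → |((nc w f σ q (e • r) (Y / d)).card : ℝ) - c0 * t ^ a| ≤
        (C0 + 1) * (t / x) ^ (a - 1) * (nn (lat w) ⌊x⌋₊ : ℝ) := by
      intro x hx hxt
      have h5 := ((h1 (x / q) (by positivity)).2.2
        ((q : ℝ)⁻¹ • (⟨rc (e • v0), rc_mem hu0⟩ : orth w)) (t / q)
          (div_le_div_of_nonneg_right hxt hq0.le)).2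
      rw [ncard_cl hq hu0 hur ht0.le, hfl] at h5
      have h6 := card_cl_nc (w := w) (f := f) (σ := σ) (q := q) (r := e • r) (Y / d)
      have h7 : c1 * (t / q) ^ a = c0 * t ^ a := by
        rw [hc0def, div_pow]
        ring
      rw [h7] at h5
      have h8 : t / q / (x / q) = t / x := by field_simp
      rw [h8] at h5
      have h9 := hnc x hx.le
      have h10 : (1 : ℝ) ≤ (t / x) ^ (a - 1) := one_le_pow₀ ((one_le_div hx).2 hxt)
      have h12 : (1 : ℝ) ≤ (nn (lat w) ⌊x⌋₊ : ℝ) := by exact_mod_cast nn_one (lat w) ⌊x⌋₊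
      set x1 : ℝ := ((nc w f σ q (e • r) (Y / d)).card : ℝ) with hx1
      set x2 : ℝ := (((bx N (Y / d)).filter fun v => Cl w f σ q (e • r) v).card : ℝ) with hx2
      have h11 : |x1 - c0 * t ^ a| ≤ |x2 - c0 * t ^ a| + |x2 - x1| := by
        have : x1 - c0 * t ^ a = (x2 - c0 * t ^ a) - (x2 - x1) := by ring
        rw [this]
        exact abs_sub _ _
      have h13 : (1 : ℝ) ≤ (t / x) ^ (a - 1) * (nn (lat w) ⌊x⌋₊ : ℝ) := by
        calc (1 : ℝ) = 1 * 1 := by ring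
          _ ≤ _ := mul_le_mul h10 h12 zero_le_one (by positivity)
      have h14 : C0 * (t / x) ^ (a - 1) *
          ({v : orth w | v ∈ LL w ∧ ‖v‖ ≤ x / q}.ncard : ℝ) ≤
          C0 * (t / x) ^ (a - 1) * (nn (lat w) ⌊x⌋₊ : ℝ) := by
        apply mul_le_mul_of_nonneg_left h9 (by positivity)
      calc |x1 - c0 * t ^ a| ≤ C0 * (t / x) ^ (a - 1) * (nn (lat w) ⌊x⌋₊ : ℝ) + 1 := by linarith
        _ ≤ C0 * (t / x) ^ (a - 1) * (nn (lat w) ⌊x⌋₊ : ℝ) +
            (t / x) ^ (a - 1) * (nn (lat w) ⌊x⌋₊ : ℝ) := by linarith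
        _ = _ := by ring
    have htd : t / ρ = (Y : ℝ) / ρ / d := by
      rw [htdef]
      field_simp
    by_cases hlt : t < ρ
    · have hZρ : Y / d ≤ ρ := by
        have : ((Y / d : ℕ) : ℝ) < ρ := hZt.trans_lt hlt
        exact_mod_cast this.le
      by_cases hex : ∃ v ∈ lat w, v ≠ 0 ∧ ht v ≤ Y / d
      · have h5 := key t ht0 le_rfl
        rw [div_self ht0.ne', one_pow, mul_one, hfl] at h5
        have h6 := nn_growth (lat w) hZρ hex
        have h7 : (ρ : ℝ) * (nn (lat w) (Y / d) : ℝ) ≤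
            4 * ((Y / d : ℕ) : ℝ) * (nn (lat w) ρ : ℝ) := by exact_mod_cast h6
        have h8 : (nn (lat w) (Y / d) : ℝ) ≤ 4 * (t / ρ) * (nn (lat w) ρ : ℝ) := by
          have h9 : (ρ : ℝ) * (nn (lat w) (Y / d) : ℝ) ≤ 4 * t * (nn (lat w) ρ : ℝ) :=
            h7.trans (by gcongr)
          have h10 : 4 * (t / ρ) * (nn (lat w) ρ : ℝ) = 4 * t * (nn (lat w) ρ : ℝ) / ρ := by ring
          rw [h10, le_div_iff₀ hρ0]
          linarith
        calc _ ≤ (C0 + 1) * (nn (lat w) (Y / d) : ℝ) := h5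
          _ ≤ (C0 + 1) * (4 * (t / ρ) * (nn (lat w) ρ : ℝ)) := by gcongr
          _ = 4 * (C0 + 1) * ((Y : ℝ) / ρ) * (nn (lat w) ρ : ℝ) / d := by
              rw [htd]
              ring
          _ ≤ E / d := by
              rw [hE]
              gcongr
      · have h5 : nc w f σ q (e • r) (Y / d) = ∅ := by
          rw [Finset.eq_empty_iff_forall_notMem]
          intro v hv
          rw [mem_nc] at hv
          exact hex ⟨v, hv.2.1.1, hv.2.2, hv.1⟩
        rw [h5, card_empty, Nat.cast_zero, zero_sub, abs_neg, abs_of_nonneg (by positivity)]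
        have h6 : t ^ a ≤ (ρ : ℝ) ^ a * (t / ρ) := by
          have h7 : t ^ a = t ^ (a - 1) * t := by
            rw [← pow_succ]
            congr 1
            omega
          have h8 : (ρ : ℝ) ^ a = (ρ : ℝ) ^ (a - 1) * ρ := by
            rw [← pow_succ]
            congr 1
            omega
          rw [h7, h8]
          have h9 : (ρ : ℝ) ^ (a - 1) * ρ * (t / ρ) = (ρ : ℝ) ^ (a - 1) * t := by field_simp
          rw [h9]
          gcongr
        calc c0 * t ^ a ≤ c0 * ((ρ : ℝ) ^ a * (t / ρ)) := by gcongr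
          _ = (c0 * (ρ : ℝ) ^ a) * (t / ρ) := by ring
          _ ≤ (C0 * (nn (lat w) ρ : ℝ)) * (t / ρ) := by gcongr
          _ = C0 * ((Y : ℝ) / ρ) * (nn (lat w) ρ : ℝ) / d := by
              rw [htd]
              ring
          _ ≤ C0 * ((Y : ℝ) / ρ) ^ (a - 1) * (nn (lat w) ρ : ℝ) / d := by gcongr
          _ ≤ E / d := by gcongr
    · have hge : (ρ : ℝ) ≤ t := not_lt.1 hlt
      have h5 := key ρ hρ0 hge
      rw [Nat.floor_natCast] at h5
      have h6 : (t / ρ) ^ (a - 1) ≤ ((Y : ℝ) / ρ) ^ (a - 1) / d := by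
        rw [htd, div_pow]
        apply div_le_div_of_nonneg_left (by positivity) hd0
        exact le_self_pow₀ hd1 (by omega)
      calc _ ≤ (C0 + 1) * (t / ρ) ^ (a - 1) * (nn (lat w) ρ : ℝ) := h5
        _ ≤ (C0 + 1) * (((Y : ℝ) / ρ) ^ (a - 1) / d) * (nn (lat w) ρ : ℝ) := by gcongr
        _ = (C0 + 1) * ((Y : ℝ) / ρ) ^ (a - 1) * (nn (lat w) ρ : ℝ) / d := by ring
        _ ≤ E / d := by
            rw [hE]
            gcongr
            linarith
  have h5 := mainL ha2 hχ hE0 hc0 A hY hbound hcE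
  have h6 : ∑ d ∈ Icc 1 Y, (ArithmeticFunction.moebius d : ℝ) * A d =
      ((((bx N Y).filter fun v => v ∈ lat w ∧ Cell f σ q r v).card : ℕ) : ℝ) := by
    have h7 := moebX (w := w) (f := f) (σ := σ) (q := q) r Y
    have h8 := congrArg (Int.cast : ℤ → ℝ) h7
    push_cast at h8
    rw [cell_card, ← h8]
  rw [h6] at h5
  rw [hnn]
  refine h5.trans (le_of_eq ?_)
  rw [hE]
  ring

end Pool.Agent.T6.H81.BG
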