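import Pool.Agent.T6.H81.BG.Defs

/-!
Systems of multilinear equations are fibred in lattices.
-/

set_option autoImplicit false

namespace Pool.Agent.T6.H81.BG

open Finset Module Matrix Filter Topology
open Pool.Agent.H548.WM (ht bx mem_bx Rep)
open Pool.Agent.H548.BL (lat)
open Pool.Agent.H548.TL (evz)
open Pool.Agent.T6.H5.TW (fl MultiDeg)

namespace S34

variable {m : ℕ} {n : Fin m → ℕ}

/-- The value of a polynomial does not depend on the blocks of degree zero. -/
theorem evz_congr {p : MvPolynomial (Σ i, Fin (n i)) ℤ} {δ : Fin m → ℕ} (h : MultiDeg p δ)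
    {R : Type*} [CommRing R] {x x' : ∀ i, Fin (n i) → R} (hx : ∀ i, δ i ≠ 0 → x i = x' i) :
    evz p (fl x) = evz p (fl x') := by
  unfold evz
  rw [MvPolynomial.eval₂_eq', MvPolynomial.eval₂_eq']
  refine Finset.sum_congr rfl fun e he => ?_
  congr 1
  refine Finset.prod_congr rfl fun q _ => ?_
  obtain ⟨i, t⟩ := q
  show x i t ^ _ = x' i t ^ _
  by_cases hi : δ i = 0
  · have h1 := h e he i
    rw [hi] at h1
    have h2 := (Finset.sum_eq_zero_iff.1 h1) t (mem_univ _)
    rw [h2, pow_zero, pow_zero]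
  · rw [hx i hi]

theorem evz_upd {p : MvPolynomial (Σ i, Fin (n i)) ℤ} {δ : Fin m → ℕ} (h : MultiDeg p δ)
    {R : Type*} [CommRing R] (x : ∀ i, Fin (n i) → R) {v : Fin m} (hv : δ v = 0)
    (z : Fin (n v) → R) : evz p (fl (Function.update x v z)) = evz p (fl x) := by
  refine evz_congr h fun i hi => ?_
  rw [Function.update_of_ne]
  rintro rfl
  exact hi hv

theorem prod_lin {R : Type*} [CommRing R] {N : ℕ} (f : Fin N → ℕ) (hf : ∑ t, f t = 1)
    (y : Fin N → R) :
    ∏ t, y t ^ f t = ∑ s, (∏ t, (Pi.single s (1 : R) : Fin N → R) t ^ f t) * y s := by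
  obtain ⟨t0, ht0⟩ : ∃ t0, f t0 ≠ 0 := by
    by_contra hcon
    push Not at hcon
    simp [hcon] at hf
  have h1 : f t0 + ∑ t ∈ univ.erase t0, f t = 1 := by
    rw [Finset.add_sum_erase _ _ (mem_univ t0), hf]
  have h2 : f t0 = 1 := by omega
  have h3 : ∀ t, t ≠ t0 → f t = 0 := by
    intro t ht
    have : ∑ t ∈ univ.erase t0, f t = 0 := by omega
    exact Finset.sum_eq_zero_iff.1 this t (mem_erase.2 ⟨ht, mem_univ _⟩)
  have key : ∀ y : Fin N → R, ∏ t, y t ^ f t = y t0 := by
    intro y
    rw [Finset.prod_eq_single t0]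
    · rw [h2, pow_one]
    · intro t _ ht
      rw [h3 t ht, pow_zero]
    · intro h
      exact absurd (mem_univ _) h
  simp only [key]
  rw [Finset.sum_eq_single t0]
  · simp
  · intro s _ hs
    rw [Pi.single_eq_of_ne (Ne.symm hs), zero_mul]
  · intro h
    exact absurd (mem_univ _) h

/-- Linearity in a block of degree one. -/
theorem evz_lin {p : MvPolynomial (Σ i, Fin (n i)) ℤ} {δ : Fin m → ℕ} (h : MultiDeg p δ)
    {R : Type*} [CommRing R] (x : ∀ i, Fin (n i) → R) {v : Fin m} (hv : δ v = 1) :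
    evz p (fl x) = ∑ s, evz p (fl (Function.update x v (Pi.single s 1))) * x v s := by
  unfold evz
  simp only [MvPolynomial.eval₂_eq']
  simp only [Finset.sum_mul]
  rw [Finset.sum_comm]
  refine Finset.sum_congr rfl fun e he => ?_
  have h1 := h e he v
  rw [hv] at h1
  have key : ∀ y : ∀ i, Fin (n i) → R, ∏ q : (Σ i, Fin (n i)), fl y q ^ e q =
      (∏ t, y v t ^ e ⟨v, t⟩) * ∏ i ∈ univ.erase v, ∏ t, y i t ^ e ⟨i, t⟩ := by
    intro y
    rw [Fintype.prod_sigma, ← Finset.mul_prod_erase univ _ (mem_univ v)]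
    rfl
  have key2 : ∀ s : Fin (n v), ∏ i ∈ univ.erase v, ∏ t,
      (Function.update x v (Pi.single s (1 : R)) : ∀ i, Fin (n i) → R) i t ^ e ⟨i, t⟩ =
      ∏ i ∈ univ.erase v, ∏ t, x i t ^ e ⟨i, t⟩ := by
    intro s
    refine Finset.prod_congr rfl fun i hi => ?_
    rw [Function.update_of_ne (ne_of_mem_erase hi)]
  rw [key x, prod_lin _ h1 (x v), Finset.sum_mul, Finset.mul_sum]
  refine Finset.sum_congr rfl fun s _ => ?_
  rw [key, key2, Function.update_self]
  ring

variable {K : ℕ} {F : Fin K → MvPolynomial (Σ i, Fin (n i)) ℤ} {d : Fin K → Fin m → ℕ}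

theorem cf_dot (hF : ∀ e, MultiDeg (F e) (d e)) {e : Fin K} {v : Fin m} (h : d e v = 1)
    {R : Type*} [CommRing R] (x : ∀ i, Fin (n i) → R) :
    cf F e v x ⬝ᵥ x v = evz (F e) (fl x) :=
  (evz_lin (hF e) x h).symm

theorem cf_congr (hF : ∀ e, MultiDeg (F e) (d e)) {e : Fin K} {v : Fin m}
    {R : Type*} [CommRing R] {x x' : ∀ i, Fin (n i) → R}
    (hx : ∀ i, i ≠ v → d e i ≠ 0 → x i = x' i) : cf F e v x = cf F e v x' := by
  funext s
  refine evz_congr (hF e) fun i hi => ?_
  by_cases h : i = v
  · subst h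
    rw [Function.update_self, Function.update_self]
  · rw [Function.update_of_ne h, Function.update_of_ne h, hx i h hi]

theorem card_Eq (T : Finset (Fin m)) (v : Fin m) :
    Fintype.card (Eq d T v) =
      (univ.filter fun e : Fin K => (∀ i, i ∉ T → d e i = 0) ∧ d e v = 1).card := by
  rw [Fintype.card_subtype]

theorem mem_erase_iff {T : Finset (Fin m)} {v : Fin m} {e : Fin K} :
    (∀ i, i ∉ T.erase v → d e i = 0) ↔ (∀ i, i ∉ T → d e i = 0) ∧ d e v = 0 := by
  constructor
  · intro h
    exact ⟨fun i hi => h i fun h' => hi (mem_of_mem_erase h'), h v (notMem_erase _ _)⟩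
  · rintro ⟨h1, h2⟩ i hi
    by_cases hiv : i = v
    · rw [hiv, h2]
    · exact h1 i fun h' => hi (mem_erase.2 ⟨hiv, h'⟩)

end S34

open S34 in
/-- Module S3 -/
theorem s3 : StmtS3 := by
  intro m K n F d h01 hF hn hbad
  refine ⟨?_, ?_, ?_, ?_, ?_, ?_⟩
  · -- the inequality
    intro T v hv
    refine le_trans (Nat.add_le_add_right ?_ 1) (hn v)
    rw [card_Eq]
    set A := univ.filter fun e : Fin K => (∀ i, i ∉ T → d e i = 0) ∧ d e v = 1 with hA
    have h1 : ∑ u ∈ T.erase v, ka d T v u = ∑ e ∈ A, ∑ u ∈ T.erase v, d e u := by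
      rw [Finset.sum_comm]
      refine Finset.sum_congr rfl fun u _ => ?_
      have : (univ.filter fun e : Fin K => (∀ i, i ∉ T → d e i = 0) ∧ d e v = 1 ∧ d e u = 1) =
          A.filter fun e => d e u = 1 := by
        rw [hA, Finset.filter_filter]
        refine Finset.filter_congr fun e _ => ?_
        tauto
      rw [ka, this, Finset.card_filter]
      refine Finset.sum_congr rfl fun e _ => ?_
      have := h01 e u
      split_ifs with h
      · rw [h]
      · omega
    rw [h1, Finset.card_eq_sum_ones, ← Finset.sum_add_distrib]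
    calc ∑ e ∈ A, (1 + ∑ u ∈ T.erase v, d e u) ≤ ∑ e ∈ A, d e v * ∑ u, d e u := by
          refine Finset.sum_le_sum fun e he => ?_
          have he' : d e v = 1 := (mem_filter.1 he).2.2
          rw [he', one_mul, ← Finset.add_sum_erase univ _ (mem_univ v), he']
          refine Nat.add_le_add_left ?_ 1
          exact Finset.sum_le_sum_of_subset (Finset.erase_subset_erase _ (subset_univ _))
      _ ≤ ∑ e, d e v * ∑ u, d e u :=
          Finset.sum_le_sum_of_subset (subset_univ _)
  · -- the numbers of the equations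
    intro T v hv u hu
    rw [card_Eq, card_Eq, ka]
    have huv : u ≠ v := ne_of_mem_erase hu
    rw [← Finset.card_union_of_disjoint]
    · congr 1
      ext e
      simp only [mem_union, mem_filter, mem_univ, true_and, mem_erase_iff]
      have := h01 e v
      constructor
      · rintro (⟨⟨h1, h2⟩, h3⟩ | ⟨h1, h2, h3⟩)
        · exact ⟨h1, h3⟩
        · exact ⟨h1, h3⟩
      · rintro ⟨h1, h3⟩
        by_cases h : d e v = 0
        · exact Or.inl ⟨⟨h1, h⟩, h3⟩
        · exact Or.inr ⟨h1, by omega, h3⟩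
    · rw [Finset.disjoint_left]
      intro e he he'
      have h1 := (mem_erase_iff.1 (mem_filter.1 he).2.1).2
      have h2 := (mem_filter.1 he').2.2.1
      omega
  · -- independence of the block
    intro T v hv x z
    have h1 : ∀ u ∈ T.erase v, Function.update x v z u = x u := fun u hu =>
      Function.update_of_ne (ne_of_mem_erase hu) _ _
    have h2 : ∀ e, (∀ i, i ∉ T.erase v → d e i = 0) →
        evz (F e) (fl (Function.update x v z)) = evz (F e) (fl x) := fun e he =>
      evz_upd (hF e) x (he v (notMem_erase _ _)) z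
    have h3 : ∀ u ∈ T.erase v, (fun e : Eq d (T.erase v) u => cf F e.1 u (Function.update x v z)) =
        fun e : Eq d (T.erase v) u => cf F e.1 u x := by
      intro u hu
      funext e
      refine cf_congr hF fun i hi hd => ?_
      rw [Function.update_of_ne]
      rintro rfl
      exact hd (e.2.1 _ (notMem_erase _ _))
    constructor
    · rintro ⟨a, b, c⟩
      refine ⟨fun u hu => ?_, fun e he => ?_, fun u hu => ?_⟩
      · rw [← h1 u hu]
        exact a u hu
      · rw [← h2 e he]
        exact b e he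
      · rw [← h3 u hu]
        exact c u hu
    · rintro ⟨a, b, c⟩
      refine ⟨fun u hu => ?_, fun e he => ?_, fun u hu => ?_⟩
      · rw [h1 u hu]
        exact a u hu
      · rw [h2 e he]
        exact b e he
      · rw [h3 u hu]
        exact c u hu
  · intro T v hv x z
    funext e
    refine cf_congr hF fun i hi _ => ?_
    rw [Function.update_of_ne hi]
  · rintro T v hv x ⟨a, b, c⟩
    refine ⟨⟨fun u hu => a u (mem_of_mem_erase hu), fun e he => b e (mem_erase_iff.1 he).1,
      fun u hu => ?_⟩, c v hv, ?_⟩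
    · let g : Eq d (T.erase v) u → Eq d T u := fun e => ⟨e.1, (mem_erase_iff.1 e.2.1).1, e.2.2⟩
      have hg : Function.Injective g := fun e e' h => Subtype.ext (congrArg (fun e => e.1) h)
      exact (c u (mem_of_mem_erase hu)).comp g hg
    · intro e
      show cf F e.1 v x ⬝ᵥ x v = 0
      rw [cf_dot hF e.2.2]
      exact b e.1 e.2.1
  · intro T v hv
    obtain ⟨C, hC, h⟩ := hbad T v hv
    refine ⟨C, hC, fun x hx hl ρ hρ => ?_⟩
    convert h x hx hl ρ hρ

end Pool.Agent.T6.H81.BG
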