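import Pool.Agent.T6.H81.BG.S3

/-!
Anisotropic systems of multilinear equations.
-/

set_option autoImplicit false

namespace Pool.Agent.T6.H81.BG

open Finset Module Matrix Filter Topology
open Pool.Agent.H548.WM (ht bx mem_bx Rep)
open Pool.Agent.H548.BL (lat)
open Pool.Agent.H548.TL (evz)
open Pool.Agent.T6.H5.TW (fl MultiDeg)

open S34 in
/-- Module S4 -/
theorem s4 : StmtS4 := by
  classical
  intro m K n F d h01 hF hn hli T v hv
  refine ⟨1, zero_le_one, fun x hx hl ρ hρ => ?_⟩
  rw [one_mul]
  have hgood : ∀ z : Fin (n v) → ℤ, z ∈ lat (fun e : Eq d T v => cf F e.1 v x) → z ≠ 0 →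
      PT F d T (Function.update x v z) := by
    intro z hz hz0
    refine ⟨fun u hu => ?_, fun e he => ?_, fun u hu => ?_⟩
    · by_cases h : u = v
      · subst h
        rwa [Function.update_self]
      · rw [Function.update_of_ne h]
        exact hx.1 u (mem_erase.2 ⟨h, hu⟩)
    · by_cases h : d e v = 0
      · rw [evz_upd (hF e) x h z]
        exact hx.2.1 e (mem_erase_iff.2 ⟨he, h⟩)
      · have h1 : d e v = 1 := by have := h01 e v; omega
        rw [← cf_dot hF h1, Function.update_self]
        have h2 : cf F e v (Function.update x v z) = cf F e v x :=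
          cf_congr hF fun i hi _ => by rw [Function.update_of_ne hi]
        rw [h2]
        exact hz ⟨e, he, h1⟩
    · -- the point with arbitrary vectors outside `T`
      set y : Pt n := Function.update x v z with hy
      let x' : Pt n := fun i => if i ∈ T then y i else Pi.single ⟨0, hn i⟩ 1
      have hx' : ∀ i, x' i ≠ 0 := by
        intro i
        by_cases hi : i ∈ T
        · simp only [x', if_pos hi]
          by_cases h : i = v
          · subst h
            rw [hy, Function.update_self]
            exact hz0
          · rw [hy, Function.update_of_ne h]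
            exact hx.1 i (mem_erase.2 ⟨h, hi⟩)
        · simp only [x', if_neg hi]
          intro h
          have := congrFun h ⟨0, hn i⟩
          simp at this
      let g : Eq d T u → {e : Fin K // d e u = 1} := fun e => ⟨e.1, e.2.2⟩
      have hg : Function.Injective g := fun e e' h => Subtype.ext (congrArg (fun e => e.1) h)
      have h1 := (hli u x' hx').comp g hg
      have h2 : (fun e : Eq d T u => cf F e.1 u y) =
          (fun e : {e : Fin K // d e u = 1} => cf F e.1 u x') ∘ g := by
        funext e
        refine cf_congr hF fun i _ hd => ?_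
        have : i ∈ T := by
          by_contra h
          exact hd (e.2.1 i h)
        simp only [x', if_pos this]
      rw [h2]
      exact h1
  have hsub : ((bx (n v) ρ).filter fun z => z ∈ lat (fun e : Eq d T v => cf F e.1 v x) ∧
      ¬ PT F d T (Function.update x v z)) ⊆ {0} := by
    intro z hz
    rw [mem_filter] at hz
    rw [mem_singleton]
    by_contra h
    exact hz.2.2 (hgood z hz.2.1 h)
  have h1 : (((bx (n v) ρ).filter fun z => z ∈ lat (fun e : Eq d T v => cf F e.1 v x) ∧
      ¬ PT F d T (Function.update x v z)).card : ℝ) ≤ 1 := by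
    have := Finset.card_le_card hsub
    rw [card_singleton] at this
    exact_mod_cast this
  have h2 : (1 : ℝ) ≤ (ρ : ℝ) ^ (n v - Fintype.card (Eq d T v) -
      ∑ u ∈ T.erase v, ka d T v u - 1) := one_le_pow₀ (by exact_mod_cast hρ)
  refine le_trans ?_ (h1.trans h2)
  apply le_of_eq
  congr!

end Pool.Agent.T6.H81.BG
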