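import Mathlib
import Pool.Agent.T6.H81.BG.Defs
import Pool.Agent.T6.H5.TW.E

/-! Module S6: a lower bound. -/

set_option autoImplicit false

namespace Pool.Agent.T6.H81.BG

open Finset Module Matrix Filter Topology
open Pool.Agent.H548.WM (ht bx mem_bx Rep)
open Pool.Agent.H548.BL (lat)
open Pool.Agent.H548.TL (evz evz_map)
open Pool.Agent.T6.H5.TW (fl MultiDeg InV Pts finite_pts low)

namespace S6

variable {M : ℕ} {n : Fin M → ℕ}

/-- the weight of the block `i` -/
def wb (i : Fin M) (q : Σ i, Fin (n i)) : ℕ := if q.1 = i then 1 else 0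

theorem weight_wb (i : Fin M) (a : (Σ i, Fin (n i)) →₀ ℕ) :
    Finsupp.weight (wb i) a = ∑ t : Fin (n i), a ⟨i, t⟩ := by
  rw [Finsupp.weight_apply, Finsupp.sum_fintype _ _ (fun _ => by simp), Fintype.sum_sigma]
  rw [Finset.sum_eq_single i]
  · simp [wb]
  · intro j _ hj
    simp [wb, hj]
  · intro h
    exact absurd (mem_univ i) h

theorem multiDeg_iff {p : MvPolynomial (Σ i, Fin (n i)) ℤ} {δ : Fin M → ℕ} :
    MultiDeg p δ ↔ ∀ i, MvPolynomial.IsWeightedHomogeneous (wb i) p (δ i) := by
  constructor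
  · intro h i a ha
    rw [weight_wb]
    exact h a (MvPolynomial.mem_support_iff.2 ha) i
  · intro h a ha i
    have := h i (MvPolynomial.mem_support_iff.1 ha)
    rwa [weight_wb] at this

/-- substitution -/
theorem deg_subst {p : MvPolynomial (Σ i, Fin (n i)) ℤ} {δ : Fin M → ℕ} (h : MultiDeg p δ)
    {w : (Σ i, Fin (n i)) → ℕ} {D : Fin M → ℕ} {f : (Σ i, Fin (n i)) → MvPolynomial (Σ i, Fin (n i)) ℤ}
    (hf : ∀ q, MvPolynomial.IsWeightedHomogeneous w (f q) (D q.1)) :
    MvPolynomial.IsWeightedHomogeneous w (evz p f) (∑ i, δ i * D i) := by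
  unfold evz
  rw [MvPolynomial.eval₂_eq']
  apply MvPolynomial.IsWeightedHomogeneous.sum
  intro a ha
  have h1 : MvPolynomial.IsWeightedHomogeneous w
      ((Int.castRingHom (MvPolynomial (Σ i, Fin (n i)) ℤ)) (MvPolynomial.coeff a p)) 0 := by
    have e1 : (Int.castRingHom (MvPolynomial (Σ i, Fin (n i)) ℤ)) (MvPolynomial.coeff a p) =
        MvPolynomial.C (MvPolynomial.coeff a p) := by simp
    rw [e1]
    exact MvPolynomial.isWeightedHomogeneous_C w _
  have h2 := MvPolynomial.IsWeightedHomogeneous.prod univ (fun q => f q ^ a q)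
    (fun q => a q • D q.1) (w := w) (fun q _ => (hf q).pow (a q))
  have h3 := h1.mul h2
  have e2 : 0 + ∑ q : (Σ i, Fin (n i)), a q • D q.1 = ∑ i, δ i * D i := by
    rw [zero_add, Fintype.sum_sigma]
    refine Finset.sum_congr rfl fun i _ => ?_
    rw [← h a ha i, Finset.sum_mul]
    refine Finset.sum_congr rfl fun t _ => ?_
    rw [smul_eq_mul]
  rw [← e2]
  exact h3

/-- evaluation is linear in a block of degree one -/
theorem lin {p : MvPolynomial (Σ i, Fin (n i)) ℤ} {δ : Fin M → ℕ} (h : MultiDeg p δ) {v : Fin M}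
    (hv : δ v = 1) {R : Type*} [CommRing R] (x : ∀ i, Fin (n i) → R) (y : Fin (n v) → R) :
    ∑ s, evz p (fl (Function.update x v (Pi.single s 1))) * y s =
      evz p (fl (Function.update x v y)) := by
  classical
  unfold evz
  simp only [MvPolynomial.eval₂_eq', Finset.sum_mul]
  rw [Finset.sum_comm]
  refine Finset.sum_congr rfl fun a ha => ?_
  have h1 := h a ha v
  rw [hv] at h1
  obtain ⟨s0, hs0⟩ : ∃ s0, ∀ t, a ⟨v, t⟩ = if t = s0 then 1 else 0 := by
    obtain ⟨s0, -, hs⟩ : ∃ s ∈ univ, 0 < a ⟨v, s⟩ := by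
      by_contra hcon
      push Not at hcon
      have : ∑ t, a ⟨v, t⟩ = 0 := Finset.sum_eq_zero fun t ht => Nat.le_zero.1 (hcon t ht)
      omega
    have h2 := Finset.add_sum_erase univ (fun t => a ⟨v, t⟩) (mem_univ s0)
    have h3 : a ⟨v, s0⟩ = 1 := by omega
    have h4 : ∑ t ∈ univ.erase s0, a ⟨v, t⟩ = 0 := by omega
    refine ⟨s0, fun t => ?_⟩
    split_ifs with ht
    · rw [ht, h3]
    · exact Finset.sum_eq_zero_iff.1 h4 t (mem_erase.2 ⟨ht, mem_univ t⟩)
  have key : ∀ z : Fin (n v) → R, ∏ q, fl (Function.update x v z) q ^ a q =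
      (∏ i ∈ univ.erase v, ∏ t, x i t ^ a ⟨i, t⟩) * z s0 := by
    intro z
    rw [Fintype.prod_sigma, ← Finset.mul_prod_erase univ _ (mem_univ v), mul_comm]
    congr 1
    · refine Finset.prod_congr rfl fun i hi => ?_
      refine Finset.prod_congr rfl fun t _ => ?_
      show (Function.update x v z) i t ^ _ = _
      rw [Function.update_of_ne (ne_of_mem_erase hi)]
    · have e1 : ∀ t, fl (Function.update x v z) ⟨v, t⟩ ^ a ⟨v, t⟩ = if t = s0 then z t else 1 := by
        intro t
        show (Function.update x v z) v t ^ _ = _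
        rw [Function.update_self, hs0 t]
        split_ifs <;> simp
      simp only [e1]
      rw [Finset.prod_ite_eq' univ s0]
      simp
  simp only [key]
  rw [Finset.sum_eq_single s0]
  · simp
    ring
  · intro s _ hs
    rw [Pi.single_eq_of_ne (Ne.symm hs)]
    ring
  · intro h
    exact absurd (mem_univ s0) h

/-- the generic point -/
noncomputable def gp (n : Fin M → ℕ) : ∀ i, Fin (n i) → MvPolynomial (Σ i, Fin (n i)) ℤ :=
  fun i t => MvPolynomial.X ⟨i, t⟩

/-- the coefficient polynomial -/
noncomputable def Cp {K : ℕ} (F : Fin K → MvPolynomial (Σ i, Fin (n i)) ℤ) (e : Fin K) (v : Fin M)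
    (s : Fin (n v)) : MvPolynomial (Σ i, Fin (n i)) ℤ :=
  evz (F e) (fl (Function.update (gp n) v (Pi.single s 1)))

theorem evz_hom {R : Type*} [CommRing R] (x : ∀ i, Fin (n i) → R)
    (p : MvPolynomial (Σ i, Fin (n i)) ℤ) :
    evz p (fl x) = MvPolynomial.eval₂Hom (Int.castRingHom R) (fl x) p := rfl

theorem evz_Cp {K : ℕ} (F : Fin K → MvPolynomial (Σ i, Fin (n i)) ℤ) (e : Fin K) (v : Fin M)
    (s : Fin (n v)) {R : Type*} [CommRing R] (x : ∀ i, Fin (n i) → R) :
    evz (Cp F e v s) (fl x) = cf F e v x s := by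
  unfold cf
  rw [evz_hom]
  unfold Cp
  rw [evz_map]
  congr 1
  funext q
  obtain ⟨i, t⟩ := q
  show MvPolynomial.eval₂Hom (Int.castRingHom R) (fl x)
    (Function.update (gp n) v (Pi.single s 1) i t) = Function.update x v (Pi.single s 1) i t
  by_cases hi : i = v
  · subst hi
    rw [Function.update_self, Function.update_self]
    by_cases hts : t = s
    · subst hts
      simp
    · rw [Pi.single_eq_of_ne hts, Pi.single_eq_of_ne hts, map_zero]
  · rw [Function.update_of_ne hi, Function.update_of_ne hi]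
    unfold gp
    simp [fl]

theorem deg_Cp {K : ℕ} {F : Fin K → MvPolynomial (Σ i, Fin (n i)) ℤ} {d : Fin K → Fin M → ℕ}
    (hF : ∀ e, MultiDeg (F e) (d e)) (e : Fin K) (v : Fin M) (s : Fin (n v)) :
    MultiDeg (Cp F e v s) (fun i => if i = v then 0 else d e i) := by
  rw [multiDeg_iff]
  intro i0
  have h1 : ∀ q : (Σ i, Fin (n i)), MvPolynomial.IsWeightedHomogeneous (wb i0)
      (fl (Function.update (gp n) v (Pi.single s 1)) q)
      ((fun i => if i = v then 0 else if i = i0 then 1 else 0) q.1) := by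
    rintro ⟨i, t⟩
    show MvPolynomial.IsWeightedHomogeneous (wb i0)
      (Function.update (gp n) v (Pi.single s 1) i t) (if i = v then 0 else if i = i0 then 1 else 0)
    by_cases hi : i = v
    · subst hi
      rw [Function.update_self, if_pos rfl]
      by_cases hts : t = s
      · subst hts
        rw [Pi.single_eq_same]
        exact MvPolynomial.isWeightedHomogeneous_one _ _
      · rw [Pi.single_eq_of_ne hts]
        exact MvPolynomial.isWeightedHomogeneous_zero _ _ _
    · rw [Function.update_of_ne hi, if_neg hi]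
      exact MvPolynomial.isWeightedHomogeneous_X _ _ _
  have h2 := deg_subst (w := wb i0) (D := fun i => if i = v then 0 else if i = i0 then 1 else 0)
    (hF e) h1
  have e3 : (if i0 = v then 0 else d e i0) =
      ∑ i, d e i * (if i = v then 0 else if i = i0 then 1 else 0) := by
    by_cases hi : i0 = v
    · subst hi
      rw [if_pos rfl]
      symm
      apply Finset.sum_eq_zero
      intro i _
      split_ifs <;> simp_all
    · rw [if_neg hi, Finset.sum_eq_single i0]
      · rw [if_neg hi, if_pos rfl, mul_one]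
      · intro i _ hii
        rw [if_neg hii]
        simp
      · intro h
        exact absurd (mem_univ i0) h
  show MvPolynomial.IsWeightedHomogeneous (wb i0) (Cp F e v s) (if i0 = v then 0 else d e i0)
  rw [e3]
  exact h2

theorem sum_fib {K : ℕ} {M : ℕ} (jl : Fin K → Fin M) (k : Fin M → ℕ)
    (en : ∀ j, Fin (k j) ≃ {e : Fin K // jl e = j}) (g : Fin M → Fin K → ℕ) :
    ∑ j, ∑ l : Fin (k j), g j (en j l).1 = ∑ e, g (jl e) e := by
  classical
  have h1 : ∀ j, ∑ l : Fin (k j), g j (en j l).1 =
      ∑ e ∈ univ.filter (fun e => jl e = j), g (jl e) e := by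
    intro j
    rw [Equiv.sum_comp (en j) (fun e : {e : Fin K // jl e = j} => g j e.1)]
    rw [Finset.sum_subtype (univ.filter (fun e => jl e = j)) (p := fun e => jl e = j)
      (fun e => by simp) (fun e => g (jl e) e)]
    refine Finset.sum_congr rfl fun e _ => ?_
    rw [e.2]
  rw [Finset.sum_congr rfl fun j _ => h1 j]
  exact Finset.sum_fiberwise univ jl fun e => g (jl e) e

end S6

open S6 in
theorem s6 : StmtS6 := by
  classical
  intro m K n F d hd1 hF hex hn hz
  obtain ⟨z, -, hzZ, hzL⟩ := hz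
  -- the last block
  have hlast : ∀ e, ∃ j, d e j = 1 ∧ ∀ i, j < i → d e i = 0 := by
    intro e
    obtain ⟨v, hv⟩ := hex e
    obtain ⟨j, hj, hmax⟩ := Finset.exists_max_image (univ.filter fun i => d e i = 1) id
      ⟨v, by simpa using hv⟩
    rw [mem_filter] at hj
    refine ⟨j, hj.2, fun i hi => ?_⟩
    by_contra h0
    have h1 : d e i = 1 := by
      have := hd1 e i
      omega
    have := hmax i (by simpa using h1)
    exact absurd hi (not_lt.2 this)
  choose jl hjl hjl0 using hlast
  obtain ⟨k, hk⟩ : ∃ k : Fin (m + 1) → ℕ, ∀ j, k j = Fintype.card {e : Fin K // jl e = j} :=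
    ⟨_, fun _ => rfl⟩
  have hen : ∀ j, Nonempty (Fin (k j) ≃ {e : Fin K // jl e = j}) := fun j =>
    ⟨(finCongr (hk j)).trans (Fintype.equivFin _).symm⟩
  have en := fun j => (hen j).some
  -- the numbers of the equations of the blocks
  have hkd : ∀ i, k i + ∑ e, (if i = jl e then 0 else d e i) = ∑ e, d e i := by
    intro i
    have h1 : k i = ∑ e, (if i = jl e then d e i else 0) := by
      rw [hk, Fintype.card_subtype, Finset.card_filter]
      refine Finset.sum_congr rfl fun e _ => ?_
      by_cases h : jl e = i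
      · subst h
        rw [if_pos rfl, if_pos rfl, hjl]
      · rw [if_neg h, if_neg (Ne.symm h)]
    rw [h1, ← Finset.sum_add_distrib]
    refine Finset.sum_congr rfl fun e _ => ?_
    split_ifs <;> simp
  -- the minors
  have hJ : ∀ v, ∃ (r : ℕ) (ev : Fin r ≃ {e : Fin K // d e v = 1}) (J : Fin r → Fin (n v)),
      (Matrix.det (Matrix.of fun l s => cf F (ev l).1 v z (J s))) ≠ 0 := by
    intro v
    obtain ⟨ev⟩ : Nonempty (Fin (Fintype.card {e : Fin K // d e v = 1}) ≃
      {e : Fin K // d e v = 1}) := ⟨(Fintype.equivFin _).symm⟩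
    have h1 := (hzL v).comp ev ev.injective
    obtain ⟨J, hJ⟩ := Pool.Agent.H548.BK.exists_minor'
      (B := Matrix.of fun l s => cf F (ev l).1 v z s) h1
    exact ⟨_, ev, J, hJ⟩
  choose r ev J hJ using hJ
  set G : MvPolynomial (Σ i, Fin (n i)) ℤ :=
    ∏ v, Matrix.det (Matrix.of fun l s => Cp F (ev v l).1 v (J v s)) with hG
  have hGe : ∀ {R : Type} [CommRing R] (x : ∀ i, Fin (n i) → R), evz G (fl x) =
      ∏ v, Matrix.det (Matrix.of fun l s => cf F (ev v l).1 v x (J v s)) := by
    intro R _ x
    rw [evz_hom, hG, map_prod]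
    refine Finset.prod_congr rfl fun v _ => ?_
    rw [RingHom.map_det]
    congr 1
    ext l s
    show MvPolynomial.eval₂Hom (Int.castRingHom R) (fl x) (Cp F (ev v l).1 v (J v s)) = _
    rw [← evz_hom, evz_Cp]
    rfl
  set F' : ∀ j, Fin (k j) → Fin (n j) → MvPolynomial (Σ i, Fin (n i)) ℤ :=
    fun j l s => Cp F (en j l).1 j s with hF'
  have hInV : InV F' G z := by
    refine ⟨?_, ?_, ?_⟩
    · intro j l
      have h6 : ∀ s, evz (F' j l s) (fl z) =
          evz (F (en j l).1) (fl (Function.update z j (Pi.single s 1))) := by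
        intro s
        rw [hF']
        simp only
        rw [evz_Cp]
        rfl
      simp only [h6]
      have h7 : d (en j l).1 j = 1 := by
        have := hjl (en j l).1
        rwa [(en j l).2] at this
      rw [lin (hF _) h7, Function.update_eq_self]
      exact hzZ _
    · intro j
      have h7 : ∀ l, d (en j l).1 j = 1 := fun l => by
        have := hjl (en j l).1
        rwa [(en j l).2] at this
      have h8 := (hzL j).comp (fun l : Fin (k j) => (⟨(en j l).1, h7 l⟩ : {e : Fin K // d e j = 1}))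
        (fun l l' h => by
          have h9 := congrArg Subtype.val h
          exact (en j).injective (Subtype.ext h9))
      have e4 : (fun (l : Fin (k j)) s => evz (F' j l s) (fl z)) =
          (fun e : {e : Fin K // d e j = 1} => cf F e.1 j z) ∘
            (fun l : Fin (k j) => (⟨(en j l).1, h7 l⟩ : {e : Fin K // d e j = 1})) := by
        funext l s
        rw [hF']
        simp only
        rw [evz_Cp]
        rfl
      rw [e4]
      exact h8
    · rw [hGe]
      exact Finset.prod_ne_zero_iff.2 fun v _ => hJ v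
  have ha1 : ∀ i, 1 ≤ n i - ∑ e, d e i := fun i => by
    have := hn i
    omega
  obtain ⟨c, B₀, hc, hlow⟩ := low (k := k) (F := F') (G := G)
    (d := fun j l i => if i = j then 0 else d (en j l).1 i)
    (a := fun i => n i - ∑ e, d e i) (fun j => by
      have h1 := hkd j
      have h2 := hn j
      omega) (fun j l s => deg_Cp hF _ _ _) (fun j l i hi => by
      show (if i = j then 0 else d (en j l).1 i) = 0
      split_ifs with h
      · rfl
      · apply hjl0
        rw [(en j l).2]
        exact lt_of_le_of_ne hi (fun h' => h h'.symm)) (fun i => by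
      have h1 := sum_fib jl k en fun j e => if i = j then 0 else d e i
      have h2 := hkd i
      have h3 := hn i
      show n i - ∑ e, d e i + ∑ j, ∑ l : Fin (k j), (if i = j then 0 else d (en j l).1 i) + k i = n i
      rw [h1]
      omega) ha1 ⟨z, hInV⟩
  refine ⟨c, B₀, hc, fun B hB => (hlow B hB).trans ?_⟩
  have hfin : {x : Pt n | (∀ v, Rep (x v)) ∧ Zr F x ∧
    (∀ v, LinearIndependent ℤ (fun e : {e : Fin K // d e v = 1} => cf F e.1 v x)) ∧
    ∏ v, (ht (x v) : ℝ) ^ (n v - ∑ e, d e v) ≤ B}.Finite := by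
    apply (finite_pts (k := fun _ => 0) (fun _ l _ => l.elim0) 1 ha1 B).subset
    rintro x ⟨h1, -, -, h2⟩
    refine ⟨h1, ⟨fun j l => l.elim0, fun j => linearIndependent_empty_type, ?_⟩, h2⟩
    unfold evz
    rw [MvPolynomial.eval₂_one]
    exact one_ne_zero
  have hsub : Pts F' G (fun i => n i - ∑ e, d e i) B ⊆ {x : Pt n | (∀ v, Rep (x v)) ∧ Zr F x ∧
    (∀ v, LinearIndependent ℤ (fun e : {e : Fin K // d e v = 1} => cf F e.1 v x)) ∧
    ∏ v, (ht (x v) : ℝ) ^ (n v - ∑ e, d e v) ≤ B} := by
    rintro x ⟨h1, ⟨h2, -, h3⟩, h4⟩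
    refine ⟨h1, ?_, ?_, h4⟩
    · intro e
      have h5 := h2 (jl e) ((en (jl e)).symm ⟨e, rfl⟩)
      have h6 : ∀ s, evz (F' (jl e) ((en (jl e)).symm ⟨e, rfl⟩) s) (fl x) =
          evz (F e) (fl (Function.update x (jl e) (Pi.single s 1))) := by
        intro s
        rw [hF']
        simp only [Equiv.apply_symm_apply]
        rw [evz_Cp]
        rfl
      simp only [h6] at h5
      rw [lin (hF e) (hjl e), Function.update_eq_self] at h5
      exact h5
    · intro v
      rw [hGe] at h3
      have h5 := (Finset.prod_ne_zero_iff.1 h3) v (mem_univ v)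
      have h6 := Pool.Agent.H548.BK.indep_of_det
        (A := Matrix.of fun l s => cf F (ev v l).1 v x s) (J := J v) h5
      exact (linearIndependent_equiv (ev v)).1 h6
  exact_mod_cast Set.ncard_le_ncard hsub hfin

end Pool.Agent.T6.H81.BG
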