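import Mathlib
import Pool.Agent.T6.H81.BG.Defs

/-! Module S7: integer points of systems of multilinear equations. -/

set_option autoImplicit false

namespace Pool.Agent.T6.H81.BG

open Finset Module Matrix
open Pool.Agent.H548.TL (evz)
open Pool.Agent.T6.H5.TW (fl MultiDeg)

namespace S7

variable {m K : ℕ} {n : Fin m → ℕ}

theorem indep {p : MvPolynomial (Σ i, Fin (n i)) ℤ} {δ : Fin m → ℕ} (h : MultiDeg p δ)
    {R : Type*} [CommRing R] {x x' : ∀ i, Fin (n i) → R} (hx : ∀ i, δ i ≠ 0 → x i = x' i) :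
    evz p (fl x) = evz p (fl x') := by
  unfold evz
  rw [MvPolynomial.eval₂_eq', MvPolynomial.eval₂_eq']
  refine Finset.sum_congr rfl fun e he => ?_
  congr 1
  refine Finset.prod_congr rfl fun q _ => ?_
  obtain ⟨i, t⟩ := q
  by_cases hi : δ i = 0
  · have h1 := h e he i
    rw [hi] at h1
    have h2 := (Finset.sum_eq_zero_iff.1 h1) t (mem_univ _)
    rw [h2, pow_zero, pow_zero]
  · show x i t ^ _ = x' i t ^ _
    rw [hx i hi]

theorem prod_lin {N : ℕ} {R : Type*} [CommRing R] (c : Fin N → ℕ) (hc : ∑ t, c t = 1)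
    (z : Fin N → R) :
    ∏ t, z t ^ c t = ∑ s, (∏ t, (Pi.single s (1 : R) : Fin N → R) t ^ c t) * z s := by
  obtain ⟨t0, ht0⟩ : ∃ t0, c t0 ≠ 0 := by
    by_contra hcon
    push Not at hcon
    simp [hcon] at hc
  have h1 : c t0 = 1 ∧ ∀ t, t ≠ t0 → c t = 0 := by
    have h0 := Finset.add_sum_erase univ c (mem_univ t0)
    have h2 : ∑ t ∈ univ.erase t0, c t = 0 := by omega
    refine ⟨by omega, fun t ht => (Finset.sum_eq_zero_iff.1 h2) t (by simp [ht])⟩
  have h3 : ∀ y : Fin N → R, ∏ t, y t ^ c t = y t0 := by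
    intro y
    rw [Finset.prod_eq_single t0]
    · rw [h1.1, pow_one]
    · intro t _ ht
      rw [h1.2 t ht, pow_zero]
    · simp
  simp_rw [h3]
  rw [Finset.sum_eq_single t0]
  · simp
  · intro s _ hs
    simp [hs.symm]
  · simp

theorem evz_lin {p : MvPolynomial (Σ i, Fin (n i)) ℤ} {δ : Fin m → ℕ} (h : MultiDeg p δ)
    {v : Fin m} (hv : δ v = 1) {R : Type*} [CommRing R] (x : ∀ i, Fin (n i) → R)
    (z : Fin (n v) → R) :
    evz p (fl (Function.update x v z)) =
      ∑ s, evz p (fl (Function.update x v (Pi.single s 1))) * z s := by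
  unfold evz
  simp_rw [MvPolynomial.eval₂_eq', Finset.sum_mul]
  rw [Finset.sum_comm]
  refine Finset.sum_congr rfl fun e he => ?_
  simp only [mul_assoc]
  rw [← Finset.mul_sum]
  congr 1
  have hsplit : ∀ y : Fin (n v) → R, ∏ q : (Σ i, Fin (n i)), fl (Function.update x v y) q ^ e q =
      (∏ i ∈ univ.erase v, ∏ t, x i t ^ e ⟨i, t⟩) * ∏ t, y t ^ e ⟨v, t⟩ := by
    intro y
    rw [Fintype.prod_sigma, ← Finset.prod_erase_mul univ _ (mem_univ v)]
    congr 1
    · refine Finset.prod_congr rfl fun i hi => Finset.prod_congr rfl fun t _ => ?_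
      show Function.update x v y i t ^ _ = _
      rw [Function.update_of_ne (Finset.ne_of_mem_erase hi)]
    · refine Finset.prod_congr rfl fun t _ => ?_
      show Function.update x v y v t ^ _ = _
      rw [Function.update_self]
  rw [hsplit z]
  have hsum : ∀ s : Fin (n v), (∏ q : (Σ i, Fin (n i)),
      fl (Function.update x v (Pi.single s 1)) q ^ e q) * z s =
      (∏ i ∈ univ.erase v, ∏ t, x i t ^ e ⟨i, t⟩) *
        ((∏ t, (Pi.single s (1 : R) : Fin (n v) → R) t ^ e ⟨v, t⟩) * z s) := by
    intro s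
    rw [hsplit, mul_assoc]
  simp_rw [hsum]
  rw [← Finset.mul_sum, ← prod_lin (fun t => e ⟨v, t⟩) (by rw [h e he v, hv]) z]

/-- A homogeneous system with fewer equations than unknowns has an integer solution. -/
theorem exists_sol {N : ℕ} {ι : Type*} [Fintype ι] (A : ι → Fin N → ℤ)
    (h : Fintype.card ι < N) : ∃ z : Fin N → ℤ, z ≠ 0 ∧ ∀ i, A i ⬝ᵥ z = 0 := by
  by_contra hcon
  push Not at hcon
  have hinj : Function.Injective (Matrix.mulVecLin (Matrix.of A)) := by
    rw [injective_iff_map_eq_zero]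
    intro z hz
    by_contra hz0
    obtain ⟨i, hi⟩ := hcon z hz0
    exact hi (congrFun hz i)
  have := LinearMap.finrank_le_finrank_of_injective hinj
  rw [Module.finrank_fin_fun, Module.finrank_fintype_fun_eq_card] at this
  omega

theorem step (F : Fin K → MvPolynomial (Σ i, Fin (n i)) ℤ)
    (d : Fin K → Fin m → ℕ) (hd : ∀ e v, d e v ≤ 1) (hF : ∀ e, MultiDeg (F e) (d e))
    (h1 : ∀ e, ∃ v, d e v = 1) (hn : ∀ v, ∑ e, d e v + 1 ≤ n v) (t : ℕ) (ht : t ≤ m) :
    ∃ x : Pt n, (∀ v : Fin m, (v : ℕ) < t → x v ≠ 0) ∧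
      ∀ e, (∀ v : Fin m, d e v ≠ 0 → (v : ℕ) < t) → evz (F e) (fl x) = 0 := by
  classical
  induction t with
  | zero =>
    refine ⟨0, fun v hv => absurd hv (Nat.not_lt_zero _), fun e he => ?_⟩
    obtain ⟨v, hv⟩ := h1 e
    exact absurd (he v (by omega)) (Nat.not_lt_zero _)
  | succ t ih =>
    obtain ⟨x, hx0, hx⟩ := ih (by omega)
    set j : Fin m := ⟨t, by omega⟩ with hj
    have hc : Fintype.card {e : Fin K // d e j = 1} ≤ ∑ e, d e j := by
      rw [Fintype.card_subtype, Finset.card_filter]
      refine Finset.sum_le_sum fun e _ => ?_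
      split_ifs with h
      · omega
      · exact Nat.zero_le _
    obtain ⟨z, hz0, hz⟩ := exists_sol (fun e : {e : Fin K // d e j = 1} => cf F e.1 j x)
      (by have := hn j; omega)
    refine ⟨Function.update x j z, ?_, ?_⟩
    · intro v hv
      by_cases hvj : v = j
      · subst hvj
        rw [Function.update_self]
        exact hz0
      · rw [Function.update_of_ne hvj]
        apply hx0
        have : (v : ℕ) ≠ t := fun h => hvj (Fin.ext h)
        omega
    · intro e he
      by_cases hej : d e j = 0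
      · rw [indep (hF e) (x' := x)]
        · apply hx e
          intro v hv
          have h2 := he v hv
          have : (v : ℕ) ≠ t := by
            intro h
            apply hv
            have : v = j := Fin.ext h
            rw [this, hej]
          omega
        · intro i hi
          rw [Function.update_of_ne]
          rintro rfl
          exact hi hej
      · have hej1 : d e j = 1 := by have := hd e j; omega
        rw [evz_lin (hF e) hej1 x z]
        exact hz ⟨e, hej1⟩

end S7

/-- Module S7. -/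
theorem s7 : StmtS7 := by
  intro m K n F d hd hF h1 hn
  obtain ⟨x, hx0, hx⟩ := S7.step F d hd hF h1 hn m le_rfl
  exact ⟨x, fun v => hx0 v v.2, fun e => hx e fun v _ => v.2⟩

end Pool.Agent.T6.H81.BG
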