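import Mathlib
import Pool.Agent.T6.H81.BG.Defs

/-! Module S8: the variety over the real and the `p`-adic numbers. -/

set_option autoImplicit false

namespace Pool.Agent.T6.H81.BG

open Finset Module Matrix Topology
open Pool.Agent.H548.TL (evz)
open Pool.Agent.T6.H5.TW (fl MultiDeg)

namespace S8

variable {m K : ℕ} {n : Fin m → ℕ}

/-- Scaling of the blocks. -/
theorem evz_smul {p : MvPolynomial (Σ i, Fin (n i)) ℤ} {δ : Fin m → ℕ} (h : MultiDeg p δ)
    {R : Type*} [CommRing R] (s : Fin m → R) (x : ∀ i, Fin (n i) → R) :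
    evz p (fl (fun v => s v • x v)) = (∏ v, s v ^ δ v) * evz p (fl x) := by
  unfold evz
  rw [MvPolynomial.eval₂_eq', MvPolynomial.eval₂_eq', Finset.mul_sum]
  refine Finset.sum_congr rfl fun e he => ?_
  have e1 : ∏ q : (Σ i, Fin (n i)), fl (fun v => s v • x v) q ^ e q =
      (∏ v, s v ^ δ v) * ∏ q : (Σ i, Fin (n i)), fl x q ^ e q := by
    rw [Fintype.prod_sigma, Fintype.prod_sigma, ← Finset.prod_mul_distrib]
    refine Finset.prod_congr rfl fun i _ => ?_
    have : ∀ t : Fin (n i), fl (fun v => s v • x v) ⟨i, t⟩ ^ e ⟨i, t⟩ =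
        s i ^ e ⟨i, t⟩ * fl x ⟨i, t⟩ ^ e ⟨i, t⟩ := by
      intro t
      rw [← mul_pow]
      rfl
    simp_rw [this]
    rw [Finset.prod_mul_distrib, Finset.prod_pow_eq_pow_sum, h e he i]
  rw [e1]
  ring

theorem continuous_evz {K' : Type} [NormedField K'] (p : MvPolynomial (Σ i, Fin (n i)) ℤ) :
    Continuous fun x : (∀ i, Fin (n i) → K') => evz p (fl x) := by
  unfold evz
  simp_rw [MvPolynomial.eval₂_eq']
  refine continuous_finsetSum _ fun e _ => continuous_const.mul ?_
  refine continuous_finsetProd _ fun q _ => ?_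
  exact ((continuous_apply q.2).comp (continuous_apply q.1)).pow _

theorem cone {K' : Type} [NormedField K'] (F : Fin K → MvPolynomial (Σ i, Fin (n i)) ℤ)
    (d : Fin K → Fin m → ℕ) (hF : ∀ e, MultiDeg (F e) (d e)) :
    Cone {x : ∀ v, Fin (n v) → K' | Zr F x} := by
  constructor
  · have : {x : ∀ v, Fin (n v) → K' | Zr F x} = ⋂ e, {x | evz (F e) (fl x) = 0} := by
      ext x
      simp [Zr]
    rw [this]
    exact isClosed_iInter fun e => isClosed_eq (continuous_evz _) continuous_const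
  · intro x hx s _ e
    rw [evz_smul (hF e), hx e, mul_zero]

end S8

/-- Module S8. -/
theorem s8 : StmtS8 := fun _ _ _ F d hF => ⟨S8.cone F d hF, fun _ => S8.cone F d hF⟩

end Pool.Agent.T6.H81.BG
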