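import Mathlib
import Pool.Agent.T6.H81.BG.Defs

/-!
Module W3 (helper24, adapted from module W by helper11): the asymptotic formula for heights with a factor which is almost constant on
cells.
-/

set_option autoImplicit false

namespace Pool.Agent.T6.H81.BG

open Filter Topology

namespace ModW3

theorem scale (m : ℕ) {s : ℝ} (hs : 0 < s) :
    Tendsto (fun B : ℝ => (s * B) * Real.log (s * B) ^ m / (B * Real.log B ^ m)) atTop (𝓝 s) := by
  have h1 : Tendsto (fun B : ℝ => Real.log s / Real.log B) atTop (𝓝 0) :=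
    Real.tendsto_log_atTop.const_div_atTop _
  have h2 : Tendsto (fun B : ℝ => s * (Real.log s / Real.log B + 1) ^ m) atTop
      (𝓝 (s * (0 + 1) ^ m)) := ((h1.add_const 1).pow m).const_mul s
  rw [zero_add, one_pow, mul_one] at h2
  refine h2.congr' ?_
  filter_upwards [eventually_gt_atTop (1:ℝ)] with B hB
  have hB0 : (0:ℝ) < B := by linarith
  have hl : 0 < Real.log B := Real.log_pos hB
  rw [Real.log_mul hs.ne' hB0.ne']
  have e : Real.log s + Real.log B = (Real.log s / Real.log B + 1) * Real.log B := by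
    field_simp
  rw [e, mul_pow]
  field_simp

theorem scaled_count {m : ℕ} {n : ℝ → ℝ} {κ s : ℝ} (hs : 0 < s)
    (hn : Tendsto (fun B : ℝ => n B / (B * Real.log B ^ m)) atTop (𝓝 κ)) :
    Tendsto (fun B : ℝ => n (s * B) / (B * Real.log B ^ m)) atTop (𝓝 (κ * s)) := by
  have h0 : Tendsto (fun B : ℝ => s * B) atTop atTop := tendsto_id.const_mul_atTop hs
  have h1 := hn.comp h0
  have h2 := h1.mul (scale m hs)
  refine h2.congr' ?_
  filter_upwards [eventually_gt_atTop (1:ℝ), h0.eventually_gt_atTop 1] with B hB hB1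
  have hB0 : (0:ℝ) < B := by linarith
  have hl : 0 < Real.log B := Real.log_pos hB
  have hl1 : 0 < Real.log (s * B) := Real.log_pos hB1
  have hsB : 0 < s * B := by linarith
  simp only [Function.comp]
  rw [div_mul_div_cancel₀ (mul_pos hsB (pow_pos hl1 m)).ne']

theorem ncard_fiber {α I : Type} [Fintype I] (cell : α → I) {S : Set α} (hS : S.Finite) :
    (S.ncard : ℝ) = ∑ i, ({t | t ∈ S ∧ cell t = i}.ncard : ℝ) := by
  classical
  have h1 : S.ncard = ∑ i, {t | t ∈ S ∧ cell t = i}.ncard := by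
    rw [Set.ncard_eq_toFinset_card S hS,
      Finset.card_eq_sum_card_fiberwise (f := cell) (t := Finset.univ) (fun x _ => by simp)]
    refine Finset.sum_congr rfl fun i _ => ?_
    rw [← Set.ncard_coe_finset]
    congr 1
    ext t
    simp
  rw [h1]
  push_cast
  rfl

theorem exists_limit {u : ℝ → ℝ}
    (h : ∀ η : ℝ, 0 < η → ∃ L : ℝ, ∀ᶠ B in atTop, |u B - L| ≤ η) :
    ∃ c : ℝ, Tendsto u atTop (𝓝 c) := by
  have hc : Cauchy (map u atTop) := by
    rw [Metric.cauchy_iff]
    refine ⟨inferInstance, fun ε hε => ?_⟩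
    obtain ⟨L, hL⟩ := h (ε / 3) (by positivity)
    refine ⟨{x | |x - L| ≤ ε / 3}, hL, ?_⟩
    intro x hx y hy
    rw [Real.dist_eq]
    have hx' : |x - L| ≤ ε / 3 := hx
    have hy' : |y - L| ≤ ε / 3 := hy
    rw [abs_le] at hx' hy'
    rw [abs_lt]
    constructor <;> linarith [hx'.1, hx'.2, hy'.1, hy'.2]
  exact cauchy_iff_exists_le_nhds.mp hc

end ModW3

open ModW3

theorem w3 : StmtW3 := by
  classical
  intro m α Q g Φ m0 m1 hm hΦ hg hfin hcell
  -- the number of points in cells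
  have hcf : ∀ {I : Type} (cell : α → I) (i : I) (B : ℝ),
      {t | t ∈ Q ∧ cell t = i ∧ g t ≤ B}.Finite := by
    intro I cell i B
    exact (hfin B).subset fun t ht => ⟨ht.1, ht.2.2⟩
  have hafin : ∀ B : ℝ, {t | t ∈ Q ∧ g t * Φ t ≤ B}.Finite := by
    intro B
    refine (hfin (B / m0)).subset fun t ht => ⟨ht.1, ?_⟩
    have h1 := hg t ht.1
    have h2 := (hΦ t ht.1).1
    have h3 := ht.2
    rw [le_div_iff₀ hm]
    nlinarith
  -- total number
  have htot : ∀ {I : Type} [Fintype I] (cell : α → I) (κ : I → ℝ),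
      (∀ i, Tendsto (fun B : ℝ => ({t | t ∈ Q ∧ cell t = i ∧ g t ≤ B}.ncard : ℝ) /
        (B * Real.log B ^ m)) atTop (𝓝 (κ i))) →
      Tendsto (fun B : ℝ => ({t | t ∈ Q ∧ g t ≤ B}.ncard : ℝ) / (B * Real.log B ^ m)) atTop
        (𝓝 (∑ i, κ i)) := by
    intro I _ cell κ hκ
    have h1 := tendsto_finset_sum Finset.univ (fun i _ => hκ i)
    refine h1.congr fun B => ?_
    rw [ncard_fiber cell (hfin B), Finset.sum_div]
    refine Finset.sum_congr rfl fun i _ => ?_
    congr 3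
    ext t
    simp only [Set.mem_setOf_eq]
    tauto
  obtain ⟨k0, hk0⟩ : ∃ k0 : ℝ, Tendsto (fun B : ℝ => ({t | t ∈ Q ∧ g t ≤ B}.ncard : ℝ) /
      (B * Real.log B ^ m)) atTop (𝓝 k0) := by
    obtain ⟨I, _, cell, -, h2⟩ := hcell 1 one_pos
    choose κ hκ using h2
    exact ⟨_, htot cell κ hκ⟩
  have hk00 : 0 ≤ k0 := by
    refine ge_of_tendsto hk0 ?_
    filter_upwards [eventually_gt_atTop (1:ℝ)] with B hB
    have : 0 < Real.log B := Real.log_pos hB
    positivity
  apply exists_limit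
  intro η hη
  set ε : ℝ := η * m0 / (4 * (k0 + 1)) with hε
  have hε0 : 0 < ε := by positivity
  obtain ⟨I, _, cell, h1, h2⟩ := hcell ε hε0
  choose κ hκ using h2
  have hκ0 : ∀ i, 0 ≤ κ i := by
    intro i
    refine ge_of_tendsto (hκ i) ?_
    filter_upwards [eventually_gt_atTop (1:ℝ)] with B hB
    have : 0 < Real.log B := Real.log_pos hB
    positivity
  have hsum : ∑ i, κ i = k0 := tendsto_nhds_unique (htot cell κ hκ) hk0
  have hp : ∀ i, ∃ p : ℝ, m0 ≤ p ∧ ∀ t ∈ Q, cell t = i → Φ t ≤ (1 + ε) * p ∧ p ≤ (1 + ε) * Φ t := by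
    intro i
    by_cases h : ∃ t ∈ Q, cell t = i
    · obtain ⟨t, ht, hti⟩ := h
      refine ⟨Φ t, (hΦ t ht).1, fun t' ht' hti' => ⟨?_, ?_⟩⟩
      · exact h1 t ht t' ht' (by rw [hti, hti'])
      · exact h1 t' ht' t ht (by rw [hti, hti'])
    · exact ⟨m0, le_rfl, fun t ht hti => (h ⟨t, ht, hti⟩).elim⟩
  choose p hpm hp using hp
  have hp0 : ∀ i, 0 < p i := fun i => hm.trans_le (hpm i)
  set s : I → ℝ := fun i => 1 / ((1 + ε) * p i) with hs
  set S : I → ℝ := fun i => (1 + ε) / p i with hS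
  have hs0 : ∀ i, 0 < s i := fun i => by have := hp0 i; simp only [hs]; positivity
  have hS0 : ∀ i, 0 < S i := fun i => by have := hp0 i; simp only [hS]; positivity
  have hlow : Tendsto (fun B : ℝ => ∑ i, ({t | t ∈ Q ∧ cell t = i ∧ g t ≤ s i * B}.ncard : ℝ) /
      (B * Real.log B ^ m)) atTop (𝓝 (∑ i, κ i * s i)) :=
    tendsto_finset_sum _ fun i _ => scaled_count
      (n := fun B => ({t | t ∈ Q ∧ cell t = i ∧ g t ≤ B}.ncard : ℝ)) (hs0 i) (hκ i)
  have hupp : Tendsto (fun B : ℝ => ∑ i, ({t | t ∈ Q ∧ cell t = i ∧ g t ≤ S i * B}.ncard : ℝ) /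
      (B * Real.log B ^ m)) atTop (𝓝 (∑ i, κ i * S i)) :=
    tendsto_finset_sum _ fun i _ => scaled_count
      (n := fun B => ({t | t ∈ Q ∧ cell t = i ∧ g t ≤ B}.ncard : ℝ)) (hS0 i) (hκ i)
  have hgap : ∑ i, κ i * S i ≤ ∑ i, κ i * s i + η / 2 := by
    have h3 : ∀ i, κ i * S i ≤ κ i * s i + κ i * (2 * ε / m0) := by
      intro i
      rw [← mul_add]
      apply mul_le_mul_of_nonneg_left _ (hκ0 i)
      simp only [hS, hs]
      have hpi := hp0 i
      have h4 : (1 + ε) / p i - 1 / ((1 + ε) * p i) ≤ 2 * ε / p i := by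
        have h5 : (1 + ε) / p i - 1 / ((1 + ε) * p i) = ((1 + ε) - 1 / (1 + ε)) / p i := by
          field_simp
        rw [h5]
        apply div_le_div_of_nonneg_right _ hpi.le
        have h6 : 1 - ε ≤ 1 / (1 + ε) := by
          rw [le_div_iff₀ (by positivity)]
          nlinarith
        linarith
      have h7 : 2 * ε / p i ≤ 2 * ε / m0 :=
        div_le_div_of_nonneg_left (by positivity) hm (hpm i)
      linarith
    calc ∑ i, κ i * S i ≤ ∑ i, (κ i * s i + κ i * (2 * ε / m0)) :=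
          Finset.sum_le_sum fun i _ => h3 i
      _ = ∑ i, κ i * s i + k0 * (2 * ε / m0) := by
          rw [Finset.sum_add_distrib, ← Finset.sum_mul, hsum]
      _ ≤ ∑ i, κ i * s i + η / 2 := by
          have h8 : k0 * (2 * ε / m0) = η / 2 * (k0 / (k0 + 1)) := by
            rw [hε]; field_simp; ring
          have h9 : k0 / (k0 + 1) ≤ 1 := by
            rw [div_le_one (by positivity)]; linarith
          rw [h8]
          have : η / 2 * (k0 / (k0 + 1)) ≤ η / 2 * 1 :=
            mul_le_mul_of_nonneg_left h9 (by positivity)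
          linarith
  refine ⟨∑ i, κ i * s i, ?_⟩
  have hl1 := hlow.eventually (eventually_gt_nhds (show ∑ i, κ i * s i - η < ∑ i, κ i * s i by
    linarith))
  have hu1 := hupp.eventually (eventually_lt_nhds (show ∑ i, κ i * S i < ∑ i, κ i * S i + η / 2 by
    linarith))
  filter_upwards [hl1, hu1, eventually_gt_atTop (1:ℝ)] with B hB1 hB2 hB
  have hlB : 0 < Real.log B := Real.log_pos hB
  have hB0 : 0 < B * Real.log B ^ m := by positivity
  have e1 : (({t | t ∈ Q ∧ g t * Φ t ≤ B}.ncard : ℝ)) =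
      ∑ i, ({t | t ∈ Q ∧ cell t = i ∧ g t * Φ t ≤ B}.ncard : ℝ) := by
    rw [ncard_fiber cell (hafin B)]
    refine Finset.sum_congr rfl fun i _ => ?_
    congr 2
    ext t
    simp only [Set.mem_setOf_eq]
    tauto
  have e2 : ∑ i, ({t | t ∈ Q ∧ cell t = i ∧ g t ≤ s i * B}.ncard : ℝ) / (B * Real.log B ^ m) ≤
      ({t | t ∈ Q ∧ g t * Φ t ≤ B}.ncard : ℝ) / (B * Real.log B ^ m) := by
    rw [e1, Finset.sum_div]
    refine Finset.sum_le_sum fun i _ => ?_
    apply div_le_div_of_nonneg_right _ hB0.le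
    rw [Nat.cast_le]
    apply Set.ncard_le_ncard
    · intro t ht
      obtain ⟨ht1, ht2, ht3⟩ := ht
      refine ⟨ht1, ht2, ?_⟩
      have h3 := (hp i t ht1 ht2).1
      have h4 := hp0 i
      have h5 : s i * B = B / ((1 + ε) * p i) := by simp only [hs]; ring
      rw [h5, le_div_iff₀ (by positivity)] at ht3
      have h6 := hg t ht1
      nlinarith
    · exact (hafin B).subset fun t ht => ⟨ht.1, ht.2.2⟩
  have e3 : ({t | t ∈ Q ∧ g t * Φ t ≤ B}.ncard : ℝ) / (B * Real.log B ^ m) ≤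
      ∑ i, ({t | t ∈ Q ∧ cell t = i ∧ g t ≤ S i * B}.ncard : ℝ) / (B * Real.log B ^ m) := by
    rw [e1, Finset.sum_div]
    refine Finset.sum_le_sum fun i _ => ?_
    apply div_le_div_of_nonneg_right _ hB0.le
    rw [Nat.cast_le]
    apply Set.ncard_le_ncard
    · intro t ht
      obtain ⟨ht1, ht2, ht3⟩ := ht
      refine ⟨ht1, ht2, ?_⟩
      have h3 := (hp i t ht1 ht2).2
      have h4 := hp0 i
      have h5 : S i * B = (1 + ε) * B / p i := by simp only [hS]; ring
      rw [h5, le_div_iff₀ h4]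
      have h6 := hg t ht1
      nlinarith
    · exact hcf cell i _
  rw [abs_le]
  constructor
  · linarith
  · linarith

end Pool.Agent.T6.H81.BG
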