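import Mathlib
import Pool.Agent.T6.H81.BG.Defs
import Pool.Agent.T6.H81.BA.Z

/-! Module Z3: the local factors are bounded, and almost constant on small cells. -/

set_option autoImplicit false

namespace Pool.Agent.T6.H81.BG

open Finset Module Matrix Filter Topology
open Pool.Agent.H548.WM (ht bx mem_bx Rep)

namespace Z3

open Pool.Agent.T6.H81.BA (exists_scale1 cells ne_zero_of_gcd cast_ne_zero padic_norm_prim)

section general

variable {K : Type} [NormedField K] {m : ℕ} {n : Fin m → ℕ}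

/-- the compact set of the normalised points -/
def KK (X : Set (∀ v, Fin (n v) → K)) : Set (∀ v, Fin (n v) → K) :=
  {x | x ∈ X ∧ ∀ v, ‖x v‖ = 1}

theorem isCompact_KK [ProperSpace K] {X : Set (∀ v, Fin (n v) → K)} (hX : Cone X) :
    IsCompact (KK X) := by
  have h1 : IsCompact (Set.pi Set.univ fun v : Fin m =>
      (Metric.sphere (0 : Fin (n v) → K) 1)) :=
    isCompact_univ_pi fun v => isCompact_sphere _ _
  have h2 : KK X = X ∩ Set.pi Set.univ fun v : Fin m =>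
      (Metric.sphere (0 : Fin (n v) → K) 1) := by
    ext x
    simp [KK]
  rw [h2]
  exact h1.inter_left hX.1

theorem KK_sub (X : Set (∀ v, Fin (n v) → K)) :
    KK X ⊆ {x | x ∈ X ∧ ∀ v, x v ≠ 0} := by
  rintro x ⟨h1, h2⟩
  refine ⟨h1, fun v h => ?_⟩
  have := h2 v
  rw [h, norm_zero] at this
  exact zero_ne_one this

theorem LF_bound [ProperSpace K] {X : Set (∀ v, Fin (n v) → K)} (hX : Cone X)
    {φ : (∀ v, Fin (n v) → K) → ℝ} (h : LFs X φ) :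
    ∃ c c' : ℝ, 0 < c ∧ c ≤ c' ∧ ∀ x ∈ X, (∀ v, x v ≠ 0) → c ≤ φ x ∧ φ x ≤ c' := by
  obtain ⟨h1, h2, h3⟩ := h
  have hc := h1.mono (KK_sub X)
  have key : ∃ c c' : ℝ, 0 < c ∧ c ≤ c' ∧ ∀ x ∈ KK X, c ≤ φ x ∧ φ x ≤ c' := by
    rcases (KK X).eq_empty_or_nonempty with he | hne
    · exact ⟨1, 1, one_pos, le_rfl, fun t ht => by rw [he] at ht; exact ht.elim⟩
    · obtain ⟨t0, ht0, hmin⟩ := (isCompact_KK hX).exists_isMinOn hne hc
      obtain ⟨t1, ht1, hmax⟩ := (isCompact_KK hX).exists_isMaxOn hne hc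
      have hs := KK_sub X ht0
      exact ⟨φ t0, φ t1, h2 _ hs.1 hs.2, hmax ht0, fun t ht => ⟨hmin ht, hmax ht⟩⟩
  obtain ⟨c, c', hc, hcc, hb⟩ := key
  refine ⟨c, c', hc, hcc, fun x hx hx0 => ?_⟩
  choose s hs hs1 using fun v => exists_scale1 (x v) (hx0 v)
  have := hb (fun v => s v • x v) ⟨hX.2 x hx s hs, hs1⟩
  rwa [h3 x hx hx0 s hs] at this

theorem LF_unif [ProperSpace K] {X : Set (∀ v, Fin (n v) → K)} (hX : Cone X)
    {φ : (∀ v, Fin (n v) → K) → ℝ} (h : LFs X φ) {ε : ℝ} (hε : 0 < ε) :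
    ∃ δ : ℝ, 0 < δ ∧ ∀ x ∈ X, ∀ x' ∈ X, (∀ v, x v ≠ 0) → (∀ v, x' v ≠ 0) →
      ∀ s s' : Fin m → K, (∀ v, s v ≠ 0) → (∀ v, s' v ≠ 0) → (∀ v, ‖s v • x v‖ = 1) →
      (∀ v, ‖s' v • x' v‖ = 1) → (∀ v, ‖s' v • x' v - s v • x v‖ < δ) →
      φ x' ≤ (1 + ε) * φ x := by
  obtain ⟨c, c', hc0, hcc, hb⟩ := LF_bound hX h
  obtain ⟨h1, h2, h3⟩ := h
  have hc := h1.mono (KK_sub X)
  have hu := (isCompact_KK hX).uniformContinuousOn_of_continuous hc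
  rw [Metric.uniformContinuousOn_iff] at hu
  obtain ⟨δ, hδ, hu⟩ := hu (ε * c) (by positivity)
  refine ⟨δ, hδ, ?_⟩
  intro x hx x' hx' hx0 hx0' s s' hs hs' hs1 hs1' hd
  have h4 := hu (fun v => s' v • x' v) ⟨hX.2 x' hx' s' hs', hs1'⟩ (fun v => s v • x v)
    ⟨hX.2 x hx s hs, hs1⟩ (by
      rw [dist_pi_lt_iff hδ]
      intro v
      rw [dist_eq_norm]
      exact hd v)
  rw [h3 x hx hx0 s hs, h3 x' hx' hx0' s' hs', Real.dist_eq] at h4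
  have h5 := (abs_lt.1 h4).2
  have h6 := (hb x hx hx0).1
  nlinarith

end general

theorem ic_ne {K : Type} [NormedField K] [CharZero K] {m : ℕ} {n : Fin m → ℕ} {x : Pt n}
    (h : ∀ v, x v ≠ 0) (v : Fin m) : ic K x v ≠ 0 := cast_ne_zero (h v)

theorem padic_cell {m : ℕ} {n : Fin m → ℕ} (p : Nat.Primes)
    {X : Set (∀ v, Fin (n v) → ℚ_[p])} (hX : Cone X) {φ : (∀ v, Fin (n v) → ℚ_[p]) → ℝ}
    (h : LFs X φ) {ε : ℝ} (hε : 0 < ε) :
    ∃ e : ℕ, ∀ x x' : Pt n, (∀ v, univ.gcd (x v) = 1) → (∀ v, univ.gcd (x' v) = 1) →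
      ic ℚ_[p] x ∈ X → ic ℚ_[p] x' ∈ X →
      (∀ v j, (((p : ℕ) ^ e : ℕ) : ℤ) ∣ x' v j - x v j) →
      φ (ic ℚ_[p] x') ≤ (1 + ε) * φ (ic ℚ_[p] x) := by
  obtain ⟨δ, hδ, H⟩ := LF_unif hX h hε
  have hp1 : (1 : ℝ) < (p : ℕ) := by exact_mod_cast p.2.one_lt
  obtain ⟨e, he⟩ := exists_pow_lt_of_lt_one hδ (inv_lt_one_of_one_lt₀ hp1)
  refine ⟨e, ?_⟩
  intro x x' hx hx' hxX hxX' h1
  refine H _ hxX _ hxX' (ic_ne fun v => ne_zero_of_gcd (hx v))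
    (ic_ne fun v => ne_zero_of_gcd (hx' v)) (fun _ => 1) (fun _ => 1) (fun _ => one_ne_zero)
    (fun _ => one_ne_zero) (fun v => ?_) (fun v => ?_) fun v => ?_
  · rw [one_smul]; exact padic_norm_prim p (hx v)
  · rw [one_smul]; exact padic_norm_prim p (hx' v)
  · refine lt_of_le_of_lt ?_ he
    rw [pi_norm_le_iff_of_nonneg (by positivity)]
    intro j
    have h3 := h1 v j
    rw [one_smul, one_smul, Pi.sub_apply]
    have h4 := (Padic.norm_int_le_pow_iff_dvd (p := (p : ℕ)) (x' v j - x v j) e).2 (by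
      exact_mod_cast h3)
    push_cast at h4
    unfold ic
    refine h4.trans (le_of_eq ?_)
    rw [_root_.zpow_neg, zpow_natCast, inv_pow]

end Z3

open Z3 in
open Pool.Agent.T6.H81.BA (exists_scale1 cells ne_zero_of_gcd cast_ne_zero padic_norm_prim) in
theorem z3 : StmtZ3 := by
  intro m n X0 X ψ S φ hX0 hX hψ hφ
  constructor
  · obtain ⟨c0, c0', hm, hmm, hb⟩ := LF_bound hX0 hψ
    have h1 : ∀ p : Nat.Primes, p ∈ S → ∃ c c' : ℝ, 0 < c ∧ c ≤ c' ∧ ∀ x ∈ X p,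
        (∀ v, x v ≠ 0) → c ≤ φ p x ∧ φ p x ≤ c' := fun p hp => LF_bound (hX p) (hφ p hp)
    choose! c c' hc hcc hb' using h1
    refine ⟨c0 * ∏ p ∈ S, c p, c0' * ∏ p ∈ S, c' p, mul_pos hm (prod_pos hc), ?_⟩
    intro x hx hxX0 hxX
    have h2 := hb _ hxX0 (ic_ne hx)
    have h3 : ∀ p ∈ S, c p ≤ φ p (ic ℚ_[p] x) ∧ φ p (ic ℚ_[p] x) ≤ c' p := fun p hp =>
      hb' p hp _ (hxX p hp) (ic_ne hx)
    have h4 : ∏ p ∈ S, c p ≤ ∏ p ∈ S, φ p (ic ℚ_[p] x) :=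
      prod_le_prod (fun p hp => (hc p hp).le) fun p hp => (h3 p hp).1
    have h5 : ∏ p ∈ S, φ p (ic ℚ_[p] x) ≤ ∏ p ∈ S, c' p :=
      prod_le_prod (fun p hp => ((hc p hp).le.trans (h3 p hp).1)) fun p hp => (h3 p hp).2
    have h6 : 0 < ∏ p ∈ S, c p := prod_pos hc
    unfold Phs
    exact ⟨mul_le_mul h2.1 h4 h6.le (hm.le.trans h2.1),
      mul_le_mul h2.2 h5 (h6.le.trans h4) ((hm.le.trans h2.1).trans h2.2)⟩
  · intro ε hε
    -- the factor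
    obtain ⟨ε', hε', hεε⟩ : ∃ ε' : ℝ, 0 < ε' ∧ (1 + ε') ^ (S.card + 1) ≤ 1 + ε := by
      have h1 : Tendsto (fun u : ℝ => (1 + u) ^ (S.card + 1)) (𝓝[>] 0) (𝓝 ((1 + 0) ^ (S.card + 1))) :=
        ((continuous_const.add continuous_id).pow _).continuousAt.tendsto.mono_left
          nhdsWithin_le_nhds
      rw [add_zero, one_pow] at h1
      have h2 := h1.eventually_le_const (by linarith : (1 : ℝ) < 1 + ε)
      have h3 : ∀ᶠ u : ℝ in 𝓝[>] 0, 0 < u := eventually_mem_nhdsWithin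
      obtain ⟨u, hu1, hu2⟩ := (h3.and h2).exists
      exact ⟨u, hu1, hu2⟩
    obtain ⟨δ, hδ, H⟩ := LF_unif hX0 hψ hε'
    obtain ⟨t0, ht0⟩ := exists_nat_gt (1 / δ)
    set t : ℕ := t0 + 2 with ht
    have htδ : (1 : ℝ) / t < δ := by
      have h1 : (1 : ℝ) / δ < t := by
        refine ht0.trans_le ?_
        rw [ht]; push_cast; linarith
      have h2 : (0 : ℝ) < t := lt_trans (by positivity) h1
      rw [div_lt_iff₀ h2]
      rw [div_lt_iff₀ hδ] at h1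
      linarith
    have h1 : ∀ p : Nat.Primes, p ∈ S → ∃ e : ℕ, ∀ x x' : Pt n, (∀ v, univ.gcd (x v) = 1) →
      (∀ v, univ.gcd (x' v) = 1) → ic ℚ_[p] x ∈ X p → ic ℚ_[p] x' ∈ X p →
      (∀ v j, (((p : ℕ) ^ e : ℕ) : ℤ) ∣ x' v j - x v j) →
      φ p (ic ℚ_[p] x') ≤ (1 + ε') * φ p (ic ℚ_[p] x) :=
      fun p hp => padic_cell p (hX p) (hφ p hp) hε'
    choose! e he using h1
    refine ⟨∑ v, (bx (n v) t).card, fun v i => if h : (i : ℕ) < (bx (n v) t).card then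
      ((bx (n v) t).equivFin.symm ⟨i, h⟩ : Fin (n v) → ℤ) else 0,
      ∏ p ∈ S, (p : ℕ) ^ e p, ?_, ?_⟩
    · exact Nat.one_le_iff_ne_zero.2 (prod_ne_zero_iff.2 fun p _ => pow_ne_zero _ p.2.ne_zero)
    intro x x' hx hx' hxX0 hxX hxX0' hxX' hq hs
    have hx0 : ∀ v, x v ≠ 0 := fun v => ne_zero_of_gcd (hx v)
    have hx0' : ∀ v, x' v ≠ 0 := fun v => ne_zero_of_gcd (hx' v)
    have hcell : ∀ v, ∀ w ∈ bx (n v) t, (0 ≤ w ⬝ᵥ x' v ↔ 0 ≤ w ⬝ᵥ x v) := by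
      intro v w hw
      have hlt : (((bx (n v) t).equivFin ⟨w, hw⟩ : Fin (bx (n v) t).card) : ℕ) <
          ∑ v, (bx (n v) t).card :=
        lt_of_lt_of_le ((bx (n v) t).equivFin ⟨w, hw⟩).2
          (single_le_sum (f := fun v => (bx (n v) t).card) (fun _ _ => Nat.zero_le _)
            (mem_univ v))
      have h3 := hs v ⟨_, hlt⟩
      simpa using h3
    choose s s' hs hs' hs1 hs1' hds using fun v =>
      cells (by omega : 2 ≤ t) (hx0 v) (hcell v) (hx0' v)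
    have h4 := H _ hxX0 _ hxX0' (ic_ne hx0) (ic_ne hx0') s s' hs hs' hs1 hs1'
      fun v => (hds v).trans_lt htδ
    have h5 : ∀ p ∈ S, φ p (ic ℚ_[p] x') ≤ (1 + ε') * φ p (ic ℚ_[p] x) := by
      intro p hp
      have h6 : (((p : ℕ) ^ e p : ℕ) : ℤ) ∣ ((∏ p ∈ S, (p : ℕ) ^ e p : ℕ) : ℤ) :=
        Int.natCast_dvd_natCast.2 (dvd_prod_of_mem (fun p : Nat.Primes => (p : ℕ) ^ e p) hp)
      exact he p hp x x' hx hx' (hxX p hp) (hxX' p hp) fun v j => h6.trans (hq v j)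
    have h7 : ∏ p ∈ S, φ p (ic ℚ_[p] x') ≤
        (1 + ε') ^ S.card * ∏ p ∈ S, φ p (ic ℚ_[p] x) := by
      rw [← prod_const, ← prod_mul_distrib]
      exact prod_le_prod (fun p hp => ((hφ p hp).2.1 _ (hxX' p hp) (ic_ne hx0')).le) h5
    have h8 : 0 < ∏ p ∈ S, φ p (ic ℚ_[p] x) :=
      prod_pos fun p hp => (hφ p hp).2.1 _ (hxX p hp) (ic_ne hx0)
    have h9 : 0 < ∏ p ∈ S, φ p (ic ℚ_[p] x') :=
      prod_pos fun p hp => (hφ p hp).2.1 _ (hxX' p hp) (ic_ne hx0')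
    have h10 : 0 < ψ (ic ℝ x) := hψ.2.1 _ hxX0 (ic_ne hx0)
    unfold Phs
    calc _ ≤ ((1 + ε') * ψ (ic ℝ x)) * ((1 + ε') ^ S.card * ∏ p ∈ S, φ p (ic ℚ_[p] x)) :=
          mul_le_mul h4 h7 h9.le (by positivity)
      _ = (1 + ε') ^ (S.card + 1) * (ψ (ic ℝ x) * ∏ p ∈ S, φ p (ic ℚ_[p] x)) := by ring
      _ ≤ _ := mul_le_mul_of_nonneg_right hεε (by positivity)

end Pool.Agent.T6.H81.BG
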