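import Mathlib
import Pool.Agent.T6.H81.BG.Defs
import Pool.Agent.R546.GW.Bad

/-!
Systems of multilinear equations in which any two equations have at most one common block: the
number of the vectors of a block for which the equations become dependent.
-/

set_option autoImplicit false

namespace Pool.Agent.T6.H81.BG

open Finset Module Matrix
open Pool.Agent.H548.WM (ht bx mem_bx Rep)
open Pool.Agent.H548.BL (lat mem_lat rc doubling)
open Pool.Agent.H548.TL (evz)
open Pool.Agent.T6.H5.TW (fl MultiDeg)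
open Pool.Agent.R546.GW (rcHom finrank_comap_le)

namespace S5

variable {m K : ℕ} {n : Fin m → ℕ}

theorem indep {p : MvPolynomial (Σ i, Fin (n i)) ℤ} {δ : Fin m → ℕ} (h : MultiDeg p δ)
    {R : Type*} [CommRing R] {x x' : ∀ i, Fin (n i) → R} (hx : ∀ i, δ i ≠ 0 → x i = x' i) :
    evz p (fl x) = evz p (fl x') := by
  unfold evz
  rw [MvPolynomial.eval₂_eq', MvPolynomial.eval₂_eq']
  refine Finset.sum_congr rfl fun e he => ?_
  congr 1
  refine Finset.prod_congr rfl fun q _ => ?_
  obtain ⟨i, t⟩ := q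
  by_cases hi : δ i = 0
  · have h1 := h e he i
    rw [hi] at h1
    have h2 := (Finset.sum_eq_zero_iff.1 h1) t (mem_univ _)
    rw [h2, pow_zero, pow_zero]
  · show x i t ^ _ = x' i t ^ _
    rw [hx i hi]

theorem prod_lin {N : ℕ} {R : Type*} [CommRing R] (c : Fin N → ℕ) (hc : ∑ t, c t = 1)
    (z : Fin N → R) :
    ∏ t, z t ^ c t = ∑ s, (∏ t, (Pi.single s (1 : R) : Fin N → R) t ^ c t) * z s := by
  obtain ⟨t0, ht0⟩ : ∃ t0, c t0 ≠ 0 := by
    by_contra hcon
    push Not at hcon
    simp [hcon] at hc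
  have h1 : c t0 = 1 ∧ ∀ t, t ≠ t0 → c t = 0 := by
    have h0 := Finset.add_sum_erase univ c (mem_univ t0)
    have h2 : ∑ t ∈ univ.erase t0, c t = 0 := by omega
    refine ⟨by omega, fun t ht => (Finset.sum_eq_zero_iff.1 h2) t (by simp [ht])⟩
  have h3 : ∀ y : Fin N → R, ∏ t, y t ^ c t = y t0 := by
    intro y
    rw [Finset.prod_eq_single t0]
    · rw [h1.1, pow_one]
    · intro t _ ht
      rw [h1.2 t ht, pow_zero]
    · simp
  simp_rw [h3]
  rw [Finset.sum_eq_single t0]
  · simp
  · intro s _ hs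
    simp [hs.symm]
  · simp

theorem evz_lin {p : MvPolynomial (Σ i, Fin (n i)) ℤ} {δ : Fin m → ℕ} (h : MultiDeg p δ)
    {v : Fin m} (hv : δ v = 1) {R : Type*} [CommRing R] (x : ∀ i, Fin (n i) → R)
    (z : Fin (n v) → R) :
    evz p (fl (Function.update x v z)) =
      ∑ s, evz p (fl (Function.update x v (Pi.single s 1))) * z s := by
  unfold evz
  simp_rw [MvPolynomial.eval₂_eq', Finset.sum_mul]
  rw [Finset.sum_comm]
  refine Finset.sum_congr rfl fun e he => ?_
  simp only [mul_assoc]
  rw [← Finset.mul_sum]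
  congr 1
  have hsplit : ∀ y : Fin (n v) → R, ∏ q : (Σ i, Fin (n i)), fl (Function.update x v y) q ^ e q =
      (∏ i ∈ univ.erase v, ∏ t, x i t ^ e ⟨i, t⟩) * ∏ t, y t ^ e ⟨v, t⟩ := by
    intro y
    rw [Fintype.prod_sigma, ← Finset.prod_erase_mul univ _ (mem_univ v)]
    congr 1
    · refine Finset.prod_congr rfl fun i hi => Finset.prod_congr rfl fun t _ => ?_
      show Function.update x v y i t ^ _ = _
      rw [Function.update_of_ne (Finset.ne_of_mem_erase hi)]
    · refine Finset.prod_congr rfl fun t _ => ?_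
      show Function.update x v y v t ^ _ = _
      rw [Function.update_self]
  rw [hsplit z]
  have hsum : ∀ s : Fin (n v), (∏ q : (Σ i, Fin (n i)),
      fl (Function.update x v (Pi.single s 1)) q ^ e q) * z s =
      (∏ i ∈ univ.erase v, ∏ t, x i t ^ e ⟨i, t⟩) *
        ((∏ t, (Pi.single s (1 : R) : Fin (n v) → R) t ^ e ⟨v, t⟩) * z s) := by
    intro s
    rw [hsplit, mul_assoc]
  simp_rw [hsum]
  rw [← Finset.mul_sum, ← prod_lin (fun t => e ⟨v, t⟩) (by rw [h e he v, hv]) z]

variable {F : Fin K → MvPolynomial (Σ i, Fin (n i)) ℤ} {d : Fin K → Fin m → ℕ}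

/-- The equation as a linear equation for the block `v`. -/
theorem eq_lin (hF : ∀ e, MultiDeg (F e) (d e)) {e : Fin K} {v : Fin m} (h : d e v = 1)
    (x : Pt n) (z : Fin (n v) → ℤ) :
    evz (F e) (fl (Function.update x v z)) = cf F e v x ⬝ᵥ z :=
  evz_lin (hF e) h x z

theorem eq_indep (hF : ∀ e, MultiDeg (F e) (d e)) {e : Fin K} {v : Fin m} (h : d e v = 0)
    (x : Pt n) (z : Fin (n v) → ℤ) :
    evz (F e) (fl (Function.update x v z)) = evz (F e) (fl x) := by
  apply indep (hF e)
  intro i hi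
  rw [Function.update_of_ne]
  rintro rfl
  exact hi h

theorem cf_self (e : Fin K) (v : Fin m) (x : Pt n) (z : Fin (n v) → ℤ) :
    cf F e v (Function.update x v z) = cf F e v x := by
  funext s
  unfold cf
  rw [Function.update_idem]

theorem cf_indep (hF : ∀ e, MultiDeg (F e) (d e)) {e : Fin K} {u v : Fin m} (huv : u ≠ v)
    (h : d e v = 0) (x : Pt n) (z : Fin (n v) → ℤ) :
    cf F e u (Function.update x v z) = cf F e u x := by
  funext s
  unfold cf
  rw [Function.update_comm huv.symm, eq_indep hF h]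

theorem cf_mf (hF : ∀ e, MultiDeg (F e) (d e)) {e : Fin K} {u v : Fin m} (huv : u ≠ v)
    (h : d e v = 1) (x : Pt n) (z : Fin (n v) → ℤ) :
    cf F e u (Function.update x v z) = mf F e u v x *ᵥ z := by
  funext s
  unfold cf
  rw [Function.update_comm huv.symm, eq_lin hF h]
  rfl

theorem mf_congr (hF : ∀ e, MultiDeg (F e) (d e)) {e : Fin K} {u v : Fin m}
    {x x' : Pt n} (hx : ∀ i, i ≠ u → i ≠ v → d e i ≠ 0 → x i = x' i) :
    mf F e u v x = mf F e u v x' := by
  ext s t
  show evz (F e) _ = evz (F e) _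
  apply indep (hF e)
  intro i hi
  by_cases hiv : i = v
  · subst hiv
    rw [Function.update_self, Function.update_self]
  · rw [Function.update_of_ne hiv, Function.update_of_ne hiv]
    by_cases hiu : i = u
    · subst hiu
      rw [Function.update_self, Function.update_self]
    · rw [Function.update_of_ne hiu, Function.update_of_ne hiu]
      exact hx i hiu hiv hi

/-- The rank over the real numbers. -/
theorem rank_real {a b : ℕ} (A : Matrix (Fin a) (Fin b) ℤ) :
    (A.map (Int.cast : ℤ → ℚ)).rank ≤ (A.map (Int.cast : ℤ → ℝ)).rank := by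
  obtain ⟨f, hf1, -, hf3⟩ := Submodule.exists_fun_fin_finrank_span_eq ℚ
    (Set.range (A.map (Int.cast : ℤ → ℚ)).col)
  rw [Matrix.rank_eq_finrank_span_cols (A.map (Int.cast : ℤ → ℚ))]
  choose t ht using hf1
  have h1 : LinearIndependent ℤ (fun i => A.col (t i)) := by
    rw [← linearIndependent_algebraMap_comp_iff (R := ℤ) (S := ℚ)]
    have : (fun i => algebraMap ℤ ℚ ∘ A.col (t i)) = f := by
      funext i
      rw [← ht i]
      rfl
    rw [this]
    exact hf3
  have h2 : LinearIndependent ℝ (fun i => (A.map (Int.cast : ℤ → ℝ)).col (t i)) :=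
    (linearIndependent_algebraMap_comp_iff (R := ℤ) (S := ℝ) (v := fun i => A.col (t i))).2 h1
  rw [Matrix.rank_eq_finrank_span_cols (A.map (Int.cast : ℤ → ℝ))]
  have h3 := finrank_span_eq_card h2
  rw [Fintype.card_fin] at h3
  rw [← h3]
  apply Submodule.finrank_mono
  apply Submodule.span_mono
  rintro _ ⟨i, rfl⟩
  exact ⟨t i, rfl⟩

theorem rc_mulVec {a b : ℕ} (A : Matrix (Fin a) (Fin b) ℤ) (z : Fin b → ℤ) :
    rc (A *ᵥ z) = (A.map (Int.cast : ℤ → ℝ)).mulVecLin (rc z) := by
  funext i
  simp [rc, Matrix.mulVec, dotProduct]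

open Classical in
/-- The number of the bad vectors. -/
theorem bad_card {U V : ℕ} {ι : Type} [Fintype ι] (A : Matrix (Fin U) (Fin V) ℤ)
    (g : ι → Fin U → ℤ) (i0 : ι) {b : ℕ}
    (hg : LinearIndependent ℤ (fun i : {i : ι // i ≠ i0} => g i))
    (hb : Fintype.card ι + (V - (A.map (Int.cast : ℤ → ℝ)).rank) ≤ b + 1) {ρ : ℕ} (hρ : 1 ≤ ρ) :
    (((bx V ρ).filter fun z => ¬ LinearIndependent ℤ
      (fun i : ι => if i = i0 then A *ᵥ z else g i)).card : ℝ) ≤
      (3 * (ρ : ℝ)) ^ b * 3 ^ V := by
  set A' : Matrix (Fin U) (Fin V) ℝ := A.map (Int.cast : ℤ → ℝ) with hA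
  set S : Submodule ℝ (Fin U → ℝ) :=
    Submodule.span ℝ ((fun i => rc (g i)) '' {i | i ≠ i0}) with hS
  have hSr : finrank ℝ S + 1 ≤ Fintype.card ι := by
    have h2 : S = Submodule.span ℝ (Set.range fun i : {i : ι // i ≠ i0} => rc (g i.1)) := by
      rw [hS]
      congr 1
      ext a
      simp
    have h1 : finrank ℝ S ≤ Fintype.card {i : ι // i ≠ i0} := by
      rw [h2]
      exact finrank_range_le_card _
    rw [Fintype.card_subtype_compl, Fintype.card_subtype_eq] at h1
    have h3 : 0 < Fintype.card ι := Fintype.card_pos_iff.2 ⟨i0⟩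
    omega
  have hV : finrank ℝ (S.comap A'.mulVecLin) ≤ b := by
    have h1 := finrank_comap_le A' S
    omega
  let Λ : AddSubgroup (Fin V → ℤ) := ((S.comap A'.mulVecLin).toAddSubgroup).comap (rcHom V)
  have hΛ : ∀ z, z ∈ Λ ↔ rc z ∈ S.comap A'.mulVecLin := fun z => Iff.rfl
  have hsub : ((bx V ρ).filter fun z => ¬ LinearIndependent ℤ
      (fun i : ι => if i = i0 then A *ᵥ z else g i)) ⊆ (bx V ρ).filter (· ∈ Λ) := by
    intro z hz
    rw [mem_filter] at hz ⊢
    refine ⟨hz.1, ?_⟩
    rw [hΛ, Submodule.mem_comap]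
    by_contra hcon
    apply hz.2
    rw [← linearIndependent_algebraMap_comp_iff (R := ℤ) (S := ℝ)]
    set G : ι → (Fin U → ℝ) := fun i => rc (if i = i0 then A *ᵥ z else g i) with hG
    show LinearIndependent ℝ G
    rw [← linearIndepOn_univ_iff]
    have hins : (Set.univ : Set ι) = insert i0 {i | i ≠ i0} := by
      ext i
      simp only [Set.mem_univ, Set.mem_insert_iff, Set.mem_ofPred_eq, true_iff]
      tauto
    have hne : ∀ i, i ≠ i0 → G i = rc (g i) := by
      intro i hi
      simp only [hG, if_neg hi]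
    rw [hins, linearIndepOn_insert (by simp)]
    constructor
    · have h1 : LinearIndependent ℝ (fun i : {i : ι // i ≠ i0} => rc (g i.1)) :=
        (linearIndependent_algebraMap_comp_iff (R := ℤ) (S := ℝ)
          (v := fun i : {i : ι // i ≠ i0} => g i.1)).2 hg
      have h3 : (fun i : ({i | i ≠ i0} : Set ι) => G i) =
          (fun i : {i : ι // i ≠ i0} => rc (g i.1)) := by
        funext i
        exact hne i.1 i.2
      show LinearIndependent ℝ (fun i : ({i | i ≠ i0} : Set ι) => G i)
      rw [h3]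
      exact h1
    · have h4 : G i0 = A'.mulVecLin (rc z) := by
        simp only [hG, if_true]
        exact rc_mulVec A z
      have h5 : G '' {i | i ≠ i0} = (fun i => rc (g i)) '' {i | i ≠ i0} := by
        apply Set.image_congr
        intro i hi
        exact hne i hi
      rw [h4, h5]
      exact hcon
  have h1 := doubling Λ (S.comap A'.mulVecLin) hV (fun z hz => (hΛ z).1 hz) ρ 1 le_rfl hρ
  have h2 : (((bx V 1).filter (· ∈ Λ)).card : ℝ) ≤ 3 ^ V := by
    have h3 := Finset.card_filter_le (bx V 1) (· ∈ Λ)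
    have h4 := Pool.Agent.H548.WM.card_bx_le V (X := 1) le_rfl
    have h5 : (((bx V 1).filter (· ∈ Λ)).card : ℝ) ≤ ((bx V 1).card : ℝ) := by
      exact_mod_cast h3
    calc (((bx V 1).filter (· ∈ Λ)).card : ℝ) ≤ (bx V 1).card := h5
      _ ≤ (3 * ((1 : ℕ) : ℝ)) ^ V := h4
      _ = 3 ^ V := by norm_num
  calc (((bx V ρ).filter fun z => ¬ LinearIndependent ℤ
      (fun i : ι => if i = i0 then A *ᵥ z else g i)).card : ℝ)
      ≤ ((bx V ρ).filter (· ∈ Λ)).card := by exact_mod_cast card_le_card hsub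
    _ ≤ (3 * (ρ : ℝ) / ((1 : ℕ) : ℝ)) ^ b * (((bx V 1).filter (· ∈ Λ)).card : ℝ) := h1
    _ ≤ (3 * (ρ : ℝ) / ((1 : ℕ) : ℝ)) ^ b * 3 ^ V := by gcongr
    _ = _ := by rw [Nat.cast_one, div_one]

/-- The numbers of the equations. -/
theorem card_bound (hd : ∀ e v, d e v ≤ 1) (T : Finset (Fin m)) (v : Fin m) :
    Fintype.card (Eq d T v) + ∑ u ∈ T.erase v, ka d T v u ≤ ∑ e, d e v * ∑ i, d e i := by
  classical
  have h1 : Fintype.card (Eq d T v) =
      ∑ e : Fin K, if (∀ i, i ∉ T → d e i = 0) ∧ d e v = 1 then 1 else 0 := by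
    rw [Fintype.card_subtype, Finset.card_filter]
  have h2 : ∀ u, ka d T v u =
      ∑ e : Fin K, if (∀ i, i ∉ T → d e i = 0) ∧ d e v = 1 ∧ d e u = 1 then 1 else 0 := by
    intro u
    unfold ka
    rw [Finset.card_filter]
  rw [h1]
  simp_rw [h2]
  rw [Finset.sum_comm, ← Finset.sum_add_distrib]
  refine Finset.sum_le_sum fun e _ => ?_
  by_cases he : (∀ i, i ∉ T → d e i = 0) ∧ d e v = 1
  · have e1 : d e v * ∑ i, d e i = ∑ i, d e i := by rw [he.2, one_mul]
    rw [if_pos he, e1]
    have h3 : ∑ i ∈ T.erase v, (if (∀ i, i ∉ T → d e i = 0) ∧ d e v = 1 ∧ d e i = 1 then 1 else 0) ≤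
        ∑ i ∈ univ.erase v, d e i := by
      calc _ ≤ ∑ i ∈ T.erase v, d e i := by
            refine Finset.sum_le_sum fun i _ => ?_
            split_ifs with h
            · rw [h.2.2]
            · exact Nat.zero_le _
        _ ≤ _ := Finset.sum_le_sum_of_subset (Finset.erase_subset_erase _ (subset_univ _))
    have h4 := Finset.add_sum_erase univ (d e) (mem_univ v)
    rw [he.2] at h4
    omega
  · have h3 : ∀ u, ¬ ((∀ i, i ∉ T → d e i = 0) ∧ d e v = 1 ∧ d e u = 1) :=
      fun u h => he ⟨h.1, h.2.1⟩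
    rw [if_neg he]
    simp only [if_neg (h3 _), Finset.sum_const_zero]
    exact Nat.zero_le _

theorem card_eq_le (T : Finset (Fin m)) (u : Fin m) :
    Fintype.card (Eq d T u) ≤ ∑ e, d e u := by
  classical
  rw [Fintype.card_subtype, Finset.card_filter]
  refine Finset.sum_le_sum fun e _ => ?_
  split_ifs with h
  · rw [h.2]
  · exact Nat.zero_le _

open Classical in
/-- The number of the vectors for which the equations at the block `u` become dependent. -/
theorem bad_block (hd : ∀ e v, d e v ≤ 1) (hF : ∀ e, MultiDeg (F e) (d e))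
    (hsh : ∀ e e', e ≠ e' → ∀ u v, u ≠ v → d e u = 1 → d e v = 1 → d e' u = 1 → d e' v = 1 → False)
    (hn : ∀ v, ∑ e, d e v * ∑ u, d e u + 1 ≤ n v)
    (hrk : ∀ e u v, u ≠ v → d e u = 1 → d e v = 1 → ∀ x : Pt n, (∀ i, x i ≠ 0) →
      ∑ e', d e' u + ∑ e', d e' v * ∑ i, d e' i ≤ ((mf F e u v x).map (Int.cast : ℤ → ℚ)).rank)
    {T : Finset (Fin m)} {u v : Fin m} (hv : v ∈ T) (hu : u ∈ T.erase v) (x : Pt n)
    (hx : PT F d (T.erase v) x) {ρ : ℕ} (hρ : 1 ≤ ρ) :
    (((bx (n v) ρ).filter fun z => ¬ LinearIndependent ℤ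
      (fun e : Eq d T u => cf F e.1 u (Function.update x v z))).card : ℝ) ≤
      (3 * (ρ : ℝ)) ^ (n v - Fintype.card (Eq d T v) - ∑ u ∈ T.erase v, ka d T v u - 1) *
        3 ^ n v := by
  have huv : u ≠ v := Finset.ne_of_mem_erase hu
  have hold : LinearIndependent ℤ (fun e : Eq d (T.erase v) u => cf F e.1 u x) := hx.2.2 u hu
  by_cases hex : ∃ e0 : Eq d T u, d e0.1 v = 1
  · obtain ⟨e0, he0⟩ := hex
    have hother : ∀ e : Eq d T u, e ≠ e0 → d e.1 v = 0 := by
      intro e he
      by_contra hcon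
      have h1 : d e.1 v = 1 := by
        have := hd e.1 v
        omega
      exact hsh e.1 e0.1 (fun h => he (Subtype.ext h)) u v huv e.2.2 h1 e0.2.2 he0
    -- the point with nonzero blocks
    have hnpos : ∀ i, 0 < n i := fun i => by
      have := hn i
      omega
    set x' : Pt n := fun i => if i ∈ T.erase v then x i else Pi.single ⟨0, hnpos i⟩ 1 with hx'
    have hx'0 : ∀ i, x' i ≠ 0 := by
      intro i
      simp only [hx']
      split_ifs with h
      · exact hx.1 i h
      · intro h0
        have := congrFun h0 ⟨0, hnpos i⟩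
        simp at this
    have hmf : mf F e0.1 u v x = mf F e0.1 u v x' := by
      apply mf_congr hF
      intro i hiu hiv hi
      have hiT : i ∈ T := by
        by_contra hcon
        exact hi (e0.2.1 i hcon)
      simp only [hx']
      rw [if_pos (Finset.mem_erase.2 ⟨hiv, hiT⟩)]
    have hr1 := hrk e0.1 u v huv e0.2.2 he0 x' hx'0
    rw [← hmf] at hr1
    have hr2 := rank_real (mf F e0.1 u v x)
    have hr3 : ((mf F e0.1 u v x).map (Int.cast : ℤ → ℝ)).rank ≤ n v := by
      have := Matrix.rank_le_width ((mf F e0.1 u v x).map (Int.cast : ℤ → ℝ))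
      exact this
    have hc1 := card_bound hd T v
    have hc2 := card_eq_le (d := d) T u
    have hc3 : 0 < Fintype.card (Eq d T u) := Fintype.card_pos_iff.2 ⟨e0⟩
    have hn' := hn v
    have hLI : LinearIndependent ℤ (fun i : {i : Eq d T u // i ≠ e0} => cf F i.1.1 u x) := by
      let φ : {i : Eq d T u // i ≠ e0} → Eq d (T.erase v) u := fun i =>
        ⟨i.1.1, fun j hj => by
          by_cases hjv : j = v
          · rw [hjv]
            exact hother i.1 i.2
          · exact i.1.2.1 j (fun h => hj (Finset.mem_erase.2 ⟨hjv, h⟩)), i.1.2.2⟩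
      have hφ : Function.Injective φ := by
        intro a b hab
        have hab1 := congrArg Subtype.val hab
        have hab2 : a.1.1 = b.1.1 := hab1
        exact Subtype.ext (Subtype.ext hab2)
      exact hold.comp φ hφ
    have hmain := bad_card (mf F e0.1 u v x) (fun i : Eq d T u => cf F i.1 u x) e0
      (b := n v - Fintype.card (Eq d T v) - ∑ u ∈ T.erase v, ka d T v u - 1) hLI (by omega) hρ
    refine le_trans ?_ hmain
    apply le_of_eq
    congr 2
    apply Finset.filter_congr
    intro z _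
    have : (fun e : Eq d T u => cf F e.1 u (Function.update x v z)) =
        (fun i : Eq d T u => if i = e0 then mf F e0.1 u v x *ᵥ z else cf F i.1 u x) := by
      funext i
      by_cases hi : i = e0
      · rw [if_pos hi, hi]
        exact cf_mf hF huv he0 x z
      · rw [if_neg hi]
        exact cf_indep hF huv (hother i hi) x z
    rw [this]
    constructor <;> intro h <;> convert h
  · push Not at hex
    have hz : ∀ e : Eq d T u, d e.1 v = 0 := fun e => by
      have h1 := hex e
      have h2 := hd e.1 v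
      omega
    have hempty : ((bx (n v) ρ).filter fun z => ¬ LinearIndependent ℤ
        (fun e : Eq d T u => cf F e.1 u (Function.update x v z))) = ∅ := by
      apply Finset.filter_eq_empty_iff.2
      intro z _
      rw [not_not]
      let φ : Eq d T u → Eq d (T.erase v) u := fun i =>
        ⟨i.1, fun j hj => by
          by_cases hjv : j = v
          · rw [hjv]
            exact hz i
          · exact i.2.1 j (fun h => hj (Finset.mem_erase.2 ⟨hjv, h⟩)), i.2.2⟩
      have hφ : Function.Injective φ := by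
        intro a b hab
        have hab1 := congrArg Subtype.val hab
        have hab2 : a.1 = b.1 := hab1
        exact Subtype.ext hab2
      have h1 := hold.comp φ hφ
      have : (fun e : Eq d T u => cf F e.1 u (Function.update x v z)) =
          (fun e : Eq d (T.erase v) u => cf F e.1 u x) ∘ φ := by
        funext e
        exact cf_indep hF huv (hz e) x z
      rw [this]
      exact h1
    rw [hempty]
    simp only [Finset.card_empty, Nat.cast_zero]
    positivity

/-- Which vectors are bad. -/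
theorem bad_cases (hd : ∀ e v, d e v ≤ 1) (hF : ∀ e, MultiDeg (F e) (d e))
    {T : Finset (Fin m)} {v : Fin m} (x : Pt n) (hx : PT F d (T.erase v) x)
    (hli : LinearIndependent ℤ (fun e : Eq d T v => cf F e.1 v x)) (z : Fin (n v) → ℤ)
    (hz : z ∈ lat (fun e : Eq d T v => cf F e.1 v x))
    (hbad : ¬ PT F d T (Function.update x v z)) :
    z = 0 ∨ ∃ u ∈ T.erase v, ¬ LinearIndependent ℤ
      (fun e : Eq d T u => cf F e.1 u (Function.update x v z)) := by
  by_contra hcon
  push Not at hcon
  apply hbad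
  refine ⟨?_, ?_, ?_⟩
  · intro u hu
    by_cases huv : u = v
    · subst huv
      rw [Function.update_self]
      exact hcon.1
    · rw [Function.update_of_ne huv]
      exact hx.1 u (Finset.mem_erase.2 ⟨huv, hu⟩)
  · intro e he
    by_cases hev : d e v = 0
    · rw [eq_indep hF hev]
      apply hx.2.1 e
      intro i hi
      by_cases hiv : i = v
      · rw [hiv]
        exact hev
      · exact he i (fun h => hi (Finset.mem_erase.2 ⟨hiv, h⟩))
    · have h1 : d e v = 1 := by
        have := hd e v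
        omega
      rw [eq_lin hF h1]
      exact hz ⟨e, he, h1⟩
  · intro u hu
    by_cases huv : u = v
    · subst huv
      have : (fun e : Eq d T u => cf F e.1 u (Function.update x u z)) =
          (fun e : Eq d T u => cf F e.1 u x) := by
        funext e
        exact cf_self e.1 u x z
      rw [this]
      exact hli
    · exact hcon.2 u (Finset.mem_erase.2 ⟨huv, hu⟩)

end S5

open S5 in
theorem s5 : StmtS5 := by
  classical
  intro m K n F d hd hF hsh hn hrk T v hv
  set b := n v - Fintype.card (Eq d T v) - ∑ u ∈ T.erase v, ka d T v u - 1 with hb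
  refine ⟨1 + ((T.erase v).card : ℝ) * (3 ^ b * 3 ^ n v), by positivity,
    fun x hx hli ρ hρ => ?_⟩
  set Bad := (bx (n v) ρ).filter fun z => z ∈ lat (fun e : Eq d T v => cf F e.1 v x) ∧
    ¬ PT F d T (Function.update x v z) with hBad
  have hsub : Bad ⊆ {0} ∪ (T.erase v).biUnion fun u => (bx (n v) ρ).filter fun z =>
      ¬ LinearIndependent ℤ (fun e : Eq d T u => cf F e.1 u (Function.update x v z)) := by
    intro z hz
    rw [hBad, mem_filter] at hz
    rw [mem_union, mem_singleton, mem_biUnion]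
    rcases bad_cases hd hF x hx hli z hz.2.1 hz.2.2 with h | ⟨u, hu, h⟩
    · exact Or.inl h
    · exact Or.inr ⟨u, hu, mem_filter.2 ⟨hz.1, h⟩⟩
  have hρ1 : (1 : ℝ) ≤ ρ := by exact_mod_cast hρ
  have hcard : (Bad.card : ℝ) ≤ 1 + ((T.erase v).card : ℝ) * ((3 * (ρ : ℝ)) ^ b * 3 ^ n v) := by
    have h1 : Bad.card ≤ 1 + ∑ u ∈ T.erase v, ((bx (n v) ρ).filter fun z =>
        ¬ LinearIndependent ℤ (fun e : Eq d T u => cf F e.1 u (Function.update x v z))).card := by
      refine (card_le_card hsub).trans ((card_union_le _ _).trans ?_)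
      rw [card_singleton]
      exact Nat.add_le_add_left card_biUnion_le 1
    have h2 : (Bad.card : ℝ) ≤ 1 + ∑ u ∈ T.erase v, (((bx (n v) ρ).filter fun z =>
        ¬ LinearIndependent ℤ (fun e : Eq d T u => cf F e.1 u (Function.update x v z))).card : ℝ) := by
      exact_mod_cast h1
    refine h2.trans ?_
    have h3 : ∑ u ∈ T.erase v, (((bx (n v) ρ).filter fun z =>
        ¬ LinearIndependent ℤ (fun e : Eq d T u => cf F e.1 u (Function.update x v z))).card : ℝ) ≤
        ∑ _u ∈ T.erase v, ((3 * (ρ : ℝ)) ^ b * 3 ^ n v) :=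
      Finset.sum_le_sum fun u hu => bad_block hd hF hsh hn hrk hv hu x hx hρ
    rw [Finset.sum_const, nsmul_eq_mul] at h3
    linarith
  refine hcard.trans ?_
  have h4 : (1 : ℝ) ≤ (ρ : ℝ) ^ b := one_le_pow₀ hρ1
  rw [mul_pow]
  calc 1 + ((T.erase v).card : ℝ) * (3 ^ b * (ρ : ℝ) ^ b * 3 ^ n v)
      ≤ (ρ : ℝ) ^ b + ((T.erase v).card : ℝ) * (3 ^ b * (ρ : ℝ) ^ b * 3 ^ n v) := by gcongr
    _ = _ := by ring

end Pool.Agent.T6.H81.BG
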